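import Pool.Agent.H380R3.ARW.Core

/-!
# Sets of large dimension are hit infinitely often
-/

set_option autoImplicit false
set_option linter.unusedSectionVars false

open scoped ENNReal
open Finset MeasureTheory ProbabilityTheory

namespace Pool.Agent.H380R3.ARW

variable {d N : ℕ} {Ω : Type*} [MeasurableSpace Ω] {P : Measure Ω} [IsProbabilityMeasure P]
  {ξ : Fin N → ℕ → Ω → Fin d → ℤ} {α : ℝ}

lemma sz_bounded {S : Set (Fin d → ℤ)} (hS : Bornology.IsBounded S) :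
    ∃ K, ∀ y ∈ S, sz y ≤ K := by
  obtain ⟨R, hR⟩ := isBounded_iff_forall_norm_le.1 hS
  obtain ⟨K, hK⟩ := pow_unbounded_of_one_lt R (by norm_num : (1 : ℝ) < 2)
  refine ⟨K, fun y hy => ?_⟩
  rw [sz_le_iff]
  intro j
  have h1 : ‖y j‖ ≤ R := (norm_le_pi_norm y j).trans (hR y hy)
  rw [Int.norm_eq_abs] at h1
  have h2 : (((y j).natAbs : ℕ) : ℝ) < ((2 ^ K : ℕ) : ℝ) := by
    push_cast
    rw [Nat.cast_natAbs]
    push_cast
    exact h1.trans_lt hK
  exact_mod_cast h2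

/-- **Q1**: a set of dimension more than `d - α N` is hit in an unbounded set, almost surely -/
theorem big (hW : AddWalk P α ξ) (hα : 0 < α) (hN : 0 < N) (hdim : α * N < d)
    (A : Set (Fin d → ℤ)) (hA : d - α * N < Dim A) :
    ∀ᵐ ω ∂P, ¬ Bornology.IsBounded (rangeSet ξ ω ∩ A) := by
  classical
  obtain ⟨γ, hγ1, hγ2⟩ := exists_between hA
  have hγ0 : 0 < γ := by linarith
  have hsum : ∑' k : ℕ, NN γ A (k + 1) = ∞ := by
    by_contra hne
    have hmem : γ ∈ {γ : ℝ | 0 < γ ∧ ∑' k : ℕ, NN γ A (k + 1) < ∞} :=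
      ⟨hγ0, lt_top_iff_ne_top.2 hne⟩
    have hle : Dim A ≤ γ := csInf_le ⟨0, fun x hx => hx.1.le⟩ hmem
    linarith
  obtain ⟨n, rfl⟩ := Nat.exists_eq_succ_of_ne_zero hN.ne'
  have hαd : α < d := by
    refine lt_of_le_of_lt ?_ hdim
    push_cast
    nlinarith [(Nat.cast_nonneg n : (0 : ℝ) ≤ n)]
  have hd : d ≠ 0 := by
    rintro rfl
    simp at hαd
    linarith
  obtain ⟨μ, hμ, hlaw, c, C, hc, hC, hg⟩ := hW.data (Nat.succ_pos n) hd hαd
  have hpow : ENNReal.ofReal (2 ^ α) ^ (n + 1) = ENNReal.ofReal (2 ^ (α * (n + 1 : ℕ))) :=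
    ofReal_rpow_pow (n + 1)
  have hlt : ENNReal.ofReal (2 ^ α) ^ (n + 1) < DD d := by
    rw [hpow]; exact ofReal_lt_DD hdim
  choose ν hν1 hν2 hν3 using fun k : ℕ => frost_shell γ A (k + 1)
  have hcap : ∀ k, ∀ l ≤ k + 1, ∀ b, ∑' y, (if idx l y = b then ν k y else 0)
      ≤ ENNReal.ofReal (2 ^ γ) ^ l * (ENNReal.ofReal (2 ^ γ) ^ (k + 1 + 1))⁻¹ := by
    intro k l hl b
    rw [← cap_eq]
    exact hν2 k l hl b
  have hr : 1 < ENNReal.ofReal (2 ^ α) ^ (n + 1) / DD d * ENNReal.ofReal (2 ^ γ) := by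
    have h1 := rpow_div_DD (d := d) (α * (n + 1 : ℕ)) 1
    rw [pow_one] at h1
    rw [hpow, h1, ← ENNReal.ofReal_mul (by positivity), ← Real.rpow_add (by norm_num)]
    refine one_lt_ofReal ?_
    have : ((n + 1 : ℕ) : ℝ) = ((n.succ : ℕ) : ℝ) := rfl
    push_cast at hγ1 ⊢
    linarith
  have hinf : ∑' k, ∑' y, ν k y = ∞ := by
    rw [← top_le_iff, ← hsum]
    exact ENNReal.tsum_le_tsum hν3
  obtain ⟨δ, hδ, hcore⟩ := core hμ (one_lt_ofReal hα) hc hC hg n hlt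
    (one_lt_ofReal hγ0).le ENNReal.ofReal_ne_top hr ν (fun k y hy => (hν1 k y hy).2) hcap hinf
  -- every far part of `A` is hit with probability one
  have hone : ∀ K : ℕ, P {ω | (rangeSet ξ ω ∩ {y | ∃ k, K ≤ k ∧ ν k y ≠ 0}).Nonempty} = 1 := by
    intro K
    have h1 := prob_eq_one hμ (n + 1) {y | ∃ k, K ≤ k ∧ ν k y ≠ 0} δ hδ (hcore K) 0
    rw [hit_prob_eq, ← h1]
    refine iSup_congr fun L => ?_
    exact Ev_prob hW.measurable hW.indep μ hlaw L L le_rfl _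
  have hall : ∀ᵐ ω ∂P, ∀ K : ℕ,
      (rangeSet ξ ω ∩ {y | ∃ k, K ≤ k ∧ ν k y ≠ 0}).Nonempty := by
    rw [ae_all_iff]
    intro K
    have hmeas : MeasurableSet
        {ω | (rangeSet ξ ω ∩ {y | ∃ k, K ≤ k ∧ ν k y ≠ 0}).Nonempty} := by
      rw [← iUnion_Ev]
      exact MeasurableSet.iUnion fun L => Ev_measurable hW.measurable L _
    exact (prob_compl_eq_zero_iff hmeas).2 (hone K)
  filter_upwards [hall] with ω hω hb
  obtain ⟨K, hK⟩ := sz_bounded hb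
  obtain ⟨y, hy1, k, hk, hy2⟩ := hω K
  have hyA := hν1 k y hy2
  have h1 := hK y ⟨hy1, hyA.1⟩
  have h2 := (SS_sz hyA.2).1
  omega

end Pool.Agent.H380R3.ARW
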