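import Pool.Agent.H380R3.ARW.Kernel

/-!
# Convolution estimates for the kernels
-/

set_option autoImplicit false
set_option linter.unusedSectionVars false

open scoped ENNReal
open Finset

namespace Pool.Agent.H380R3.ARW

variable {d : ℕ}

/-- convolution of kernels -/
noncomputable def conv {E : Type*} [AddCommGroup E] (k l : E → ℝ≥0∞) (w : E) : ℝ≥0∞ :=
  ∑' y, k y * l (w - y)

lemma op_op {E : Type*} [AddCommGroup E] (k l f : E → ℝ≥0∞) (x : E) :
    op k (op l f) x = op (conv k l) f x := by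
  unfold op conv
  simp only [← ENNReal.tsum_mul_left, ← ENNReal.tsum_mul_right]
  rw [ENNReal.tsum_comm (f := fun w y => k y * l (w - y) * f (x + w))]
  refine tsum_congr fun y => ?_
  rw [← (Equiv.addLeft y).tsum_eq (fun w => k y * l (w - y) * f (x + w))]
  refine tsum_congr fun z => ?_
  simp only [Equiv.coe_addLeft, add_sub_cancel_left]
  rw [add_assoc, mul_assoc]

lemma kap_neg (a : ℝ≥0∞) (x : Fin d → ℤ) : kap a (-x) = kap a x := by
  unfold kap; rw [sz_neg]

lemma kap_le {a : ℝ≥0∞} (ha0 : a ≠ 0) (ha : a < DD d) (m : ℕ) {z v : Fin d → ℤ}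
    (h : sz z ≤ sz v + m) : kap a v ≤ ((a / DD d)⁻¹) ^ m * kap a z := by
  unfold kap
  have hq0 : a / DD d ≠ 0 := (ENNReal.div_pos ha0 DD_ne_top).ne'
  have hq1 : a / DD d < 1 := div_DD_lt_one ha
  calc (a / DD d) ^ sz v = ((a / DD d)⁻¹) ^ m * (a / DD d) ^ (sz v + m) := by
        rw [pow_add, mul_comm ((a / DD d) ^ sz v), ← mul_assoc, ← mul_pow,
          ENNReal.inv_mul_cancel hq0 (hq1.trans_le le_top).ne, one_pow, one_mul]
    _ ≤ ((a / DD d)⁻¹) ^ m * (a / DD d) ^ sz z := by
        refine mul_le_mul' le_rfl ?_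
        exact pow_le_pow_right_of_le_one' hq1.le h

lemma sz_le_sub (x y : Fin d → ℤ) (h : sz y + 2 ≤ sz x) : sz x ≤ sz (x - y) + 1 := by
  have := sz_add_le (x - y) y
  rw [sub_add_cancel] at this
  omega

lemma kap_mul (a b : ℝ≥0∞) (y : Fin d → ℤ) :
    kap a y * kap b y = (a * b / DD d / DD d) ^ sz y := by
  unfold kap
  rw [← mul_pow]
  congr 1
  simp only [div_eq_mul_inv]
  ring

lemma kap_mul_pow (a b : ℝ≥0∞) (y : Fin d → ℤ) : kap b y * a ^ sz y = kap (a * b) y := by
  unfold kap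
  rw [← mul_pow]
  congr 1
  simp only [div_eq_mul_inv]
  ring

lemma conv_upper {a b : ℝ≥0∞} (ha : 1 < a) (hb : 1 < b) (hab : a * b < DD d) :
    ∃ C : ℝ≥0∞, C ≠ ∞ ∧ ∀ x : Fin d → ℤ, conv (kap a) (kap b) x ≤ C * kap (a * b) x := by
  have hb0 : b ≠ 0 := (lt_trans zero_lt_one hb).ne'
  have ha0 : a ≠ 0 := (lt_trans zero_lt_one ha).ne'
  have haD : a < DD d := lt_of_le_of_lt (le_mul_of_one_le_right' hb.le) hab
  have hbD : b < DD d := lt_of_le_of_lt (le_mul_of_one_le_left' ha.le) hab
  have hat : a ≠ ∞ := (haD.trans_le le_top).ne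
  have hbt : b ≠ ∞ := (hbD.trans_le le_top).ne
  have hqa : (a / DD d)⁻¹ ≠ ∞ := by
    rw [ENNReal.inv_ne_top]; exact (ENNReal.div_pos ha0 DD_ne_top).ne'
  have hqb : (b / DD d)⁻¹ ≠ ∞ := by
    rw [ENNReal.inv_ne_top]; exact (ENNReal.div_pos hb0 DD_ne_top).ne'
  have hab0 : a * b ≠ 0 := mul_ne_zero ha0 hb0
  set C1 := (b / DD d)⁻¹ * (DD d * (1 - a⁻¹)⁻¹) with hC1
  set C2 := (a / DD d)⁻¹ * (DD d * (1 - b⁻¹)⁻¹) with hC2
  set C3 := ((b / DD d)⁻¹) ^ 2 * (DD d * (a * b / DD d)⁻¹ * (1 - a * b / DD d)⁻¹) with hC3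
  refine ⟨C1 + C2 + C3, ?_, fun x => ?_⟩
  · refine ENNReal.add_ne_top.2 ⟨ENNReal.add_ne_top.2 ⟨?_, ?_⟩, ?_⟩
    · exact ENNReal.mul_ne_top hqb (ENNReal.mul_ne_top DD_ne_top (one_sub_inv_ne_zero ha))
    · exact ENNReal.mul_ne_top hqa (ENNReal.mul_ne_top DD_ne_top (one_sub_inv_ne_zero hb))
    · refine ENNReal.mul_ne_top (ENNReal.pow_ne_top hqb) (ENNReal.mul_ne_top
        (ENNReal.mul_ne_top DD_ne_top ?_) (one_sub_ne_zero' (div_DD_lt_one hab)))
      rw [ENNReal.inv_ne_top]; exact (ENNReal.div_pos hab0 DD_ne_top).ne'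
  · have key : ∀ y : Fin d → ℤ, kap a y * kap b (x - y)
        ≤ (b / DD d)⁻¹ * kap b x * (if sz y ≤ sz x then kap a y else 0)
          + (a / DD d)⁻¹ * kap a x * (if sz (x - y) ≤ sz x then kap b (x - y) else 0)
          + ((b / DD d)⁻¹) ^ 2 * (if sz x ≤ sz y + 1 then (a * b / DD d / DD d) ^ sz y else 0) := by
      intro y
      by_cases h1 : sz y + 2 ≤ sz x
      · refine le_trans ?_ (le_trans le_self_add le_self_add)
        rw [if_pos (by omega), mul_comm (kap a y)]
        gcongr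
        have := kap_le (d := d) hb0 hbD 1 (sz_le_sub x y h1)
        simpa using this
      by_cases h2 : sz (x - y) + 2 ≤ sz x
      · refine le_trans ?_ (le_trans le_add_self le_self_add)
        rw [if_pos (by omega)]
        gcongr
        have h3 := sz_le_sub x (x - y) h2
        rw [sub_sub_cancel] at h3
        have := kap_le (d := d) ha0 haD 1 h3
        simpa using this
      · refine le_trans ?_ le_add_self
        rw [if_pos (by omega), ← kap_mul]
        have h3 : sz y ≤ sz (x - y) + 2 := by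
          have h4 := sz_add_le x (-(x - y))
          rw [sz_neg] at h4
          have h5 : x + -(x - y) = y := by abel
          rw [h5] at h4
          omega
        have := kap_le (d := d) hb0 hbD 2 h3
        calc kap a y * kap b (x - y) ≤ kap a y * (((b / DD d)⁻¹) ^ 2 * kap b y) := by gcongr
          _ = _ := by ring
    calc conv (kap a) (kap b) x ≤ ∑' y : Fin d → ℤ,
          ((b / DD d)⁻¹ * kap b x * (if sz y ≤ sz x then kap a y else 0)
          + (a / DD d)⁻¹ * kap a x * (if sz (x - y) ≤ sz x then kap b (x - y) else 0)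
          + ((b / DD d)⁻¹) ^ 2 * (if sz x ≤ sz y + 1 then (a * b / DD d / DD d) ^ sz y else 0)) :=
          ENNReal.tsum_le_tsum key
      _ = (b / DD d)⁻¹ * kap b x * (∑' y : Fin d → ℤ, if sz y ≤ sz x then kap a y else 0)
          + (a / DD d)⁻¹ * kap a x * (∑' y : Fin d → ℤ, if sz y ≤ sz x then kap b y else 0)
          + ((b / DD d)⁻¹) ^ 2 * (∑' y : Fin d → ℤ,
              if sz x ≤ sz y + 1 then (a * b / DD d / DD d) ^ sz y else 0) := by
          rw [ENNReal.tsum_add, ENNReal.tsum_add, ENNReal.tsum_mul_left, ENNReal.tsum_mul_left,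
            ENNReal.tsum_mul_left]
          congr 3
          exact (Equiv.subLeft x).tsum_eq (fun y : Fin d → ℤ => if sz y ≤ sz x then kap b y else 0)
      _ ≤ (b / DD d)⁻¹ * kap b x * ((DD d * (1 - a⁻¹)⁻¹) * a ^ sz x)
          + (a / DD d)⁻¹ * kap a x * ((DD d * (1 - b⁻¹)⁻¹) * b ^ sz x)
          + ((b / DD d)⁻¹) ^ 2 * ((DD d * (a * b / DD d)⁻¹ * (1 - a * b / DD d)⁻¹)
              * (a * b / DD d) ^ sz x) := by
          gcongr
          · exact sum_ball_kap ha hat _
          · exact sum_ball_kap hb hbt _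
          · exact sum_tail hab0 hab _
      _ = C1 * (kap b x * a ^ sz x) + C2 * (kap a x * b ^ sz x)
            + C3 * (a * b / DD d) ^ sz x := by
          rw [hC1, hC2, hC3]; ring
      _ = (C1 + C2 + C3) * kap (a * b) x := by
          rw [kap_mul_pow, kap_mul_pow, mul_comm b a]
          unfold kap
          ring

lemma conv_lower {a b : ℝ≥0∞} (ha : a < DD d) (hb : b < DD d) (x : Fin d → ℤ) :
    (b / DD d) * kap (a * b) x ≤ conv (kap a) (kap b) x := by
  have hqa : a / DD d ≤ 1 := (div_DD_lt_one ha).le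
  have hqb : b / DD d ≤ 1 := (div_DD_lt_one hb).le
  calc (b / DD d) * kap (a * b) x
      = DD d ^ sz x * ((a / DD d) ^ sz x * (b / DD d) ^ (sz x + 1)) := by
        unfold kap
        have : a * b / DD d = DD d * ((a / DD d) * (b / DD d)) := by
          calc a * b / DD d = (a / DD d * DD d) * (b / DD d) := by
                rw [div_DD_mul]; simp only [div_eq_mul_inv]; ring
            _ = _ := by ring
        rw [this, mul_pow, mul_pow]
        ring
    _ ≤ (ball d (sz x)).card * ((a / DD d) ^ sz x * (b / DD d) ^ (sz x + 1)) := by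
        gcongr
        exact le_card_ball _
    _ = ∑' y : Fin d → ℤ, (if sz y ≤ sz x then (a / DD d) ^ sz x * (b / DD d) ^ (sz x + 1)
          else 0) := by
        rw [tsum_ball (sz x) (fun _ => (a / DD d) ^ sz x * (b / DD d) ^ (sz x + 1))]
        simp
    _ ≤ conv (kap a) (kap b) x := by
        unfold conv
        refine ENNReal.tsum_le_tsum fun y => ?_
        split_ifs with h
        · unfold kap
          have h2 : sz (x - y) ≤ sz x + 1 := by
            have := sz_add_le x (-y)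
            rw [sz_neg, ← sub_eq_add_neg] at this
            omega
          gcongr ?_ * ?_
          · exact pow_le_pow_right_of_le_one' hqa h
          · exact pow_le_pow_right_of_le_one' hqb h2
        · exact bot_le

lemma triple {a b : ℝ≥0∞} (ha : 1 < a) (hb : 1 < b) (hab : a * b < DD d) :
    ∃ C : ℝ≥0∞, C ≠ ∞ ∧ ∀ z z' : Fin d → ℤ,
      ∑' v : Fin d → ℤ, kap (a * b) v * (kap a (z - v) * kap b (z' - v))
        ≤ C * (kap (a * b) z * kap (a * b) (z' - z) + kap (a * b) z' * kap (a * b) (z' - z)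
            + kap (a * b) z * kap (a * b) z') := by
  obtain ⟨C0, hC0, hconv⟩ := conv_upper (d := d) ha hb hab
  have hb0 : b ≠ 0 := (lt_trans zero_lt_one hb).ne'
  have ha0 : a ≠ 0 := (lt_trans zero_lt_one ha).ne'
  have haD : a < DD d := lt_of_le_of_lt (le_mul_of_one_le_right' hb.le) hab
  have hbD : b < DD d := lt_of_le_of_lt (le_mul_of_one_le_left' ha.le) hab
  have hab0 : a * b ≠ 0 := mul_ne_zero ha0 hb0
  have hab1 : 1 < a * b := lt_of_lt_of_le ha (le_mul_of_one_le_right' hb.le)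
  have habt : a * b ≠ ∞ := (hab.trans_le le_top).ne
  have hinv : ∀ c : ℝ≥0∞, c ≠ 0 → (c / DD d)⁻¹ ≠ ∞ := fun c hc => by
    rw [ENNReal.inv_ne_top]; exact (ENNReal.div_pos hc DD_ne_top).ne'
  set C1 := (a * b / DD d)⁻¹ * C0 with hC1
  set C3 := (a / DD d)⁻¹ * (b / DD d)⁻¹ * (DD d * (1 - (a * b)⁻¹)⁻¹) with hC3
  have hC1t : C1 ≠ ∞ := ENNReal.mul_ne_top (hinv _ hab0) hC0
  have hC3t : C3 ≠ ∞ := ENNReal.mul_ne_top (ENNReal.mul_ne_top (hinv _ ha0) (hinv _ hb0))
    (ENNReal.mul_ne_top DD_ne_top (one_sub_inv_ne_zero hab1))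
  refine ⟨C1 + C3, ENNReal.add_ne_top.2 ⟨hC1t, hC3t⟩, fun z z' => ?_⟩
  have hcv : ∑' v : Fin d → ℤ, kap a (z - v) * kap b (z' - v) ≤ C0 * kap (a * b) (z' - z) := by
    refine le_trans (le_of_eq ?_) (hconv (z' - z))
    unfold conv
    rw [← (Equiv.subRight z).tsum_eq (fun y : Fin d → ℤ => kap a y * kap b (z' - z - y))]
    refine tsum_congr fun v => ?_
    simp only [Equiv.subRight_apply]
    rw [← kap_neg a (z - v), neg_sub]
    congr 2
    abel
  have key : ∀ v : Fin d → ℤ, kap (a * b) v * (kap a (z - v) * kap b (z' - v))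
      ≤ ((a * b / DD d)⁻¹ * kap (a * b) z) * (kap a (z - v) * kap b (z' - v))
        + ((a * b / DD d)⁻¹ * kap (a * b) z') * (kap a (z - v) * kap b (z' - v))
        + ((a / DD d)⁻¹ * (b / DD d)⁻¹ * (kap a z * kap b z'))
          * (if sz v ≤ min (sz z) (sz z') then kap (a * b) v else 0) := by
    intro v
    by_cases h1 : sz z ≤ sz v + 1
    · refine le_trans ?_ (le_trans le_self_add le_self_add)
      gcongr
      have := kap_le (d := d) hab0 hab 1 h1
      simpa using this
    by_cases h2 : sz z' ≤ sz v + 1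
    · refine le_trans ?_ (le_trans le_add_self le_self_add)
      gcongr
      have := kap_le (d := d) hab0 hab 1 h2
      simpa using this
    · refine le_trans ?_ le_add_self
      rw [if_pos (by omega)]
      have h3 := kap_le (d := d) ha0 haD 1 (sz_le_sub z v (by omega))
      have h4 := kap_le (d := d) hb0 hbD 1 (sz_le_sub z' v (by omega))
      rw [pow_one] at h3 h4
      calc kap (a * b) v * (kap a (z - v) * kap b (z' - v))
          ≤ kap (a * b) v * (((a / DD d)⁻¹ * kap a z) * ((b / DD d)⁻¹ * kap b z')) := by gcongr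
        _ = _ := by ring
  have hmin : (a * b) ^ min (sz z) (sz z') ≤ b ^ sz z * a ^ sz z' := by
    rw [mul_pow, mul_comm]
    exact mul_le_mul' (pow_le_pow_right' hb.le (min_le_left _ _))
      (pow_le_pow_right' ha.le (min_le_right _ _))
  calc ∑' v : Fin d → ℤ, kap (a * b) v * (kap a (z - v) * kap b (z' - v))
      ≤ ∑' v : Fin d → ℤ,
        (((a * b / DD d)⁻¹ * kap (a * b) z) * (kap a (z - v) * kap b (z' - v))
        + ((a * b / DD d)⁻¹ * kap (a * b) z') * (kap a (z - v) * kap b (z' - v))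
        + ((a / DD d)⁻¹ * (b / DD d)⁻¹ * (kap a z * kap b z'))
          * (if sz v ≤ min (sz z) (sz z') then kap (a * b) v else 0)) :=
        ENNReal.tsum_le_tsum key
    _ ≤ ((a * b / DD d)⁻¹ * kap (a * b) z) * (C0 * kap (a * b) (z' - z))
        + ((a * b / DD d)⁻¹ * kap (a * b) z') * (C0 * kap (a * b) (z' - z))
        + ((a / DD d)⁻¹ * (b / DD d)⁻¹ * (kap a z * kap b z'))
          * ((DD d * (1 - (a * b)⁻¹)⁻¹) * (b ^ sz z * a ^ sz z')) := by
        rw [ENNReal.tsum_add, ENNReal.tsum_add, ENNReal.tsum_mul_left, ENNReal.tsum_mul_left,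
          ENNReal.tsum_mul_left]
        gcongr
        refine (sum_ball_kap hab1 habt _).trans ?_
        gcongr
    _ = C1 * (kap (a * b) z * kap (a * b) (z' - z) + kap (a * b) z' * kap (a * b) (z' - z))
        + C3 * ((kap a z * b ^ sz z) * (kap b z' * a ^ sz z')) := by
        rw [hC1, hC3]; ring
    _ = C1 * (kap (a * b) z * kap (a * b) (z' - z) + kap (a * b) z' * kap (a * b) (z' - z))
        + C3 * (kap (a * b) z * kap (a * b) z') := by
        rw [kap_mul_pow, kap_mul_pow, mul_comm b a]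
    _ ≤ (C1 + C3) * (kap (a * b) z * kap (a * b) (z' - z)
          + kap (a * b) z' * kap (a * b) (z' - z))
        + (C1 + C3) * (kap (a * b) z * kap (a * b) z') := by
        gcongr
        · exact le_self_add
        · exact le_add_self
    _ = _ := by ring

end Pool.Agent.H380R3.ARW
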