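import Pool.Agent.H380R3.ARW.Pot

/-!
# Lower bound for hitting probabilities of sets of large dimension
-/

set_option autoImplicit false
set_option linter.unusedSectionVars false

open scoped ENNReal
open Finset MeasureTheory

namespace Pool.Agent.H380R3.ARW

variable {d : ℕ}

lemma prob_mono_set (μ : (Fin d → ℤ) → ℝ≥0∞) (T L N : ℕ) {Q Q' : Set (Fin d → ℤ)} (h : Q ⊆ Q')
    (x : Fin d → ℤ) : prob μ T L N Q x ≤ prob μ T L N Q' x := by
  classical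
  unfold prob
  refine ExL_mono μ T N fun w _ _ => ?_
  by_cases hw : hitL L Q x w
  · rw [if_pos hw, if_pos (hitL_mono L h x w hw)]
  · rw [if_neg hw]
    exact bot_le

/-- the weighted sum of shell measures -/
noncomputable def wsum (q : ℝ≥0∞) (ν : ℕ → (Fin d → ℤ) → ℝ≥0∞) (s : Finset ℕ)
    (y : Fin d → ℤ) : ℝ≥0∞ := ∑ n ∈ s, (q⁻¹) ^ (n + 1) * ν n y

lemma op_wsum (κ : (Fin d → ℤ) → ℝ≥0∞) (q : ℝ≥0∞) (ν : ℕ → (Fin d → ℤ) → ℝ≥0∞) (s : Finset ℕ)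
    (z : Fin d → ℤ) : op κ (wsum q ν s) z = ∑ n ∈ s, (q⁻¹) ^ (n + 1) * op κ (ν n) z := by
  unfold wsum
  rw [op_sum]
  exact Finset.sum_congr rfl fun n _ => op_mul_left _ _ _ _

lemma qcancel {q : ℝ≥0∞} (hq0 : q ≠ 0) (hqt : q ≠ ∞) (n : ℕ) : (q⁻¹) ^ n * q ^ n = 1 := by
  rw [← mul_pow, ENNReal.inv_mul_cancel hq0 hqt, one_pow]

/-- potential on the support -/
lemma wsum_near {σ : ℝ≥0∞} (hσ0 : σ ≠ 0) (hσ : σ < DD d) (Cp : ℝ≥0∞)
    (ν : ℕ → (Fin d → ℤ) → ℝ≥0∞) (hsupp : ∀ n y, ν n y ≠ 0 → y ∈ SS d (n + 1))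
    (hpot : ∀ n z, op (kap σ) (ν n) z ≤ Cp * (σ / DD d) ^ (n + 1)) (s : Finset ℕ)
    (z : Fin d → ℤ) (hz : wsum (σ / DD d) ν s z ≠ 0) :
    op (kap σ) (wsum (σ / DD d) ν s) z ≤ 5 * Cp + (σ / DD d)⁻¹ * ∑ n ∈ s, ∑' y, ν n y := by
  classical
  set q : ℝ≥0∞ := σ / DD d with hq
  have hq0 : q ≠ 0 := (ENNReal.div_pos hσ0 DD_ne_top).ne'
  have hq1 : q < 1 := div_DD_lt_one hσ
  have hqt : q ≠ ∞ := (hq1.trans_le le_top).ne
  obtain ⟨l, hl, hlz⟩ : ∃ l ∈ s, ν l z ≠ 0 := by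
    by_contra hcon
    push Not at hcon
    apply hz
    unfold wsum
    exact Finset.sum_eq_zero fun n hn => by rw [hcon n hn, mul_zero]
  have hzl := SS_sz (hsupp l z hlz)
  rw [op_wsum]
  calc ∑ n ∈ s, (q⁻¹) ^ (n + 1) * op (kap σ) (ν n) z
      ≤ ∑ n ∈ s, ((if n ∈ Finset.Icc (l - 2) (l + 2) then Cp else 0)
          + q⁻¹ * ∑' y, ν n y) := by
        refine Finset.sum_le_sum fun n _ => ?_
        by_cases h : n ∈ Finset.Icc (l - 2) (l + 2)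
        · rw [if_pos h]
          refine le_trans ?_ le_self_add
          calc (q⁻¹) ^ (n + 1) * op (kap σ) (ν n) z
              ≤ (q⁻¹) ^ (n + 1) * (Cp * q ^ (n + 1)) := by gcongr; exact hpot n z
            _ = Cp * ((q⁻¹) ^ (n + 1) * q ^ (n + 1)) := by ring
            _ = Cp := by rw [qcancel hq0 hqt, mul_one]
        · rw [if_neg h, zero_add]
          rw [Finset.mem_Icc] at h
          have hfar : ∀ y, ν n y ≠ 0 → n ≤ sz (y - z) := by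
            intro y hy
            have hyn := SS_sz (hsupp n y hy)
            by_cases hc : l + 3 ≤ n
            · have := sz_le_sub y z (by omega)
              omega
            · have := sz_le_sub z y (by omega)
              have h2 : sz (z - y) = sz (y - z) := by rw [← sz_neg (z - y), neg_sub]
              omega
          calc (q⁻¹) ^ (n + 1) * op (kap σ) (ν n) z
              ≤ (q⁻¹) ^ (n + 1) * (q ^ n * ∑' y, ν n y) := by
                gcongr; exact pot_far hσ n (ν n) z hfar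
            _ = q⁻¹ * (((q⁻¹) ^ n * q ^ n) * ∑' y, ν n y) := by ring
            _ = _ := by rw [qcancel hq0 hqt, one_mul]
    _ = ∑ n ∈ s, (if n ∈ Finset.Icc (l - 2) (l + 2) then Cp else 0)
          + q⁻¹ * ∑ n ∈ s, ∑' y, ν n y := by
        rw [Finset.sum_add_distrib, Finset.mul_sum]
    _ ≤ 5 * Cp + q⁻¹ * ∑ n ∈ s, ∑' y, ν n y := by
        gcongr
        rw [← Finset.sum_filter, Finset.sum_const, nsmul_eq_mul]
        gcongr
        have h1 : (s.filter fun n => n ∈ Finset.Icc (l - 2) (l + 2)).card ≤ 5 := by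
          refine (Finset.card_le_card (t := Finset.Icc (l - 2) (l + 2)) ?_).trans ?_
          · intro n hn
            exact (Finset.mem_filter.1 hn).2
          · rw [Nat.card_Icc]
            omega
        exact_mod_cast h1

/-- potential at the starting point -/
lemma wsum_start {σ : ℝ≥0∞} (hσ0 : σ ≠ 0) (hσ : σ < DD d)
    (ν : ℕ → (Fin d → ℤ) → ℝ≥0∞) (hsupp : ∀ n y, ν n y ≠ 0 → y ∈ SS d (n + 1))
    (s : Finset ℕ) (x : Fin d → ℤ) (hs : ∀ n ∈ s, sz x + 3 ≤ n) :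
    op (kap σ) (wsum (σ / DD d) ν s) x ≤ (σ / DD d)⁻¹ * ∑ n ∈ s, ∑' y, ν n y ∧
    (σ / DD d) ^ 2 * ∑ n ∈ s, ∑' y, ν n y ≤ op (kap σ) (wsum (σ / DD d) ν s) x := by
  classical
  set q : ℝ≥0∞ := σ / DD d with hq
  have hq0 : q ≠ 0 := (ENNReal.div_pos hσ0 DD_ne_top).ne'
  have hq1 : q < 1 := div_DD_lt_one hσ
  have hqt : q ≠ ∞ := (hq1.trans_le le_top).ne
  rw [op_wsum, Finset.mul_sum, Finset.mul_sum]
  constructor
  · refine Finset.sum_le_sum fun n hn => ?_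
    have hfar : ∀ y, ν n y ≠ 0 → n ≤ sz (y - x) := by
      intro y hy
      have hyn := SS_sz (hsupp n y hy)
      have hx := hs n hn
      have := sz_le_sub y x (by omega)
      omega
    calc (q⁻¹) ^ (n + 1) * op (kap σ) (ν n) x
        ≤ (q⁻¹) ^ (n + 1) * (q ^ n * ∑' y, ν n y) := by
          gcongr; exact pot_far hσ n (ν n) x hfar
      _ = q⁻¹ * (((q⁻¹) ^ n * q ^ n) * ∑' y, ν n y) := by ring
      _ = _ := by rw [qcancel hq0 hqt, one_mul]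
  · refine Finset.sum_le_sum fun n hn => ?_
    have hfar : ∀ y, ν n y ≠ 0 → sz (y - x) ≤ n + 3 := by
      intro y hy
      have hyn := SS_sz (hsupp n y hy)
      have hx := hs n hn
      have h1 := sz_add_le y (-x)
      rw [sz_neg, ← sub_eq_add_neg] at h1
      omega
    calc q ^ 2 * ∑' y, ν n y = (q⁻¹) ^ (n + 1) * (q ^ (n + 3) * ∑' y, ν n y) := by
          calc q ^ 2 * ∑' y, ν n y
              = ((q⁻¹) ^ (n + 1) * q ^ (n + 1)) * (q ^ 2 * ∑' y, ν n y) := by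
                rw [qcancel hq0 hqt, one_mul]
            _ = _ := by ring
      _ ≤ (q⁻¹) ^ (n + 1) * op (kap σ) (ν n) x := by
          gcongr; exact pot_far_lower hσ (n + 3) (ν n) x hfar

lemma exists_block (m : ℕ → ℝ≥0∞) (hm : ∀ n, m n ≠ ∞) (hinf : ∑' n, m n = ∞) (K : ℕ) :
    ∃ s : Finset ℕ, (∀ n ∈ s, K ≤ n) ∧ 1 ≤ ∑ n ∈ s, m n := by
  have h1 : ∑' n, m (n + K) = ∞ := by
    have h := ENNReal.summable.sum_add_tsum_nat_add' (f := m) (k := K)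
    rw [hinf] at h
    rcases ENNReal.add_eq_top.1 h with h2 | h2
    · exact absurd h2 (ENNReal.sum_ne_top.2 fun n _ => hm n)
    · exact h2
  rw [ENNReal.tsum_eq_iSup_nat] at h1
  have h2 : 1 < ⨆ i : ℕ, ∑ n ∈ range i, m (n + K) := by rw [h1]; exact ENNReal.one_lt_top
  obtain ⟨i, hi⟩ := lt_iSup_iff.1 h2
  refine ⟨(range i).map (addRightEmbedding K), fun n hn => ?_, ?_⟩
  · obtain ⟨j, -, rfl⟩ := Finset.mem_map.1 hn
    simp
  · rw [Finset.sum_map]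
    exact hi.le

/-- uniform lower bound of hitting probabilities -/
lemma core {μ : (Fin d → ℤ) → ℝ≥0∞} (hμ : ∑' e, μ e = 1) {a c C : ℝ≥0∞}
    (ha : 1 < a) (hc : c ≠ 0) (hC : C ≠ ∞)
    (hg : ∀ x, c * kap a x ≤ gr μ x ∧ gr μ x ≤ C * kap a x) (N : ℕ)
    (hN : a ^ (N + 1) < DD d) {p : ℝ≥0∞} (hp1 : 1 ≤ p) (hpt : p ≠ ∞)
    (hr : 1 < a ^ (N + 1) / DD d * p)
    (ν : ℕ → (Fin d → ℤ) → ℝ≥0∞) (hsupp : ∀ n y, ν n y ≠ 0 → y ∈ SS d (n + 1))
    (hcap : ∀ n, ∀ l ≤ n + 1, ∀ b,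
      ∑' y, (if idx l y = b then ν n y else 0) ≤ p ^ l * (p ^ (n + 1 + 1))⁻¹)
    (hinf : ∑' n, ∑' y, ν n y = ∞) :
    ∃ δ : ℝ≥0∞, δ ≠ 0 ∧ ∀ (K : ℕ) (x : Fin d → ℤ),
      δ ≤ ⨆ T, prob μ T T (N + 1) {y | ∃ n, K ≤ n ∧ ν n y ≠ 0} x := by
  classical
  obtain ⟨C2, hC2, hsm⟩ := second_moment_final hμ ha hC (fun x => (hg x).2) N hN
  obtain ⟨c2, hc2, hlow⟩ := iter_lower ha hc (fun x => (hg x).1) N hN
  set σ : ℝ≥0∞ := a ^ (N + 1) with hσ
  have hσ1 : 1 < σ := one_lt_pow' ha (Nat.succ_ne_zero N)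
  have hσ0 : σ ≠ 0 := (lt_trans zero_lt_one hσ1).ne'
  have hσt : σ ≠ ∞ := (hN.trans_le le_top).ne
  have hsuppV : ∀ n y, ν n y ≠ 0 → y ∈ VV d (n + 1) := fun n y hy => (hsupp n y hy).1
  set Cp : ℝ≥0∞ := 3 ^ d * ((1 - (σ / DD d * p)⁻¹)⁻¹ + 1) with hCp
  have hCpt : Cp ≠ ∞ := ENNReal.mul_ne_top (ENNReal.pow_ne_top (by norm_num))
    (ENNReal.add_ne_top.2 ⟨one_sub_inv_ne_zero hr, by simp⟩)
  have hpot : ∀ n z, op (kap σ) (ν n) z ≤ Cp * (σ / DD d) ^ (n + 1) := fun n z =>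
    pot_upper hσ0 hN hp1 hpt hr (n + 1) (ν n) (hsuppV n) (hcap n) z
  set m : ℕ → ℝ≥0∞ := fun n => ∑' y, ν n y with hm
  have hmt : ∀ n, m n ≠ ∞ := fun n =>
    ne_top_of_le_ne_top (ENNReal.pow_ne_top (by norm_num))
      (mass_le hp1 (n + 1) (ν n) (hsuppV n) (hcap n))
  set q : ℝ≥0∞ := σ / DD d with hq
  have hq0 : q ≠ 0 := (ENNReal.div_pos hσ0 DD_ne_top).ne'
  have hq1 : q < 1 := div_DD_lt_one hN
  have hqt : q ≠ ∞ := (hq1.trans_le le_top).ne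
  have hqit : q⁻¹ ≠ ∞ := ENNReal.inv_ne_top.2 hq0
  set Cθ : ℝ≥0∞ := (5 * Cp + q⁻¹) * q⁻¹ + q⁻¹ * q⁻¹ with hCθ
  have hCθt : Cθ ≠ ∞ := ENNReal.add_ne_top.2 ⟨ENNReal.mul_ne_top (ENNReal.add_ne_top.2
    ⟨ENNReal.mul_ne_top (by norm_num) hCpt, hqit⟩) hqit, ENNReal.mul_ne_top hqit hqit⟩
  set B : ℝ≥0∞ := C2 * Cθ + 1 with hB
  have hBt : B ≠ ∞ := ENNReal.add_ne_top.2 ⟨ENNReal.mul_ne_top hC2 hCθt, by simp⟩
  have hB0 : B ≠ 0 := (lt_of_lt_of_le zero_lt_one le_add_self).ne'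
  set c3 : ℝ≥0∞ := min c2 1 with hc3
  have hc30 : c3 ≠ 0 := (lt_min (pos_iff_ne_zero.2 hc2) zero_lt_one).ne'
  have hc3t : c3 ≠ ∞ := ((min_le_right c2 1).trans_lt ENNReal.one_lt_top).ne
  set c5 : ℝ≥0∞ := c3 * q ^ 2 with hc5
  have hc50 : c5 ≠ 0 := mul_ne_zero hc30 (pow_ne_zero _ hq0)
  have hc5t : c5 ≠ ∞ := ENNReal.mul_ne_top hc3t (ENNReal.pow_ne_top hqt)
  set c4 : ℝ≥0∞ := c5 / 2 with hc4
  have hc40 : c4 ≠ 0 := (ENNReal.div_pos hc50 (by norm_num)).ne'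
  have hc4t : c4 ≠ ∞ := ENNReal.div_ne_top hc5t (by norm_num)
  have hc45 : c4 < c5 := ENNReal.half_lt_self hc50 hc5t
  set r : ℝ≥0∞ := c4 / B with hrdef
  have hr0 : r ≠ 0 := (ENNReal.div_pos hc40 hBt).ne'
  have hrt : r ≠ ∞ := ENNReal.div_ne_top hc4t hB0
  have hrB : r * B = c4 := ENNReal.div_mul_cancel hB0 hBt
  refine ⟨r * c4, mul_ne_zero hr0 hc40, fun K x => ?_⟩
  obtain ⟨s, hs, hs1⟩ := exists_block m hmt hinf (max K (sz x + 3))
  set T : ℝ≥0∞ := ∑ n ∈ s, m n with hT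
  have hT0 : T ≠ 0 := (lt_of_lt_of_le zero_lt_one hs1).ne'
  have hTt : T ≠ ∞ := ENNReal.sum_ne_top.2 fun n _ => hmt n
  set f : (Fin d → ℤ) → ℝ≥0∞ := wsum q ν s with hf
  obtain ⟨hup, hlo⟩ := wsum_start hσ0 hN ν hsupp s x
    (fun n hn => (le_max_right _ _).trans (hs n hn))
  have hTh : Th (kap σ) f x ≤ Cθ * T ^ 2 := by
    unfold Th
    have h1 : op (kap σ) (fun v => f v * op (kap σ) f v) x
        ≤ (5 * Cp + q⁻¹ * T) * (q⁻¹ * T) := by
      calc op (kap σ) (fun v => f v * op (kap σ) f v) x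
          ≤ op (kap σ) (fun v => (5 * Cp + q⁻¹ * T) * f v) x := by
            refine op_mono _ (fun v => ?_) x
            by_cases hv : f v = 0
            · rw [hv, zero_mul, mul_zero]
            · rw [mul_comm]
              gcongr
              exact wsum_near hσ0 hN Cp ν hsupp hpot s v hv
        _ = (5 * Cp + q⁻¹ * T) * op (kap σ) f x := op_mul_left _ _ _ _
        _ ≤ _ := by gcongr
    calc op (kap σ) (fun v => f v * op (kap σ) f v) x + (op (kap σ) f x) ^ 2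
        ≤ (5 * Cp + q⁻¹ * T) * (q⁻¹ * T) + (q⁻¹ * T) ^ 2 := by gcongr
      _ ≤ (5 * Cp * T + q⁻¹ * T) * (q⁻¹ * T) + (q⁻¹ * T) ^ 2 :=
          add_le_add (mul_le_mul' (add_le_add (le_mul_of_one_le_right' hs1) le_rfl) le_rfl) le_rfl
      _ = Cθ * T ^ 2 := by rw [hCθ]; ring
  have hlow2 : c4 * T < ⨆ L, (UT μ L)^[N + 1] f x := by
    rw [iSup_iter_UT]
    calc c4 * T < c5 * T := ENNReal.mul_lt_mul_left hT0 hTt hc45
      _ = c3 * (q ^ 2 * T) := by rw [hc5]; ring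
      _ ≤ c2 * op (kap σ) f x := mul_le_mul' (min_le_left _ _) hlo
      _ ≤ _ := hlow f x
  obtain ⟨L, hL⟩ := lt_iSup_iff.1 hlow2
  have h5 := hit_lower hμ L (N + 1) f (r / T) x
  have hrT : r / T * T = r := ENNReal.div_mul_cancel hT0 hTt
  have h6 : 2 * (r * c4) ≤ r * c4 + prob μ L L (N + 1) {y | f y ≠ 0} x := by
    calc 2 * (r * c4) = 2 * (r / T * (c4 * T)) := by
          conv_lhs => rw [← hrT]
          ring
      _ ≤ 2 * (r / T * (UT μ L)^[N + 1] f x) := by gcongr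
      _ ≤ (r / T) ^ 2 * ExL μ L (N + 1) (fun w => (occL f x w) ^ 2)
            + prob μ L L (N + 1) {y | f y ≠ 0} x := h5
      _ ≤ (r / T) ^ 2 * (B * T ^ 2) + prob μ L L (N + 1) {y | f y ≠ 0} x := by
          gcongr
          calc ExL μ L (N + 1) (fun w => (occL f x w) ^ 2) ≤ C2 * Th (kap σ) f x := hsm f x L
            _ ≤ C2 * (Cθ * T ^ 2) := by gcongr
            _ = (C2 * Cθ) * T ^ 2 := by ring
            _ ≤ B * T ^ 2 := by gcongr; exact le_self_add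
      _ = (r / T * T) * ((r / T * T) * B) + prob μ L L (N + 1) {y | f y ≠ 0} x := by ring
      _ = r * c4 + prob μ L L (N + 1) {y | f y ≠ 0} x := by rw [hrT, hrB]
  have h7 : r * c4 ≤ prob μ L L (N + 1) {y | f y ≠ 0} x := by
    rw [two_mul] at h6
    exact (ENNReal.add_le_add_iff_left (ENNReal.mul_ne_top hrt hc4t)).1 h6
  refine h7.trans (le_trans ?_ (le_iSup (fun T => prob μ T T (N + 1)
    {y | ∃ n, K ≤ n ∧ ν n y ≠ 0} x) L))
  refine prob_mono_set μ L L (N + 1) (fun y hy => ?_) x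
  by_contra hcon
  apply hy
  rw [hf]
  unfold wsum
  refine Finset.sum_eq_zero fun n hn => ?_
  have : ν n y = 0 := by
    by_contra hne
    exact hcon ⟨n, (le_max_left _ _).trans (hs n hn), hne⟩
  rw [this, mul_zero]

end Pool.Agent.H380R3.ARW
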