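import Pool.Agent.H380R3.ARW.Frostman

/-!
# Hitting probabilities of dyadic cubes
-/

set_option autoImplicit false
set_option linter.unusedSectionVars false

open scoped ENNReal
open Finset MeasureTheory ProbabilityTheory

namespace Pool.Agent.H380R3.ARW

variable {d : ℕ}

/-- the dyadic cube as a finset -/
noncomputable def Qf (l : ℕ) (b : Fin d → ℤ) : Finset (Fin d → ℤ) :=
  Fintype.piFinset fun j => Finset.Ico (b j * 2 ^ l) ((b j + 1) * 2 ^ l)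

lemma mem_Qf (l : ℕ) (b y : Fin d → ℤ) : y ∈ Qf l b ↔ y ∈ dyad (l, b) := by
  unfold Qf
  rw [Fintype.mem_piFinset]
  exact forall_congr' fun j => Finset.mem_Ico

lemma card_Qf (l : ℕ) (b : Fin d → ℤ) : ((Qf l b).card : ℝ≥0∞) = DD d ^ l := by
  unfold Qf
  rw [Fintype.card_piFinset]
  have : ∀ j : Fin d, (Finset.Ico (b j * 2 ^ l) ((b j + 1) * 2 ^ l)).card = 2 ^ l := by
    intro j
    rw [Int.card_Ico]
    have : (b j + 1) * 2 ^ l - b j * 2 ^ l = ((2 ^ l : ℕ) : ℤ) := by push_cast; ring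
    rw [this]
    exact Int.toNat_natCast _
  simp only [this, Finset.prod_const, Finset.card_univ, Fintype.card_fin]
  unfold DD
  push_cast
  rw [← pow_mul, ← pow_mul, mul_comm]

lemma sz_sub_le_of_mem {l : ℕ} {b y z : Fin d → ℤ} (hy : y ∈ dyad (l, b)) (hz : z ∈ dyad (l, b)) :
    sz (y - z) ≤ l := by
  rw [sz_le_iff]
  intro j
  obtain ⟨h1, h2⟩ := hy j
  obtain ⟨h3, h4⟩ := hz j
  simp only [Pi.sub_apply]
  have h5 : ((2 ^ l : ℕ) : ℤ) = 2 ^ l := by push_cast; rfl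
  have h6 : (b j + 1) * 2 ^ l = b j * 2 ^ l + 2 ^ l := by ring
  simp only at h1 h2 h3 h4
  omega

open Classical in
/-- indicator of a cube -/
noncomputable def fQ (l : ℕ) (b : Fin d → ℤ) (y : Fin d → ℤ) : ℝ≥0∞ :=
  if y ∈ dyad (l, b) then 1 else 0

lemma op_fQ (k : (Fin d → ℤ) → ℝ≥0∞) (l : ℕ) (b z : Fin d → ℤ) :
    op k (fQ l b) z = ∑ y ∈ Qf l b, k (y - z) := by
  have h := op_eq_sub k (fQ l b) 0 z
  rw [zero_add] at h
  rw [h, tsum_eq_sum (s := Qf l b)]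
  · refine Finset.sum_congr rfl fun y hy => ?_
    rw [zero_add, fQ, if_pos ((mem_Qf l b y).1 hy), mul_one]
  · intro y hy
    rw [zero_add, fQ, if_neg fun h => hy ((mem_Qf l b y).2 h), mul_zero]

lemma cancel_helper {s c B p r : ℝ≥0∞} (hs0 : s ≠ 0) (hst : s ≠ ∞) (hc0 : c ≠ 0) (hct : c ≠ ∞)
    (h : (c * s) ^ 2 * p ≤ B * (s * (s * r))) : p ≤ (c ^ 2)⁻¹ * B * r := by
  have hcs0 : (c * s) ^ 2 ≠ 0 := pow_ne_zero _ (mul_ne_zero hc0 hs0)
  have hcst : (c * s) ^ 2 ≠ ∞ := ENNReal.pow_ne_top (ENNReal.mul_ne_top hct hst)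
  calc p = ((c * s) ^ 2)⁻¹ * ((c * s) ^ 2 * p) := by
        rw [← mul_assoc, ENNReal.inv_mul_cancel hcs0 hcst, one_mul]
    _ ≤ ((c * s) ^ 2)⁻¹ * (B * (s * (s * r))) := by gcongr
    _ = (c ^ 2)⁻¹ * B * r * ((s ^ 2)⁻¹ * s ^ 2) := by
        rw [mul_pow, ENNReal.mul_inv (Or.inl (pow_ne_zero _ hc0)) (Or.inl (ENNReal.pow_ne_top hct))]
        ring
    _ = _ := by
        rw [ENNReal.inv_mul_cancel (pow_ne_zero _ hs0) (ENNReal.pow_ne_top hst), mul_one]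

/-- bound for the finite horizon hitting probabilities of a cube -/
lemma cube_prob {μ : (Fin d → ℤ) → ℝ≥0∞} (hμ : ∑' e, μ e = 1) {a c C : ℝ≥0∞}
    (ha : 1 < a) (hc : c ≠ 0) (hC : C ≠ ∞)
    (hg : ∀ x, c * kap a x ≤ gr μ x ∧ gr μ x ≤ C * kap a x) (N : ℕ)
    (hN : a ^ (N + 1) < DD d) :
    ∃ K : ℝ≥0∞, K ≠ ∞ ∧ ∀ (k l : ℕ) (_ : l ≤ k) (b : Fin d → ℤ)
      (_ : ∀ y ∈ dyad (l, b), k ≤ sz y), ∃ L0, ∀ L, L0 ≤ L →
        prob μ (2 * L) L (N + 1) (dyad (l, b)) 0 ≤ K * (a ^ (N + 1) / DD d) ^ (k - l) := by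
  classical
  obtain ⟨C2, hC2, hsm⟩ := second_moment_final hμ ha hC (fun x => (hg x).2) N hN
  obtain ⟨c2, hc2, hlow⟩ := iter_lower ha hc (fun x => (hg x).1) N hN
  set σ : ℝ≥0∞ := a ^ (N + 1) with hσ
  have hσ1 : 1 < σ := one_lt_pow' ha (Nat.succ_ne_zero N)
  have hσ0 : σ ≠ 0 := (lt_trans zero_lt_one hσ1).ne'
  have hσt : σ ≠ ∞ := (hN.trans_le le_top).ne
  have hq1 : σ / DD d < 1 := div_DD_lt_one hN
  set κ : (Fin d → ℤ) → ℝ≥0∞ := kap σ with hκ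
  set Cσ : ℝ≥0∞ := DD d * (1 - σ⁻¹)⁻¹ with hCσ
  have hCσt : Cσ ≠ ∞ := ENNReal.mul_ne_top DD_ne_top (one_sub_inv_ne_zero hσ1)
  set c3 : ℝ≥0∞ := min c2 1 with hc3
  have hc30 : c3 ≠ 0 := (lt_min (pos_iff_ne_zero.2 hc2) zero_lt_one).ne'
  have hc3t : c3 ≠ ∞ := ((min_le_right c2 1).trans_lt ENNReal.one_lt_top).ne
  set c4 : ℝ≥0∞ := c3 / 2 with hc4
  have hc40 : c4 ≠ 0 := (ENNReal.div_pos hc30 (by norm_num)).ne'
  have hc4t : c4 ≠ ∞ := ENNReal.div_ne_top hc3t (by norm_num)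
  have hc43 : c4 < c3 := ENNReal.half_lt_self hc30 hc3t
  refine ⟨(c4 ^ 2)⁻¹ * (4 ^ (N + 1) * (C2 * (Cσ + 1))), ?_, ?_⟩
  · refine ENNReal.mul_ne_top ?_ (ENNReal.mul_ne_top ?_ (ENNReal.mul_ne_top hC2
      (ENNReal.add_ne_top.2 ⟨hCσt, by simp⟩)))
    · rw [ENNReal.inv_ne_top]; exact pow_ne_zero _ hc40
    · exact ENNReal.pow_ne_top (by norm_num)
  intro k l hl b hb
  set f : (Fin d → ℤ) → ℝ≥0∞ := fQ l b with hf
  -- lower bound for the potential on the cube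
  have hlowQ : ∀ z ∈ dyad (l, b), σ ^ l ≤ op κ f z := by
    intro z hz
    rw [hf, op_fQ]
    calc σ ^ l = DD d ^ l * (σ / DD d) ^ l := by rw [← mul_pow, mul_comm, div_DD_mul]
      _ = ∑ y ∈ Qf l b, (σ / DD d) ^ l := by
          rw [Finset.sum_const, nsmul_eq_mul, card_Qf]
      _ ≤ _ := by
          refine Finset.sum_le_sum fun y hy => ?_
          exact pow_le_pow_right_of_le_one' hq1.le (sz_sub_le_of_mem ((mem_Qf l b y).1 hy) hz)
  have hupQ : ∀ z ∈ dyad (l, b), op κ f z ≤ Cσ * σ ^ l := by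
    intro z hz
    refine le_trans ?_ (sum_ball_kap (d := d) hσ1 hσt l)
    unfold op
    refine ENNReal.tsum_le_tsum fun y => ?_
    rw [hf, fQ]
    by_cases h : z + y ∈ dyad (l, b)
    · have h2 : sz y ≤ l := by
        have := sz_sub_le_of_mem h hz
        rwa [add_sub_cancel_left] at this
      rw [if_pos h, if_pos h2, mul_one]
    · rw [if_neg h, mul_zero]
      exact bot_le
  set V : ℝ≥0∞ := op κ f 0 with hV
  have hVle : V ≤ σ ^ l * (σ / DD d) ^ (k - l) := by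
    rw [hV, hf, op_fQ]
    calc ∑ y ∈ Qf l b, κ (y - 0) ≤ ∑ y ∈ Qf l b, (σ / DD d) ^ k := by
          refine Finset.sum_le_sum fun y hy => ?_
          rw [sub_zero]
          exact pow_le_pow_right_of_le_one' hq1.le (hb y ((mem_Qf l b y).1 hy))
      _ = DD d ^ l * (σ / DD d) ^ k := by
          rw [Finset.sum_const, nsmul_eq_mul, card_Qf]
      _ = (σ / DD d * DD d) ^ l * (σ / DD d) ^ (k - l) := by
          have : k = l + (k - l) := by omega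
          conv_lhs => rw [this, pow_add]
          rw [mul_pow]
          ring
      _ = _ := by rw [div_DD_mul]
  have hVle2 : V ≤ σ ^ l := hVle.trans (mul_le_of_le_one_right' (pow_le_one' hq1.le _))
  have hTh : Th κ f 0 ≤ (Cσ + 1) * (σ ^ l * (σ ^ l * (σ / DD d) ^ (k - l))) := by
    unfold Th
    have h1 : op κ (fun v => f v * op κ f v) 0 ≤ Cσ * σ ^ l * V := by
      rw [hV, ← op_mul_left]
      refine op_mono κ (fun v => ?_) 0
      by_cases h : v ∈ dyad (l, b)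
      · rw [mul_comm]
        exact mul_le_mul' (hupQ v h) le_rfl
      · have : f v = 0 := by rw [hf, fQ, if_neg h]
        rw [this, zero_mul]
        exact bot_le
    calc op κ (fun v => f v * op κ f v) 0 + (op κ f 0) ^ 2
        ≤ Cσ * σ ^ l * V + V * V := by
          rw [sq]
          exact add_le_add h1 le_rfl
      _ ≤ Cσ * σ ^ l * V + σ ^ l * V := by gcongr
      _ = (Cσ + 1) * (σ ^ l * V) := by ring
      _ ≤ _ := by gcongr
  -- finite horizon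
  have hex : ∀ z ∈ Qf l b, ∃ L, c4 * σ ^ l ≤ (UT μ L)^[N + 1] f z := by
    intro z hz
    have h1 : c4 * σ ^ l < ⨆ L, (UT μ L)^[N + 1] f z := by
      rw [iSup_iter_UT]
      refine lt_of_lt_of_le ?_ (hlow f z)
      calc c4 * σ ^ l < c3 * σ ^ l :=
            ENNReal.mul_lt_mul_left (pow_ne_zero _ hσ0) (ENNReal.pow_ne_top hσt) hc43
        _ ≤ c2 * op κ f z := mul_le_mul' (min_le_left _ _) (hlowQ z ((mem_Qf l b z).1 hz))
    obtain ⟨L, hL⟩ := lt_iSup_iff.1 h1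
    exact ⟨L, hL.le⟩
  choose! Lz hLz using hex
  refine ⟨(Qf l b).sup Lz, fun L hL => ?_⟩
  have hall : ∀ y ∈ dyad (l, b), c4 * σ ^ l ≤ (UT μ L)^[N + 1] f y := by
    intro y hy
    have hy' := (mem_Qf l b y).2 hy
    refine (hLz y hy').trans ?_
    exact iter_UT_mono (N + 1) f ((Finset.le_sup hy').trans hL) y
  have h5 := hit_upper hμ L (N + 1) (dyad (l, b)) f (c4 * σ ^ l) 0 hall
  refine cancel_helper (pow_ne_zero _ hσ0) (ENNReal.pow_ne_top hσt) hc40 hc4t (h5.trans ?_)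
  calc 4 ^ (N + 1) * ExL μ (2 * L) (N + 1) (fun w => occL f 0 w ^ 2)
      ≤ 4 ^ (N + 1) * (C2 * Th κ f 0) := by gcongr; exact hsm f 0 _
    _ ≤ 4 ^ (N + 1) * (C2 * ((Cσ + 1) * (σ ^ l * (σ ^ l * (σ / DD d) ^ (k - l))))) := by gcongr
    _ = _ := by ring

end Pool.Agent.H380R3.ARW
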