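import Mathlib

/-!
# Additive random walks on `ℤ ^ d` and the Barlow-Taylor macroscopic dimension: definitions
-/

set_option autoImplicit false

open scoped ENNReal
open MeasureTheory ProbabilityTheory

namespace Pool.Agent.H380R3.ARW

/-- The Euclidean norm on `ℤ ^ d`. -/
noncomputable def eucl {d : ℕ} (x : Fin d → ℤ) : ℝ := Real.sqrt (∑ i, (x i : ℝ) ^ 2)

/-- The random walk `X_n = ξ_0 + ⋯ + ξ_{n-1}` with increments `ξ`, started at the origin. -/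
def walk {d : ℕ} {Ω : Type*} (ξ : ℕ → Ω → Fin d → ℤ) (n : ℕ) (ω : Ω) : Fin d → ℤ :=
  ∑ j ∈ Finset.range n, ξ j ω

/-- The Green function `g(0, x) = ∑_n P (X_n = x)`. -/
noncomputable def greenFn {d : ℕ} {Ω : Type*} [MeasurableSpace Ω] (P : Measure Ω)
    (ξ : ℕ → Ω → Fin d → ℤ) (x : Fin d → ℤ) : ℝ≥0∞ :=
  ∑' n, P {ω | walk ξ n ω = x}

/-- `ξ i j` (`i < N`, `j ∈ ℕ`) are the increments of `N` independent copies of a transient random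
walk on `ℤ ^ d` with i.i.d. increments, which satisfies the Barlow-Taylor condition with
index `α`: the Green function is bounded above and below by multiples of `‖x‖ ^ (-d + α)`. -/
structure AddWalk {d N : ℕ} {Ω : Type*} [MeasurableSpace Ω] (P : Measure Ω) (α : ℝ)
    (ξ : Fin N → ℕ → Ω → Fin d → ℤ) : Prop where
  measurable : ∀ i j, Measurable (ξ i j)
  indep : iIndepFun (fun p : Fin N × ℕ => ξ p.1 p.2) P
  ident : ∃ ν : Measure (Fin d → ℤ), ∀ i j, P.map (ξ i j) = ν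
  transient : ∀ i x, greenFn P (ξ i) x < ∞
  bt : ∃ A B : ℝ, 0 < A ∧ A ≤ B ∧ ∀ i x, x ≠ 0 →
    ENNReal.ofReal (A * eucl x ^ (-(d : ℝ) + α)) ≤ greenFn P (ξ i) x ∧
    greenFn P (ξ i) x ≤ ENNReal.ofReal (B * eucl x ^ (-(d : ℝ) + α))

/-- The range `{X^(1)_{n_1} + ⋯ + X^(N)_{n_N}}` of the additive random walk. -/
def rangeSet {d N : ℕ} {Ω : Type*} (ξ : Fin N → ℕ → Ω → Fin d → ℤ) (ω : Ω) :
    Set (Fin d → ℤ) :=
  {x | ∃ n : Fin N → ℕ, x = ∑ i, walk (ξ i) (n i) ω}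

/-- The cube `V_k = [-2^k, 2^k)^d`. -/
def VV (d k : ℕ) : Set (Fin d → ℤ) := {x | ∀ i, -(2 ^ k : ℤ) ≤ x i ∧ x i < 2 ^ k}

/-- The shells `S_0 = V_0`, `S_{k+1} = V_{k+1} \ V_k`. -/
def SS (d : ℕ) : ℕ → Set (Fin d → ℤ)
  | 0 => VV d 0
  | k + 1 => VV d (k + 1) \ VV d k

/-- The dyadic cube `∏_j [a_j 2^l, (a_j + 1) 2^l)`, `c = (l, a)`. -/
def dyad {d : ℕ} (c : ℕ × (Fin d → ℤ)) : Set (Fin d → ℤ) :=
  {x | ∀ j, c.2 j * 2 ^ c.1 ≤ x j ∧ x j < (c.2 j + 1) * 2 ^ c.1}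

/-- `N_γ (A, S_k)`: the minimum of `∑ 2 ^ (γ (l_i - k - 1))` over all finite covers of
`A ∩ S_k` by dyadic cubes of side lengths `2 ^ l_i ≥ 1`. -/
noncomputable def NN {d : ℕ} (γ : ℝ) (A : Set (Fin d → ℤ)) (k : ℕ) : ℝ≥0∞ :=
  ⨅ (C : Finset (ℕ × (Fin d → ℤ))) (_ : A ∩ SS d k ⊆ ⋃ c ∈ C, dyad c),
    ∑ c ∈ C, ENNReal.ofReal (2 ^ (γ * ((c.1 : ℝ) - k - 1)))

/-- The Barlow-Taylor macroscopic Hausdorff dimension. -/
noncomputable def Dim {d : ℕ} (A : Set (Fin d → ℤ)) : ℝ :=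
  sInf {γ : ℝ | 0 < γ ∧ ∑' k : ℕ, NN γ A (k + 1) < ∞}

end Pool.Agent.H380R3.ARW
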