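import Pool.Agent.H380R3.ARW.Multi

/-!
# Doob's inequality for lists and Cairoli's inequality for several walks
-/

set_option autoImplicit false
set_option linter.unusedSectionVars false

open scoped ENNReal
open Finset

namespace Pool.Agent.H380R3.ARW

variable {E : Type*} [AddCommGroup E]

/-- running maximum of the martingale closed by `H` -/
noncomputable def Mx (μ : E → ℝ≥0∞) : ℕ → (List E → ℝ≥0∞) → List E → ℝ≥0∞
  | 0, H, _ => H []
  | T + 1, H, [] => Ex μ (T + 1) H
  | T + 1, H, e :: l => max (Ex μ (T + 1) H) (Mx μ T (fun l => H (e :: l)) l)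

variable {μ : E → ℝ≥0∞} (hμ : ∑' e, μ e = 1)

lemma ennreal_two_mul_le (a b : ℝ≥0∞) : 2 * (a * b) ≤ a ^ 2 + b ^ 2 := by
  by_cases ha : a = ∞
  · subst ha; simp
  by_cases hb : b = ∞
  · subst hb; simp
  lift a to NNReal using ha
  lift b to NNReal using hb
  norm_cast
  have := two_mul_le_add_sq (a : ℝ) (b : ℝ)
  rw [← NNReal.coe_le_coe]
  push_cast
  linarith

/-- terminal inequality `Y ^ 2 + 4 x Y ≤ 4 x ^ 2 + 2 Y ^ 2` -/
lemma term_ineq (x Y : ℝ≥0∞) : Y ^ 2 + 4 * (x * Y) ≤ 4 * x ^ 2 + 2 * Y ^ 2 := by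
  have := ennreal_two_mul_le (2 * x) Y
  calc Y ^ 2 + 4 * (x * Y) = Y ^ 2 + 2 * (2 * x * Y) := by ring
    _ ≤ Y ^ 2 + ((2 * x) ^ 2 + Y ^ 2) := by gcongr
    _ = 4 * x ^ 2 + 2 * Y ^ 2 := by ring

/-- step inequality: for `Z = max x Y`: `2 Z ^ 2 + 4 x Y ≤ 2 Y ^ 2 + 4 x Z` -/
lemma step_ineq (x Y : ℝ≥0∞) :
    2 * (max x Y) ^ 2 + 4 * (x * Y) ≤ 2 * Y ^ 2 + 4 * (x * max x Y) := by
  rcases le_total x Y with h | h
  · rw [max_eq_right h]
  · rw [max_eq_left h]
    have := ennreal_two_mul_le x Y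
    calc 2 * x ^ 2 + 4 * (x * Y) = 2 * x ^ 2 + 2 * (2 * (x * Y)) := by ring
      _ ≤ 2 * x ^ 2 + 2 * (x ^ 2 + Y ^ 2) := by gcongr
      _ = _ := by ring

include hμ

/-- Jensen / Cauchy-Schwarz -/
lemma Ex_sq_le (T : ℕ) (H : List E → ℝ≥0∞) : (Ex μ T H) ^ 2 ≤ Ex μ T (fun l => H l ^ 2) := by
  by_cases h0 : Ex μ T H = 0
  · rw [h0]; simp
  by_cases hf : Ex μ T (fun l => H l ^ 2) = ∞
  · rw [hf]; exact le_top
  -- `2 s H ≤ s² + H²`
  have key : ∀ s : ℝ≥0∞, 2 * (s * Ex μ T H) ≤ s ^ 2 + Ex μ T (fun l => H l ^ 2) := by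
    intro s
    have h1 : Ex μ T (fun l => 2 * s * H l) ≤ Ex μ T (fun l => s ^ 2 + H l ^ 2) :=
      Ex_mono μ T fun l _ => by rw [mul_assoc]; exact ennreal_two_mul_le s (H l)
    rw [Ex_mul_left, Ex_add, Ex_const hμ] at h1
    calc 2 * (s * Ex μ T H) = 2 * s * Ex μ T H := by ring
      _ ≤ _ := h1
  have hfin : Ex μ T H ≠ ∞ := by
    intro h
    have := key 1
    rw [h] at this
    simp at this
    exact hf this
  have h2 := key (Ex μ T H)
  have h3 : Ex μ T H ^ 2 ≠ ∞ := ENNReal.pow_ne_top hfin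
  have h4 : Ex μ T H ^ 2 + Ex μ T H ^ 2 ≤ Ex μ T H ^ 2 + Ex μ T (fun l => H l ^ 2) := by
    calc Ex μ T H ^ 2 + Ex μ T H ^ 2 = 2 * (Ex μ T H * Ex μ T H) := by ring
      _ ≤ _ := h2
  exact (ENNReal.add_le_add_iff_left h3).1 h4

lemma doob_aux (T : ℕ) (H : List E → ℝ≥0∞) (y : ℝ≥0∞) :
    Ex μ T (fun l => (max (Mx μ T H l) y) ^ 2) + 4 * (Ex μ T H * max (Ex μ T H) y)
      ≤ 4 * Ex μ T (fun l => H l ^ 2) + 2 * (max (Ex μ T H) y) ^ 2 := by
  induction T generalizing H y with
  | zero =>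
    simp only [Ex, Mx]
    exact term_ineq _ _
  | succ T ih =>
    set x : ℝ≥0∞ := Ex μ (T + 1) H with hx
    set Y : ℝ≥0∞ := max x y with hY
    have hstep : ∀ e : E, Ex μ T (fun l => (max (Mx μ (T + 1) H (e :: l)) y) ^ 2)
        + 4 * (Ex μ T (fun l => H (e :: l)) * Y)
        ≤ 4 * Ex μ T (fun l => H (e :: l) ^ 2) + 2 * Y ^ 2 := by
      intro e
      set xe : ℝ≥0∞ := Ex μ T (fun l => H (e :: l)) with hxe
      have h1 : (fun l => (max (Mx μ (T + 1) H (e :: l)) y) ^ 2)
          = fun l => (max (Mx μ T (fun l => H (e :: l)) l) Y) ^ 2 := by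
        funext l
        simp only [Mx]
        rw [← hx, hY, max_comm x (Mx μ T _ l), max_assoc]
      rw [h1]
      have h2 := ih (fun l => H (e :: l)) Y
      rw [← hxe] at h2
      have h3 := step_ineq xe Y
      by_cases htop : Ex μ T (fun l => H (e :: l) ^ 2) = ∞
      · rw [htop]; simp
      by_cases hYt : Y = ∞
      · rw [hYt]; simp
      have hxet : xe ≠ ∞ := by
        intro h
        have := Ex_sq_le hμ T (fun l => H (e :: l))
        rw [← hxe, h] at this
        simp at this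
        exact htop this
      have hmt : max xe Y ≠ ∞ := by
        rcases le_total xe Y with h | h
        · rw [max_eq_right h]; exact hYt
        · rw [max_eq_left h]; exact hxet
      have hct : 2 * (max xe Y) ^ 2 + 4 * (xe * max xe Y) ≠ ∞ := by
        apply ENNReal.add_ne_top.2
        constructor
        · exact ENNReal.mul_ne_top (by simp) (ENNReal.pow_ne_top hmt)
        · exact ENNReal.mul_ne_top (by simp) (ENNReal.mul_ne_top hxet hmt)
      refine (ENNReal.add_le_add_iff_right hct).1 ?_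
      calc Ex μ T (fun l => (max (Mx μ T (fun l => H (e :: l)) l) Y) ^ 2) + 4 * (xe * Y)
            + (2 * (max xe Y) ^ 2 + 4 * (xe * max xe Y))
          = (Ex μ T (fun l => (max (Mx μ T (fun l => H (e :: l)) l) Y) ^ 2)
              + 4 * (xe * max xe Y)) + (2 * (max xe Y) ^ 2 + 4 * (xe * Y)) := by ring
        _ ≤ (4 * Ex μ T (fun l => H (e :: l) ^ 2) + 2 * (max xe Y) ^ 2)
              + (2 * Y ^ 2 + 4 * (xe * max xe Y)) := add_le_add h2 h3
        _ = _ := by ring
    have hsum : ∑' e, μ e * (Ex μ T (fun l => (max (Mx μ (T + 1) H (e :: l)) y) ^ 2)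
        + 4 * (Ex μ T (fun l => H (e :: l)) * Y))
        ≤ ∑' e, μ e * (4 * Ex μ T (fun l => H (e :: l) ^ 2) + 2 * Y ^ 2) :=
      ENNReal.tsum_le_tsum fun e => mul_le_mul' le_rfl (hstep e)
    have hl : ∑' e, μ e * (Ex μ T (fun l => (max (Mx μ (T + 1) H (e :: l)) y) ^ 2)
        + 4 * (Ex μ T (fun l => H (e :: l)) * Y))
        = Ex μ (T + 1) (fun l => (max (Mx μ (T + 1) H l) y) ^ 2) + 4 * (x * Y) := by
      have : ∀ e, μ e * (Ex μ T (fun l => (max (Mx μ (T + 1) H (e :: l)) y) ^ 2)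
        + 4 * (Ex μ T (fun l => H (e :: l)) * Y))
        = μ e * Ex μ T (fun l => (max (Mx μ (T + 1) H (e :: l)) y) ^ 2)
          + 4 * ((μ e * Ex μ T (fun l => H (e :: l))) * Y) := fun e => by ring
      simp only [this]
      rw [ENNReal.tsum_add, ENNReal.tsum_mul_left, ENNReal.tsum_mul_right]
      rfl
    have hr : ∑' e, μ e * (4 * Ex μ T (fun l => H (e :: l) ^ 2) + 2 * Y ^ 2)
        = 4 * Ex μ (T + 1) (fun l => H l ^ 2) + 2 * Y ^ 2 := by
      have : ∀ e, μ e * (4 * Ex μ T (fun l => H (e :: l) ^ 2) + 2 * Y ^ 2)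
        = 4 * (μ e * Ex μ T (fun l => H (e :: l) ^ 2)) + μ e * (2 * Y ^ 2) := fun e => by ring
      simp only [this]
      rw [ENNReal.tsum_add, ENNReal.tsum_mul_left, ENNReal.tsum_mul_right, hμ, one_mul]
      rfl
    rw [hl, hr] at hsum
    exact hsum

/-- **Doob's `L²` inequality** -/
lemma doob (T : ℕ) (H : List E → ℝ≥0∞) :
    Ex μ T (fun l => (Mx μ T H l) ^ 2) ≤ 4 * Ex μ T (fun l => H l ^ 2) := by
  by_cases hf : Ex μ T (fun l => H l ^ 2) = ∞
  · rw [hf]; simp
  have h := doob_aux hμ T H 0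
  have hm : ∀ a : ℝ≥0∞, max a 0 = a := fun a => max_eq_left bot_le
  simp only [hm] at h
  have hxt : Ex μ T H ≠ ∞ := by
    intro h'
    have := Ex_sq_le hμ T H
    rw [h'] at this
    simp at this
    exact hf this
  have h2 : 2 * (Ex μ T H) ^ 2 ≠ ∞ := ENNReal.mul_ne_top (by simp) (ENNReal.pow_ne_top hxt)
  refine (ENNReal.add_le_add_iff_right h2).1 (le_trans ?_ h)
  refine add_le_add le_rfl ?_
  calc 2 * Ex μ T H ^ 2 ≤ 4 * Ex μ T H ^ 2 := by gcongr; norm_num
    _ = 4 * (Ex μ T H * Ex μ T H) := by ring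

omit hμ in
/-- conditional expectations are bounded by the running maximum -/
lemma cond_le_Mx (T n : ℕ) (hn : n ≤ T) (H : List E → ℝ≥0∞) (l : List E) (hl : l.length = T) :
    Ex μ (T - n) (fun l' => H (l.take n ++ l')) ≤ Mx μ T H l := by
  induction T generalizing n H l with
  | zero =>
    obtain rfl : n = 0 := by omega
    simp [Ex, Mx]
  | succ T ih =>
    match l, hl with
    | e :: l, hl =>
      match n, hn with
      | 0, _ =>
        simp only [Mx]
        refine le_trans ?_ (le_max_left _ _)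
        simp
      | n + 1, hn =>
        simp only [Mx]
        refine le_trans ?_ (le_max_right _ _)
        have h := ih n (by omega) (fun l => H (e :: l)) l (by simpa using hl)
        rw [Nat.succ_sub_succ]
        simpa using h

/-! ### the maximal functional for several walks -/

omit hμ in
/-- supremum of `(UT L)^[N] f` over the positions with all times at most `L` -/
noncomputable def RL (μ : E → ℝ≥0∞) (L : ℕ) : (E → ℝ≥0∞) → E → List (List E) → ℝ≥0∞
  | f, x, [] => f x
  | f, x, l :: w => ⨆ n : Fin (L + 1), RL μ L (fun y => UT μ L f (y + (l.take n).sum)) x w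

omit hμ in
lemma UT_mono (L : ℕ) {f f' : E → ℝ≥0∞} (h : ∀ x, f x ≤ f' x) (x : E) :
    UT μ L f x ≤ UT μ L f' x := by
  induction L generalizing x with
  | zero => exact h x
  | succ L ih =>
    simp only [UT]
    gcongr
    · exact h x
    · exact op_mono μ ih x

omit hμ in
lemma UT_mono_left {L L' : ℕ} (h : L ≤ L') (f : E → ℝ≥0∞) (x : E) :
    UT μ L f x ≤ UT μ L' f x := by
  have h1 : ∀ L x, UT μ L f x ≤ UT μ (L + 1) f x := by
    intro L
    induction L with
    | zero => intro x; simp only [UT]; exact le_self_add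
    | succ L ih =>
      intro x
      show f x + op μ (UT μ L f) x ≤ f x + op μ (UT μ (L + 1) f) x
      gcongr
      exact op_mono μ ih x
  induction h with
  | refl => exact le_rfl
  | step _ ih => exact ih.trans (h1 _ _)

omit hμ in
lemma RL_mono (L : ℕ) {f f' : E → ℝ≥0∞} (h : ∀ x, f x ≤ f' x) (x : E) (w : List (List E)) :
    RL μ L f x w ≤ RL μ L f' x w := by
  induction w generalizing f f' with
  | nil => exact h x
  | cons l w ih =>
    simp only [RL]
    exact iSup_mono fun n => ih fun y => UT_mono L h _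

omit hμ in
lemma UT_shift (L : ℕ) (f : E → ℝ≥0∞) (a x : E) :
    UT μ L (fun y => f (y + a)) x = UT μ L f (x + a) := by
  induction L generalizing x with
  | zero => rfl
  | succ L ih =>
    simp only [UT]
    congr 1
    rw [← op_shift]
    exact congrArg (fun g => op μ g x) (funext ih)

omit hμ in
lemma UT_Ex (S T : ℕ) (F : List E → E → ℝ≥0∞) (x : E) :
    UT μ S (fun y => Ex μ T (fun l => F l y)) x = Ex μ T (fun l => UT μ S (F l) x) := by
  induction S generalizing x with
  | zero => rfl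
  | succ S ihS =>
    simp only [UT, op]
    rw [Ex_add, Ex_tsum]
    congr 1
    refine tsum_congr fun y => ?_
    rw [Ex_mul_left, ihS]

omit hμ in
lemma RL_Ex_le (L T : ℕ) (F : List E → E → ℝ≥0∞) (x : E) (w : List (List E)) :
    RL μ L (fun y => Ex μ T (fun l => F l y)) x w ≤ Ex μ T (fun l => RL μ L (F l) x w) := by
  induction w generalizing F with
  | nil => exact le_rfl
  | cons l w ih =>
    simp only [RL]
    refine iSup_le fun n => ?_
    have h1 : (fun y => UT μ L (fun y => Ex μ T (fun l => F l y)) (y + (l.take n).sum))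
        = fun y => Ex μ T (fun l' => UT μ L (F l') (y + (l.take n).sum)) := by
      funext y; exact UT_Ex L T F _
    rw [h1]
    refine (ih _).trans (Ex_mono μ T fun l' _ => ?_)
    exact le_iSup (fun n : Fin (L + 1) => RL μ L (fun y => UT μ L (F l') (y + (l.take n).sum)) x w) n

/-- **Cairoli's inequality** -/
lemma cairoli (L N : ℕ) (f : E → ℝ≥0∞) (x : E) :
    ExL μ (2 * L) N (fun w => (RL μ L f x w) ^ 2)
      ≤ 4 ^ N * ExL μ (2 * L) N (fun w => (occL f x w) ^ 2) := by
  induction N generalizing f with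
  | zero => simp [ExL, RL, occL]
  | succ N ih =>
    simp only [ExL]
    have key : ∀ l : List E, l.length = 2 * L → ∀ w : List (List E),
        RL μ L f x (l :: w) ≤ Mx μ (2 * L) (fun l' => RL μ L (fun y => occ f y l') x w) l := by
      intro l hl w
      simp only [RL]
      refine iSup_le fun n => ?_
      have hn : (n : ℕ) ≤ L := Nat.lt_succ_iff.1 n.2
      refine le_trans ?_ (cond_le_Mx (2 * L) n (by omega) _ l hl)
      refine le_trans ?_ (RL_Ex_le L (2 * L - n) (fun l' y => occ f y (l.take n ++ l')) x w)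
      refine RL_mono L (fun y => ?_) x w
      calc UT μ L f (y + (l.take n).sum) ≤ UT μ (2 * L - n) f (y + (l.take n).sum) :=
            UT_mono_left (by omega) f _
        _ = Ex μ (2 * L - n) (occ f (y + (l.take n).sum)) := (Ex_occ hμ _ f _).symm
        _ ≤ Ex μ (2 * L - n) (fun l' => occ f y (l.take n ++ l')) :=
            Ex_mono μ _ fun l' _ => le_occ_append f y _ _
    calc Ex μ (2 * L) (fun l => ExL μ (2 * L) N (fun w => (RL μ L f x (l :: w)) ^ 2))
        ≤ Ex μ (2 * L) (fun l => ExL μ (2 * L) N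
            (fun w => (Mx μ (2 * L) (fun l' => RL μ L (fun y => occ f y l') x w) l) ^ 2)) := by
          refine Ex_mono μ _ fun l hl => ExL_mono μ _ _ fun w _ _ => ?_
          gcongr
          exact key l hl w
      _ = ExL μ (2 * L) N (fun w => Ex μ (2 * L)
            (fun l => (Mx μ (2 * L) (fun l' => RL μ L (fun y => occ f y l') x w) l) ^ 2)) :=
          Ex_ExL_comm μ _ _ _ _
      _ ≤ ExL μ (2 * L) N (fun w => 4 * Ex μ (2 * L)
            (fun l => (RL μ L (fun y => occ f y l) x w) ^ 2)) :=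
          ExL_mono μ _ _ fun w _ _ => doob hμ _ _
      _ = 4 * Ex μ (2 * L) (fun l => ExL μ (2 * L) N
            (fun w => (RL μ L (fun y => occ f y l) x w) ^ 2)) := by
          rw [ExL_mul_left, ← Ex_ExL_comm]
      _ ≤ 4 * Ex μ (2 * L) (fun l => 4 ^ N * ExL μ (2 * L) N
            (fun w => (occL (fun y => occ f y l) x w) ^ 2)) := by
          gcongr
          exact Ex_mono μ _ fun l _ => ih _
      _ = _ := by
          rw [Ex_mul_left, pow_succ]
          simp only [occL]
          ring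

end Pool.Agent.H380R3.ARW
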