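import Pool.Agent.H380R3.ARW.Hit

/-!
# Monotone limits, the Green kernel, and the zero-one law
-/

set_option autoImplicit false
set_option linter.unusedSectionVars false

open scoped ENNReal
open Finset

namespace Pool.Agent.H380R3.ARW

lemma tsum_iSup_mono {ι : Type*} (f : ℕ → ι → ℝ≥0∞) (hf : Monotone f) :
    ∑' i, ⨆ n, f n i = ⨆ n, ∑' i, f n i := by
  let _ : MeasurableSpace ι := ⊤
  have _ : MeasurableSingletonClass ι := ⟨fun _ => trivial⟩
  have h := MeasureTheory.lintegral_iSup (μ := MeasureTheory.Measure.count) (f := f)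
    (fun n => fun _ _ => trivial) hf
  rw [MeasureTheory.lintegral_count] at h
  rw [h]
  exact iSup_congr fun n => MeasureTheory.lintegral_count _

variable {E : Type*} [AddCommGroup E] {μ : E → ℝ≥0∞}

lemma op_iSup (k : E → ℝ≥0∞) (f : ℕ → E → ℝ≥0∞) (hf : Monotone f) (x : E) :
    op k (fun y => ⨆ n, f n y) x = ⨆ n, op k (f n) x := by
  unfold op
  rw [← tsum_iSup_mono]
  · exact tsum_congr fun y => by rw [ENNReal.mul_iSup]
  · intro m n h y
    exact mul_le_mul' le_rfl (hf h _)

lemma Ex_iSup (T : ℕ) (H : ℕ → List E → ℝ≥0∞) (hH : Monotone H) :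
    Ex μ T (fun l => ⨆ n, H n l) = ⨆ n, Ex μ T (H n) := by
  induction T generalizing H with
  | zero => rfl
  | succ T ih =>
    simp only [Ex]
    rw [← tsum_iSup_mono]
    · refine tsum_congr fun e => ?_
      rw [ih (fun n l => H n (e :: l)) (fun m n h l => hH h _), ENNReal.mul_iSup]
    · intro m n h e
      exact mul_le_mul' le_rfl (Ex_mono μ T fun l _ => hH h _)

lemma ExL_iSup (T N : ℕ) (H : ℕ → List (List E) → ℝ≥0∞) (hH : Monotone H) :
    ExL μ T N (fun w => ⨆ n, H n w) = ⨆ n, ExL μ T N (H n) := by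
  induction N generalizing H with
  | zero => rfl
  | succ N ih =>
    simp only [ExL]
    rw [← Ex_iSup]
    · exact Ex_congr μ T fun l _ => ih (fun n w => H n (l :: w)) (fun m n h w => hH h _)
    · intro m n h l
      exact ExL_mono μ T N fun w _ _ => hH h _

/-- **zero-one law**: a uniform lower bound on the hitting probabilities forces them to be `1` -/
lemma prob_eq_one (hμ : ∑' e, μ e = 1) (N : ℕ) (Q : Set E) (c : ℝ≥0∞) (hc : c ≠ 0)
    (h : ∀ x, c ≤ ⨆ T, prob μ T T N Q x) (x : E) : ⨆ T, prob μ T T N Q x = 1 := by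
  classical
  set r : E → ℝ≥0∞ := fun x => ⨆ T, prob μ T T N Q x with hr
  have hle : ∀ x, r x ≤ 1 := fun x => iSup_le fun T => prob_le_one hμ T T N Q x
  have hmono : ∀ x, Monotone fun T => prob μ T T N Q x := by
    intro x S T hST
    obtain ⟨k, rfl⟩ := Nat.exists_eq_add_of_le hST
    exact le_self_add.trans (prob_restart hμ S k N Q x)
  have hc1 : c ≤ 1 := (h x).trans (hle x)
  have hct : c ≠ ∞ := fun h' => by rw [h'] at hc1; simp at hc1
  -- restart with infinite horizon
  have h1 : ∀ L, prob μ L L N Q x + c * (1 - prob μ L L N Q x) ≤ r x := by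
    intro L
    have h2 : prob μ L L N Q x + ExL μ L N (fun w => (if hitL L Q x w then 0 else 1)
        * r (x + (w.map List.sum).sum)) ≤ r x := by
      have h3 : ExL μ L N (fun w => (if hitL L Q x w then 0 else 1)
          * r (x + (w.map List.sum).sum))
          = ⨆ T, ExL μ L N (fun w => (if hitL L Q x w then 0 else 1)
            * prob μ T T N Q (x + (w.map List.sum).sum)) := by
        rw [← ExL_iSup]
        · refine ExL_congr μ L N fun w _ _ => ?_
          rw [ENNReal.mul_iSup]
        · intro S T hST w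
          exact mul_le_mul' le_rfl (hmono _ hST)
      rw [h3, ENNReal.add_iSup]
      refine iSup_le fun T => (prob_restart hμ L T N Q x).trans ?_
      exact le_iSup (fun T => prob μ T T N Q x) (L + T)
    refine le_trans ?_ h2
    gcongr
    have h4 : 1 - prob μ L L N Q x ≤ ExL μ L N (fun w => if hitL L Q x w then 0 else 1) := by
      rw [tsub_le_iff_left, prob, ← ExL_add]
      calc (1 : ℝ≥0∞) = ExL μ L N (fun _ => 1) := (ExL_const hμ L N 1).symm
        _ ≤ _ := by
          refine ExL_mono μ L N fun w _ _ => ?_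
          split_ifs <;> simp
    calc c * (1 - prob μ L L N Q x)
        ≤ c * ExL μ L N (fun w => if hitL L Q x w then 0 else 1) := by gcongr
      _ = ExL μ L N (fun w => c * (if hitL L Q x w then 0 else 1)) := (ExL_mul_left μ L N _ _).symm
      _ ≤ _ := by
        refine ExL_mono μ L N fun w _ _ => ?_
        rw [mul_comm]
        exact mul_le_mul' le_rfl (h _)
  have h5 : r x + c * (1 - r x) ≤ r x := by
    have h6 : ∀ L, prob μ L L N Q x + c * (1 - r x) ≤ r x := by
      intro L
      refine le_trans ?_ (h1 L)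
      gcongr
      exact le_iSup (fun T => prob μ T T N Q x) L
    rw [hr]
    simp only
    rw [ENNReal.iSup_add]
    exact iSup_le h6
  have hrt : r x ≠ ∞ := fun h' => by have := hle x; rw [h'] at this; simp at this
  have h7 : c * (1 - r x) = 0 := by
    have : r x + c * (1 - r x) ≤ r x + 0 := by rw [add_zero]; exact h5
    exact le_antisymm ((ENNReal.add_le_add_iff_left hrt).1 this) bot_le
  have h8 : 1 - r x = 0 := (mul_eq_zero.1 h7).resolve_left hc
  exact le_antisymm (hle x) (tsub_eq_zero_iff_le.1 h8)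

/-! ### the Green kernel -/

open Classical in
/-- `n`-step transition weights -/
noncomputable def pn (μ : E → ℝ≥0∞) (n : ℕ) (y : E) : ℝ≥0∞ :=
  Ex μ n (fun l => if l.sum = y then 1 else 0)

/-- the Green kernel -/
noncomputable def gr (μ : E → ℝ≥0∞) (y : E) : ℝ≥0∞ := ∑' n, pn μ n y

lemma op_pn_zero (f : E → ℝ≥0∞) (x : E) : op (pn μ 0) f x = f x := by
  classical
  unfold op pn
  rw [tsum_eq_single 0]
  · simp [Ex]
  · intro y hy
    have : ¬ (0 : E) = y := fun h => hy h.symm
    simp [Ex, this]

lemma op_pn_succ (n : ℕ) (f : E → ℝ≥0∞) (x : E) :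
    op (pn μ (n + 1)) f x = op μ (op (pn μ n) f) x := by
  classical
  have h1 : ∀ y, pn μ (n + 1) y = ∑' e, μ e * pn μ n (y - e) := by
    intro y
    unfold pn
    simp only [Ex, List.sum_cons]
    refine tsum_congr fun e => ?_
    congr 1
    refine Ex_congr μ n fun l _ => ?_
    have : e + l.sum = y ↔ l.sum = y - e := by
      constructor
      · intro h; rw [← h]; abel
      · intro h; rw [h]; abel
    simp only [this]
  unfold op
  simp only [h1, ← ENNReal.tsum_mul_right, ← ENNReal.tsum_mul_left]
  rw [ENNReal.tsum_comm]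
  refine tsum_congr fun e => ?_
  rw [← (Equiv.addLeft e).tsum_eq]
  refine tsum_congr fun z => ?_
  simp only [Equiv.coe_addLeft, add_sub_cancel_left]
  rw [add_assoc, mul_assoc]

lemma op_gr (f : E → ℝ≥0∞) (x : E) : op (gr μ) f x = ∑' n, op (pn μ n) f x := by
  unfold op gr
  simp only [← ENNReal.tsum_mul_right]
  rw [ENNReal.tsum_comm]

lemma isGreen_gr : IsGreen μ (gr μ) where
  eq f x := by
    rw [op_gr, tsum_eq_zero_add' ENNReal.summable, op_pn_zero]
    congr 1
    have : (fun x => op (gr μ) f x) = fun x => ∑' n, op (pn μ n) f x := funext (op_gr f)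
    rw [show op μ (op (gr μ) f) x = op μ (fun x => ∑' n, op (pn μ n) f x) x from by rw [← this],
      op_tsum]
    exact tsum_congr fun n => op_pn_succ n f x

lemma UT_eq_sum (L : ℕ) (f : E → ℝ≥0∞) (x : E) :
    UT μ L f x = ∑ n ∈ range (L + 1), op (pn μ n) f x := by
  induction L generalizing x with
  | zero => simp [UT, op_pn_zero]
  | succ L ih =>
    rw [Finset.sum_range_succ', op_pn_zero]
    have h1 : ∀ k, op (pn μ (k + 1)) f x = op μ (op (pn μ k) f) x := fun k => op_pn_succ k f x
    simp only [h1]
    rw [← op_sum, add_comm (op μ _ x) (f x)]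
    show f x + op μ (UT μ L f) x = _
    congr 1
    exact congrArg (fun g => op μ g x) (funext ih)

lemma iSup_UT (f : E → ℝ≥0∞) (x : E) : ⨆ L, UT μ L f x = op (gr μ) f x := by
  rw [op_gr, ENNReal.tsum_eq_iSup_nat]
  apply le_antisymm
  · refine iSup_le fun L => ?_
    rw [UT_eq_sum]
    exact le_iSup (fun i => ∑ a ∈ range i, op (pn μ a) f x) (L + 1)
  · refine iSup_le fun L => ?_
    refine le_trans ?_ (le_iSup (fun L => UT μ L f x) L)
    rw [UT_eq_sum]
    exact Finset.sum_le_sum_of_subset (Finset.range_mono (Nat.le_succ L))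

lemma UT_iSup (L : ℕ) (f : ℕ → E → ℝ≥0∞) (hf : Monotone f) (x : E) :
    UT μ L (fun y => ⨆ n, f n y) x = ⨆ n, UT μ L (f n) x := by
  induction L generalizing x with
  | zero => rfl
  | succ L ih =>
    simp only [UT]
    have h1 : op μ (UT μ L fun y => ⨆ n, f n y) x = ⨆ n, op μ (UT μ L (f n)) x := by
      rw [← op_iSup]
      · exact congrArg (fun g => op μ g x) (funext ih)
      · intro m n h y
        exact UT_mono L (hf h) y
    rw [h1, ENNReal.iSup_add_iSup_of_monotone]
    · intro m n h; exact hf h x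
    · intro m n h; exact op_mono μ (fun y => UT_mono L (hf h) y) x

lemma iter_UT_mono (N : ℕ) (f : E → ℝ≥0∞) : Monotone fun L => (UT μ L)^[N] f := by
  intro L L' h
  induction N with
  | zero => exact le_rfl
  | succ N ih =>
    intro x
    simp only [Function.iterate_succ_apply']
    exact (UT_mono_left h _ x).trans (UT_mono L' ih x)

lemma iSup_iter_UT (N : ℕ) (f : E → ℝ≥0∞) (x : E) :
    ⨆ L, (UT μ L)^[N] f x = (op (gr μ))^[N] f x := by
  induction N generalizing x with
  | zero => simp
  | succ N ih =>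
    simp only [Function.iterate_succ_apply']
    apply le_antisymm
    · refine iSup_le fun L => ?_
      refine ((isGreen_gr.UT_le L _ x)).trans ?_
      refine op_mono _ (fun y => ?_) x
      rw [← ih]
      exact le_iSup (fun L => (UT μ L)^[N] f y) L
    · rw [← iSup_UT]
      refine iSup_le fun L => ?_
      have h1 : (op (gr μ))^[N] f = fun y => ⨆ L, (UT μ L)^[N] f y := funext fun y => (ih y).symm
      rw [h1, UT_iSup L _ (iter_UT_mono N f)]
      refine iSup_le fun M => ?_
      refine le_trans ?_ (le_iSup (fun L => UT μ L ((UT μ L)^[N] f) x) (max L M))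
      exact (UT_mono_left (le_max_left L M) _ x).trans
        (UT_mono _ (iter_UT_mono N f (le_max_right L M)) x)

end Pool.Agent.H380R3.ARW
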