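import Pool.Agent.H380R3.ARW.Doob

/-!
# Hitting functionals, restart argument, Green kernel
-/

set_option autoImplicit false
set_option linter.unusedSectionVars false

open scoped ENNReal
open Finset

namespace Pool.Agent.H380R3.ARW

variable {E : Type*} [AddCommGroup E]

/-- the additive walk started at `x` hits `Q`, all times being at most `L` -/
def hitL (L : ℕ) (Q : Set E) : E → List (List E) → Prop
  | x, [] => x ∈ Q
  | x, l :: w => ∃ n : Fin (L + 1), hitL L Q (x + (l.take n).sum) w

lemma hitL_mono (L : ℕ) {Q Q' : Set E} (h : Q ⊆ Q') (x : E) (w : List (List E))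
    (hw : hitL L Q x w) : hitL L Q' x w := by
  induction w generalizing x with
  | nil => exact h hw
  | cons l w ih =>
    obtain ⟨n, hn⟩ := hw
    exact ⟨n, ih _ hn⟩

lemma hitL_shift (L : ℕ) (Q : Set E) (a x : E) (w : List (List E)) :
    hitL L {y | y + a ∈ Q} x w ↔ hitL L Q (x + a) w := by
  induction w generalizing x with
  | nil => exact Iff.rfl
  | cons l w ih =>
    simp only [hitL]
    refine exists_congr fun n => ?_
    rw [ih, add_right_comm]

lemma hitL_iUnion {ι : Type*} (L : ℕ) (Q : ι → Set E) (x : E) (w : List (List E)) :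
    hitL L (⋃ i, Q i) x w ↔ ∃ i, hitL L (Q i) x w := by
  induction w generalizing x with
  | nil => simp [hitL]
  | cons l w ih =>
    simp only [hitL, ih]
    exact exists_comm

variable {μ : E → ℝ≥0∞}

lemma RL_shift (L : ℕ) (f : E → ℝ≥0∞) (a x : E) (w : List (List E)) :
    RL μ L (fun y => f (y + a)) x w = RL μ L f (x + a) w := by
  induction w generalizing f with
  | nil => rfl
  | cons l w ih =>
    simp only [RL]
    refine iSup_congr fun n => ?_
    rw [← ih]
    refine congrArg (fun g => RL μ L g x w) (funext fun y => ?_)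
    rw [UT_shift, add_right_comm]

lemma le_RL (L : ℕ) (Q : Set E) (f : E → ℝ≥0∞) (c : ℝ≥0∞) (x : E) (w : List (List E))
    (hw : hitL L Q x w) (hc : ∀ y ∈ Q, c ≤ (UT μ L)^[w.length] f y) : c ≤ RL μ L f x w := by
  induction w generalizing f x with
  | nil => exact hc x hw
  | cons l w ih =>
    obtain ⟨n, hn⟩ := hw
    simp only [RL]
    refine le_trans ?_
      (le_iSup (fun n : Fin (L + 1) => RL μ L (fun y => UT μ L f (y + (l.take n).sum)) x w) n)
    rw [RL_shift L (UT μ L f)]
    exact ih (UT μ L f) _ hn hc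

open Classical in
/-- probability of hitting `Q` with all times at most `L`, lists of length `T` -/
noncomputable def prob (μ : E → ℝ≥0∞) (T L N : ℕ) (Q : Set E) (x : E) : ℝ≥0∞ :=
  ExL μ T N (fun w => if hitL L Q x w then 1 else 0)

section

variable (hμ : ∑' e, μ e = 1)
include hμ

lemma prob_le_one (T L N : ℕ) (Q : Set E) (x : E) : prob μ T L N Q x ≤ 1 := by
  classical
  calc prob μ T L N Q x ≤ ExL μ T N (fun _ => 1) := by
        refine ExL_mono μ T N fun w _ _ => ?_
        split_ifs <;> simp
    _ = 1 := ExL_const hμ T N 1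

/-- **upper bound for hitting probabilities** -/
lemma hit_upper (L N : ℕ) (Q : Set E) (f : E → ℝ≥0∞) (c : ℝ≥0∞) (x : E)
    (hc : ∀ y ∈ Q, c ≤ (UT μ L)^[N] f y) :
    c ^ 2 * prob μ (2 * L) L N Q x ≤ 4 ^ N * ExL μ (2 * L) N (fun w => (occL f x w) ^ 2) := by
  classical
  refine le_trans ?_ (cairoli hμ L N f x)
  rw [prob, ← ExL_mul_left]
  refine ExL_mono μ _ _ fun w hw _ => ?_
  split_ifs with h
  · rw [mul_one]
    gcongr
    exact le_RL L Q f c x w h (by rw [hw]; exact hc)
  · simp

omit hμ in
lemma occ_ne_zero (f : E → ℝ≥0∞) (y : E) (l : List E) (h : occ f y l ≠ 0) :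
    ∃ n ≤ l.length, f (y + (l.take n).sum) ≠ 0 := by
  induction l generalizing y with
  | nil => exact ⟨0, by simp, by simpa [occ] using h⟩
  | cons e l ih =>
    simp only [occ] at h
    by_cases h0 : f y = 0
    · rw [h0, zero_add] at h
      obtain ⟨n, hn, h2⟩ := ih _ h
      refine ⟨n + 1, by simpa using hn, ?_⟩
      rw [List.take_succ_cons, List.sum_cons, ← add_assoc]
      exact h2
    · exact ⟨0, by simp, by simpa using h0⟩

omit hμ in
lemma occL_ne_zero (T : ℕ) (f : E → ℝ≥0∞) (x : E) (w : List (List E)) (hw : AllLen T w)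
    (h : occL f x w ≠ 0) : hitL T {y | f y ≠ 0} x w := by
  induction w generalizing f with
  | nil => exact h
  | cons l w ih =>
    have hl : l.length = T := hw l (by simp)
    have hw' : AllLen T w := fun l' hl' => hw l' (by simp [hl'])
    have h1 := ih (fun y => occ f y l) hw' h
    have h2 : {y | occ f y l ≠ 0} ⊆ ⋃ n : Fin (T + 1), {y | y + (l.take n).sum ∈ {z | f z ≠ 0}} := by
      intro y hy
      obtain ⟨n, hn, h3⟩ := occ_ne_zero f y l hy
      rw [Set.mem_iUnion]
      exact ⟨⟨n, by omega⟩, h3⟩
    obtain ⟨n, hn⟩ := (hitL_iUnion T _ x w).1 (hitL_mono T h2 x w h1)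
    exact ⟨n, (hitL_shift T _ _ x w).1 hn⟩

/-- **lower bound for hitting probabilities** -/
lemma hit_lower (T N : ℕ) (f : E → ℝ≥0∞) (t : ℝ≥0∞) (x : E) :
    2 * (t * (UT μ T)^[N] f x)
      ≤ t ^ 2 * ExL μ T N (fun w => (occL f x w) ^ 2) + prob μ T T N {y | f y ≠ 0} x := by
  classical
  rw [← ExL_occL hμ T N f x, prob, ← ExL_mul_left, ← ExL_mul_left, ← ExL_mul_left, ← ExL_add]
  refine ExL_mono μ _ _ fun w _ hw => ?_
  split_ifs with h
  · calc 2 * (t * occL f x w) = 2 * ((t * occL f x w) * 1) := by ring
      _ ≤ (t * occL f x w) ^ 2 + 1 ^ 2 := ennreal_two_mul_le _ _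
      _ = _ := by ring
  · have : occL f x w = 0 := by
      by_contra h0
      exact h (occL_ne_zero T f x w hw h0)
    rw [this]
    simp

end

/-! ### restart -/

lemma ExL_append (S T N : ℕ) (H : List (List E) → ℝ≥0∞) :
    ExL μ (S + T) N H
      = ExL μ S N (fun w => ExL μ T N (fun w' => H (List.zipWith (· ++ ·) w w'))) := by
  induction N generalizing H with
  | zero => simp [ExL]
  | succ N ih =>
    simp only [ExL]
    rw [Ex_append]
    refine Ex_congr μ S fun l _ => ?_
    rw [← Ex_ExL_comm]
    refine Ex_congr μ T fun l' _ => ?_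
    rw [ih]
    rfl

lemma hit_zip_left (L T : ℕ) (Q : Set E) (x : E) (w w' : List (List E)) (hw : AllLen L w)
    (hlen : w.length = w'.length) (h : hitL L Q x w) :
    hitL (L + T) Q x (List.zipWith (· ++ ·) w w') := by
  induction w generalizing x w' with
  | nil => simpa [hitL] using h
  | cons l w ih =>
    match w', hlen with
    | l' :: w', hlen =>
      obtain ⟨n, hn⟩ := h
      have hn' : (n : ℕ) ≤ L := Nat.lt_succ_iff.1 n.2
      have hl : l.length = L := hw l (by simp)
      refine ⟨⟨n, by omega⟩, ?_⟩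
      have h1 : (l ++ l').take n = l.take n := by
        rw [List.take_append_of_le_length (by omega)]
      show hitL (L + T) Q (x + ((l ++ l').take n).sum) (List.zipWith (· ++ ·) w w')
      rw [h1]
      exact ih _ _ (fun l' hl' => hw l' (by simp [hl'])) (by simpa using hlen) hn

lemma hit_zip_right (L T : ℕ) (Q : Set E) (x : E) (w w' : List (List E)) (hw : AllLen L w)
    (hlen : w.length = w'.length) (h : hitL T Q (x + (w.map List.sum).sum) w') :
    hitL (L + T) Q x (List.zipWith (· ++ ·) w w') := by
  induction w generalizing x w' with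
  | nil =>
    match w', hlen with
    | [], _ => simpa [hitL] using h
  | cons l w ih =>
    match w', hlen with
    | l' :: w', hlen =>
      obtain ⟨n, hn⟩ := h
      have hn' : (n : ℕ) ≤ T := Nat.lt_succ_iff.1 n.2
      have hl : l.length = L := hw l (by simp)
      refine ⟨⟨L + n, by omega⟩, ?_⟩
      have h1 : (l ++ l').take (L + n) = l ++ l'.take n := by
        rw [← hl, List.take_length_add_append]
      show hitL (L + T) Q (x + ((l ++ l').take (L + n)).sum) (List.zipWith (· ++ ·) w w')
      rw [h1]
      refine ih _ _ (fun l' hl' => hw l' (by simp [hl'])) (by simpa using hlen) ?_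
      have h2 : x + (l ++ List.take (↑n) l').sum + (List.map List.sum w).sum
          = x + (List.map List.sum (l :: w)).sum + (List.take (↑n) l').sum := by
        simp only [List.sum_append, List.map_cons, List.sum_cons]
        abel
      rw [h2]
      exact hn

open Classical in
lemma prob_restart (hμ : ∑' e, μ e = 1) (L T N : ℕ) (Q : Set E) (x : E) :
    prob μ L L N Q x + ExL μ L N (fun w => (if hitL L Q x w then 0 else 1)
        * prob μ T T N Q (x + (w.map List.sum).sum))
      ≤ prob μ (L + T) (L + T) N Q x := by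
  rw [prob, prob, ExL_append, ← ExL_add]
  refine ExL_mono μ _ _ fun w hwN hw => ?_
  split_ifs with h
  · rw [zero_mul, add_zero]
    have hc : ∀ w' : List (List E), w'.length = N → AllLen T w' →
        (1 : ℝ≥0∞) ≤ (if hitL (L + T) Q x (List.zipWith (· ++ ·) w w') then 1 else 0) := by
      intro w' hw' _
      rw [if_pos (hit_zip_left L T Q x w w' hw (by rw [hwN, hw']) h)]
    exact (ExL_const hμ T N 1).symm.le.trans (ExL_mono μ T N hc)
  · rw [one_mul, zero_add, prob]
    refine ExL_mono μ _ _ fun w' hw' _ => ?_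
    by_cases h2 : hitL T Q (x + (List.map List.sum w).sum) w'
    · rw [if_pos h2, if_pos (hit_zip_right L T Q x w w' hw (by rw [hwN, hw']) h2)]
    · rw [if_neg h2]; exact bot_le

end Pool.Agent.H380R3.ARW
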