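import Pool.Agent.H380R3.ARW.Green

/-!
# Riesz-type kernels on `ℤ ^ d`
-/

set_option autoImplicit false
set_option linter.unusedSectionVars false

open scoped ENNReal
open Finset

namespace Pool.Agent.H380R3.ARW

variable {d : ℕ}

/-- sup norm -/
def nrm (x : Fin d → ℤ) : ℕ := Finset.univ.sup fun i => (x i).natAbs

/-- dyadic size: least `i` with `|x|_∞ < 2 ^ i` -/
def sz (x : Fin d → ℤ) : ℕ := Nat.size (nrm x)

lemma sz_le_iff (x : Fin d → ℤ) (i : ℕ) : sz x ≤ i ↔ ∀ j, (x j).natAbs < 2 ^ i := by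
  unfold sz
  rw [Nat.size_le, nrm, Finset.sup_lt_iff (by positivity)]
  simp

lemma sz_neg (x : Fin d → ℤ) : sz (-x) = sz x := by
  unfold sz nrm
  simp

lemma sz_zero : sz (0 : Fin d → ℤ) = 0 := by
  rw [← Nat.le_zero, sz_le_iff]
  simp

lemma sz_add_le (x y : Fin d → ℤ) : sz (x + y) ≤ max (sz x) (sz y) + 1 := by
  rw [sz_le_iff]
  intro j
  have h1 := (sz_le_iff x (max (sz x) (sz y))).1 (le_max_left _ _) j
  have h2 := (sz_le_iff y (max (sz x) (sz y))).1 (le_max_right _ _) j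
  have h3 : (x j + y j).natAbs ≤ (x j).natAbs + (y j).natAbs := Int.natAbs_add_le _ _
  rw [Pi.add_apply, pow_succ]
  omega

/-- the sup-norm ball -/
noncomputable def ball (d i : ℕ) : Finset (Fin d → ℤ) :=
  Fintype.piFinset fun _ => Finset.Ioo (-(2 ^ i : ℤ)) (2 ^ i)

lemma mem_ball (i : ℕ) (x : Fin d → ℤ) : x ∈ ball d i ↔ sz x ≤ i := by
  rw [ball, Fintype.mem_piFinset, sz_le_iff]
  refine forall_congr' fun j => ?_
  rw [Finset.mem_Ioo]
  have h2 : ((2 ^ i : ℕ) : ℤ) = 2 ^ i := by push_cast; rfl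
  omega

lemma card_ball (i : ℕ) : (ball d i).card = (2 * 2 ^ i - 1) ^ d := by
  rw [ball, Fintype.card_piFinset]
  simp only [Int.card_Ioo, Finset.prod_const, Finset.card_univ, Fintype.card_fin]
  congr 1
  have h2 : ((2 ^ i : ℕ) : ℤ) = 2 ^ i := by push_cast; rfl
  omega

/-- the constant `2 ^ d` -/
noncomputable def DD (d : ℕ) : ℝ≥0∞ := 2 ^ d

lemma DD_ne_zero : DD d ≠ 0 := by unfold DD; exact pow_ne_zero _ (by norm_num)
lemma DD_ne_top : DD d ≠ ∞ := by unfold DD; exact ENNReal.pow_ne_top (by norm_num)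

lemma tsum_ball (i : ℕ) (f : (Fin d → ℤ) → ℝ≥0∞) :
    ∑' x, (if sz x ≤ i then f x else 0) = ∑ x ∈ ball d i, f x := by
  rw [tsum_eq_sum (s := ball d i)]
  · exact Finset.sum_congr rfl fun x hx => by rw [if_pos ((mem_ball i x).1 hx)]
  · intro x hx
    rw [if_neg fun h => hx ((mem_ball i x).2 h)]

lemma card_ball_le (i : ℕ) : ((ball d i).card : ℝ≥0∞) ≤ DD d * DD d ^ i := by
  rw [card_ball]
  have h : (2 * 2 ^ i - 1) ^ d ≤ 2 ^ d * (2 ^ d) ^ i := by
    calc (2 * 2 ^ i - 1) ^ d ≤ (2 * 2 ^ i) ^ d := Nat.pow_le_pow_left (Nat.sub_le _ _) _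
      _ = _ := by rw [mul_pow, ← pow_mul, ← pow_mul, mul_comm d i]
  unfold DD
  exact_mod_cast h

lemma le_card_ball (i : ℕ) : DD d ^ i ≤ ((ball d i).card : ℝ≥0∞) := by
  rw [card_ball]
  have h : (2 ^ d) ^ i ≤ (2 * 2 ^ i - 1) ^ d := by
    rw [← pow_mul, mul_comm, pow_mul]
    refine Nat.pow_le_pow_left ?_ _
    have : 1 ≤ 2 ^ i := Nat.one_le_two_pow
    omega
  unfold DD
  exact_mod_cast h

/-- the kernel `(a / 2 ^ d) ^ sz x`, comparable to `|x| ^ (s - d)` with `a = 2 ^ s` -/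
noncomputable def kap (a : ℝ≥0∞) (x : Fin d → ℤ) : ℝ≥0∞ := (a / DD d) ^ sz x

lemma div_DD_mul (a : ℝ≥0∞) : a / DD d * DD d = a := ENNReal.div_mul_cancel DD_ne_zero DD_ne_top

lemma div_DD_lt_one {a : ℝ≥0∞} (ha : a < DD d) : a / DD d < 1 := by
  rw [ENNReal.div_lt_iff (Or.inl DD_ne_zero) (Or.inl DD_ne_top), one_mul]
  exact ha

lemma geom_up {q : ℝ≥0∞} (n : ℕ) :
    ∑' i : ℕ, (if n ≤ i then q ^ i else 0) = q ^ n * (1 - q)⁻¹ := by
  rw [← ENNReal.tsum_geometric, ← ENNReal.tsum_mul_left]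
  rw [← ENNReal.summable.sum_add_tsum_nat_add' (k := n)]
  rw [Finset.sum_eq_zero, zero_add]
  · refine tsum_congr fun i => ?_
    rw [if_pos (Nat.le_add_left n i), ← pow_add, add_comm]
  · intro i hi
    rw [if_neg (by simpa using hi)]

lemma geom_down {a : ℝ≥0∞} (ha : 1 < a) (hat : a ≠ ∞) (n : ℕ) :
    ∑ i ∈ range (n + 1), a ^ i ≤ (1 - a⁻¹)⁻¹ * a ^ n := by
  have ha0 : a ≠ 0 := (lt_trans zero_lt_one ha).ne'
  calc ∑ i ∈ range (n + 1), a ^ i = ∑ i ∈ range (n + 1), a ^ (n - i) := by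
        rw [← Finset.sum_range_reflect]
        refine Finset.sum_congr rfl fun i _ => ?_
        congr 1
    _ = ∑ i ∈ range (n + 1), a⁻¹ ^ i * a ^ n := by
        refine Finset.sum_congr rfl fun i hi => ?_
        have hi' : i ≤ n := by simpa [Nat.lt_succ_iff] using hi
        have h1 : a ^ n = a ^ i * a ^ (n - i) := by rw [← pow_add, Nat.add_sub_cancel' hi']
        rw [h1, ← mul_assoc, ← mul_pow, ENNReal.inv_mul_cancel ha0 hat, one_pow, one_mul]
    _ = (∑ i ∈ range (n + 1), a⁻¹ ^ i) * a ^ n := by rw [Finset.sum_mul]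
    _ ≤ (1 - a⁻¹)⁻¹ * a ^ n := by
        gcongr
        rw [← ENNReal.tsum_geometric]
        exact ENNReal.sum_le_tsum _

lemma one_sub_inv_ne_zero {a : ℝ≥0∞} (ha : 1 < a) : (1 - a⁻¹)⁻¹ ≠ ∞ := by
  rw [ENNReal.inv_ne_top]
  exact (tsub_pos_of_lt (ENNReal.inv_lt_one.2 ha)).ne'

lemma one_sub_ne_zero' {q : ℝ≥0∞} (hq : q < 1) : (1 - q)⁻¹ ≠ ∞ := by
  rw [ENNReal.inv_ne_top]
  exact (tsub_pos_of_lt hq).ne'

/-- sum of the kernel over a ball -/
lemma sum_ball_kap {a : ℝ≥0∞} (ha : 1 < a) (hat : a ≠ ∞) (i : ℕ) :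
    ∑' v : Fin d → ℤ, (if sz v ≤ i then kap a v else 0) ≤ (DD d * (1 - a⁻¹)⁻¹) * a ^ i := by
  calc ∑' v : Fin d → ℤ, (if sz v ≤ i then kap a v else 0)
      ≤ ∑' v : Fin d → ℤ, ∑ j ∈ range (i + 1), (if sz v ≤ j then (a / DD d) ^ j else 0) := by
        refine ENNReal.tsum_le_tsum fun v => ?_
        split_ifs with h
        · refine le_trans ?_ (Finset.single_le_sum (f := fun j =>
            (if sz v ≤ j then (a / DD d) ^ j else 0)) (fun _ _ => bot_le)
            (Finset.mem_range.2 (Nat.lt_succ_iff.2 h)))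
          simp [kap]
        · exact bot_le
    _ = ∑ j ∈ range (i + 1), (a / DD d) ^ j * (ball d j).card := by
        rw [Summable.tsum_finsetSum fun _ _ => ENNReal.summable]
        refine Finset.sum_congr rfl fun j _ => ?_
        rw [tsum_ball j (fun _ => (a / DD d) ^ j)]
        simp [mul_comm]
    _ ≤ ∑ j ∈ range (i + 1), (a / DD d) ^ j * (DD d * DD d ^ j) := by
        gcongr with j _
        exact card_ball_le j
    _ = DD d * ∑ j ∈ range (i + 1), a ^ j := by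
        rw [Finset.mul_sum]
        refine Finset.sum_congr rfl fun j _ => ?_
        calc (a / DD d) ^ j * (DD d * DD d ^ j) = DD d * ((a / DD d * DD d) ^ j) := by
              rw [mul_pow]; ring
          _ = _ := by rw [div_DD_mul]
    _ ≤ DD d * ((1 - a⁻¹)⁻¹ * a ^ i) := by
        gcongr
        exact geom_down ha hat i
    _ = _ := by ring

/-- tail sums -/
lemma sum_tail {s : ℝ≥0∞} (hs0 : s ≠ 0) (hs : s < DD d) (n : ℕ) :
    ∑' v : Fin d → ℤ, (if n ≤ sz v + 1 then (s / DD d / DD d) ^ sz v else 0)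
      ≤ (DD d * (s / DD d)⁻¹ * (1 - s / DD d)⁻¹) * (s / DD d) ^ n := by
  set q := s / DD d with hq
  have hq0 : q ≠ 0 := by
    rw [hq]; exact (ENNReal.div_pos hs0 DD_ne_top).ne'
  have hq1 : q < 1 := div_DD_lt_one hs
  calc ∑' v : Fin d → ℤ, (if n ≤ sz v + 1 then (q / DD d) ^ sz v else 0)
      ≤ ∑' v : Fin d → ℤ, ∑' m : ℕ, (if sz v ≤ m then (if n ≤ m + 1 then (q / DD d) ^ m else 0)
          else 0) := by
        refine ENNReal.tsum_le_tsum fun v => ?_
        refine le_trans ?_ (ENNReal.le_tsum (sz v))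
        simp
    _ = ∑' m : ℕ, (ball d m).card * (if n ≤ m + 1 then (q / DD d) ^ m else 0) := by
        rw [ENNReal.tsum_comm]
        refine tsum_congr fun m => ?_
        rw [tsum_ball m (fun _ => (if n ≤ m + 1 then (q / DD d) ^ m else 0))]
        simp
    _ ≤ ∑' m : ℕ, DD d * (q⁻¹ * (if n ≤ m + 1 then q ^ (m + 1) else 0)) := by
        refine ENNReal.tsum_le_tsum fun m => ?_
        split_ifs with h
        · calc ((ball d m).card : ℝ≥0∞) * (q / DD d) ^ m ≤ (DD d * DD d ^ m) * (q / DD d) ^ m := by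
                gcongr
                exact card_ball_le m
            _ = DD d * (q / DD d * DD d) ^ m := by rw [mul_pow]; ring
            _ = DD d * q ^ m := by rw [div_DD_mul]
            _ = DD d * (q⁻¹ * q ^ (m + 1)) := by
                rw [pow_succ', ← mul_assoc q⁻¹, ENNReal.inv_mul_cancel hq0 (hq1.trans_le le_top).ne,
                  one_mul]
            _ ≤ _ := le_rfl
        · simp
    _ = DD d * (q⁻¹ * ∑' m : ℕ, (if n ≤ m + 1 then q ^ (m + 1) else 0)) := by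
        rw [ENNReal.tsum_mul_left, ENNReal.tsum_mul_left]
    _ ≤ DD d * (q⁻¹ * ∑' m : ℕ, (if n ≤ m then q ^ m else 0)) := by
        refine mul_le_mul' le_rfl (mul_le_mul' le_rfl ?_)
        exact ENNReal.tsum_comp_le_tsum_of_injective (add_left_injective 1)
          (fun m => if n ≤ m then q ^ m else 0)
    _ = _ := by rw [geom_up]; ring

end Pool.Agent.H380R3.ARW
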