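import Pool.Agent.H380R3.ARW.Moment

/-!
# From independent increments to the weighted sums over lists
-/

set_option autoImplicit false
set_option linter.unusedSectionVars false

open scoped ENNReal
open Finset MeasureTheory ProbabilityTheory

namespace Pool.Agent.H380R3.ARW

section lists

variable {E : Type*} (μ : E → ℝ≥0∞)

lemma Ex_eq_tsum (T : ℕ) (H : List E → ℝ≥0∞) :
    Ex μ T H = ∑' a : Fin T → E, (∏ j, μ (a j)) * H (List.ofFn a) := by
  induction T generalizing H with
  | zero =>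
    rw [tsum_eq_single (fun i : Fin 0 => i.elim0)]
    · simp [Ex]
    · intro b hb
      exact absurd (Subsingleton.elim _ _) hb
  | succ T ih =>
    rw [← (Fin.consEquiv (fun _ : Fin (T + 1) => E)).tsum_eq, ENNReal.tsum_prod']
    simp only [Ex]
    refine tsum_congr fun e => ?_
    rw [ih, ← ENNReal.tsum_mul_left]
    refine tsum_congr fun a => ?_
    have h1 : List.ofFn ((Fin.consEquiv fun _ : Fin (T + 1) => E) (e, a)) = e :: List.ofFn a := by
      rw [List.ofFn_succ]
      simp only [Fin.consEquiv_apply, Fin.cons_zero, Fin.cons_succ]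
    rw [h1]
    simp only [Fin.consEquiv_apply, Fin.prod_univ_succ, Fin.cons_zero, Fin.cons_succ]
    ring

lemma ExL_eq_tsum (T N : ℕ) (H : List (List E) → ℝ≥0∞) :
    ExL μ T N H = ∑' a : Fin N → Fin T → E, (∏ i, ∏ j, μ (a i j))
      * H (List.ofFn fun i => List.ofFn (a i)) := by
  induction N generalizing H with
  | zero =>
    rw [tsum_eq_single (fun i : Fin 0 => i.elim0)]
    · simp [ExL]
    · intro b hb
      exact absurd (Subsingleton.elim _ _) hb
  | succ N ih =>
    rw [← (Fin.consEquiv (fun _ : Fin (N + 1) => Fin T → E)).tsum_eq, ENNReal.tsum_prod']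
    simp only [ExL]
    rw [Ex_eq_tsum]
    refine tsum_congr fun e => ?_
    rw [ih, ← ENNReal.tsum_mul_left]
    refine tsum_congr fun a => ?_
    simp only [Fin.consEquiv_apply, Fin.prod_univ_succ, Fin.cons_zero, Fin.cons_succ,
      List.ofFn_succ]
    ring

end lists

section prob

variable {E : Type*} [AddCommGroup E] [Countable E] [MeasurableSpace E]
  [MeasurableSingletonClass E] {Ω : Type*} [MeasurableSpace Ω] {P : Measure Ω}
  [IsProbabilityMeasure P]

lemma link {ι : Type*} [Fintype ι] (X : ι → Ω → E) (hX : ∀ p, Measurable (X p))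
    (hind : iIndepFun X P) (μ : E → ℝ≥0∞) (hlaw : ∀ p e, P (X p ⁻¹' {e}) = μ e)
    (F : (ι → E) → ℝ≥0∞) :
    ∫⁻ ω, F (fun p => X p ω) ∂P = ∑' a : ι → E, (∏ p, μ (a p)) * F a := by
  have h1 := (iIndepFun_iff_map_fun_eq_pi_map (fun p => (hX p).aemeasurable)).1 hind
  have hF : Measurable F := measurable_of_countable F
  have hXm : Measurable (fun ω p => X p ω) := measurable_pi_iff.2 hX
  have h2 : ∫⁻ ω, F (fun p => X p ω) ∂P = ∫⁻ a, F a ∂(P.map fun ω p => X p ω) :=
    (lintegral_map hF hXm).symm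
  have : ∀ p, IsProbabilityMeasure (P.map (X p)) := fun p =>
    Measure.isProbabilityMeasure_map (hX p).aemeasurable
  rw [h2, h1, lintegral_countable']
  refine tsum_congr fun a => ?_
  rw [Measure.pi_singleton, mul_comm]
  congr 1
  refine Finset.prod_congr rfl fun p _ => ?_
  rw [Measure.map_apply (hX p) (measurableSet_singleton _), hlaw]

lemma tsum_law (X : Ω → E) (hX : Measurable X) (μ : E → ℝ≥0∞)
    (hlaw : ∀ e, P (X ⁻¹' {e}) = μ e) : ∑' e, μ e = 1 := by
  have := Measure.isProbabilityMeasure_map (μ := P) hX.aemeasurable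
  have h1 : ∫⁻ _ : E, 1 ∂(P.map X) = 1 := by simp
  rw [lintegral_countable'] at h1
  rw [← h1]
  refine tsum_congr fun e => ?_
  rw [one_mul, Measure.map_apply hX (measurableSet_singleton _), hlaw]

/-- single walk -/
lemma link_one (ξ : ℕ → Ω → E) (hm : ∀ j, Measurable (ξ j)) (hind : iIndepFun ξ P)
    (μ : E → ℝ≥0∞) (hlaw : ∀ j e, P (ξ j ⁻¹' {e}) = μ e) (T : ℕ) (F : List E → ℝ≥0∞) :
    ∫⁻ ω, F (List.ofFn fun j : Fin T => ξ j ω) ∂P = Ex μ T F := by
  rw [Ex_eq_tsum]
  exact link (fun (j : Fin T) => ξ j) (fun j => hm j)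
    (hind.precomp (g := fun j : Fin T => (j : ℕ)) Fin.val_injective) μ (fun j e => hlaw j e)
    (fun a => F (List.ofFn a))

/-- several walks -/
lemma link_many {N : ℕ} (ξ : Fin N → ℕ → Ω → E) (hm : ∀ i j, Measurable (ξ i j))
    (hind : iIndepFun (fun p : Fin N × ℕ => ξ p.1 p.2) P)
    (μ : E → ℝ≥0∞) (hlaw : ∀ i j e, P (ξ i j ⁻¹' {e}) = μ e) (T : ℕ)
    (F : List (List E) → ℝ≥0∞) :
    ∫⁻ ω, F (List.ofFn fun i : Fin N => List.ofFn fun j : Fin T => ξ i j ω) ∂P
      = ExL μ T N F := by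
  rw [ExL_eq_tsum]
  have hinj : Function.Injective (fun p : Fin N × Fin T => ((p.1, (p.2 : ℕ)) : Fin N × ℕ)) := by
    rintro ⟨a, b⟩ ⟨a', b'⟩ h
    simp only [Prod.mk.injEq] at h
    rw [Prod.mk.injEq]
    exact ⟨h.1, Fin.ext h.2⟩
  have h := link (fun (p : Fin N × Fin T) => ξ p.1 p.2) (fun p => hm _ _)
    (hind.precomp hinj) μ (fun p e => hlaw _ _ e)
    (fun a => F (List.ofFn fun i => List.ofFn fun j => a (i, j)))
  rw [h, ← (Equiv.curry (Fin N) (Fin T) E).symm.tsum_eq]
  refine tsum_congr fun a => ?_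
  rw [Fintype.prod_prod_type]
  rfl

end prob

section events

variable {E : Type*} [AddCommGroup E]

lemma sum_take_range (η : ℕ → E) (T n : ℕ) (hn : n ≤ T) :
    ((List.ofFn fun j : Fin T => η j).take n).sum = ∑ j ∈ range n, η j := by
  rw [List.sum_take_ofFn, Finset.sum_filter,
    Fin.sum_univ_eq_sum_range (fun j => if j < n then η j else 0) T, ← Finset.sum_filter]
  refine Finset.sum_congr ?_ fun _ _ => rfl
  ext j
  simp only [Finset.mem_filter, Finset.mem_range]
  omega

lemma hitL_ofFn (L : ℕ) (Q : Set E) {N T : ℕ} (x : E) (A : Fin N → Fin T → E) :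
    hitL L Q x (List.ofFn fun i => List.ofFn (A i)) ↔
      ∃ n : Fin N → ℕ, (∀ i, n i ≤ L) ∧ x + ∑ i, ((List.ofFn (A i)).take (n i)).sum ∈ Q := by
  induction N generalizing x with
  | zero =>
    simp only [List.ofFn_zero, hitL, Finset.univ_eq_empty, Finset.sum_empty, add_zero]
    constructor
    · intro h
      exact ⟨fun i => i.elim0, fun i => i.elim0, h⟩
    · rintro ⟨_, _, h⟩
      exact h
  | succ N ih =>
    rw [List.ofFn_succ, Fin.exists_fin_succ_pi]
    simp only [hitL]
    constructor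
    · rintro ⟨n0, h⟩
      obtain ⟨n, hn, h2⟩ := (ih _ _).1 h
      refine ⟨n0, n, ?_, ?_⟩
      · intro i
        refine Fin.cases ?_ (fun i => ?_) i
        · exact Nat.lt_succ_iff.1 n0.2
        · simpa using hn i
      · rw [Fin.sum_univ_succ]
        simp only [Fin.cons_zero, Fin.cons_succ]
        rw [← add_assoc]
        exact h2
    · rintro ⟨n0, n, hn, h⟩
      have h0 : n0 ≤ L := by simpa using hn 0
      refine ⟨⟨n0, Nat.lt_succ_of_le h0⟩, (ih _ _).2 ⟨n, fun i => by simpa using hn i.succ, ?_⟩⟩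
      rw [Fin.sum_univ_succ] at h
      simp only [Fin.cons_zero, Fin.cons_succ] at h
      rw [add_assoc]
      exact h

end events

end Pool.Agent.H380R3.ARW
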