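import Pool.Agent.H380R3.ARW.Cube

/-!
# Sets of small dimension are hit finitely often
-/

set_option autoImplicit false
set_option linter.unusedSectionVars false

open scoped ENNReal
open Finset MeasureTheory ProbabilityTheory

namespace Pool.Agent.H380R3.ARW

variable {d N : ℕ} {Ω : Type*} [MeasurableSpace Ω] {P : Measure Ω} [IsProbabilityMeasure P]
  {ξ : Fin N → ℕ → Ω → Fin d → ℤ} {α : ℝ}

/-- the analytic data extracted from an additive random walk -/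
lemma AddWalk.data (hW : AddWalk P α ξ) (hN : 0 < N) (hd : d ≠ 0) (hαd : α < d) :
    ∃ μ : (Fin d → ℤ) → ℝ≥0∞, ∑' e, μ e = 1 ∧ (∀ i j e, P (ξ i j ⁻¹' {e}) = μ e) ∧
      ∃ c C : ℝ≥0∞, c ≠ 0 ∧ C ≠ ∞ ∧ ∀ x, c * kap (ENNReal.ofReal (2 ^ α)) x ≤ gr μ x ∧
        gr μ x ≤ C * kap (ENNReal.ofReal (2 ^ α)) x := by
  obtain ⟨ν, hν⟩ := hW.ident
  have hlaw : ∀ i j e, P (ξ i j ⁻¹' {e}) = ν {e} := by
    intro i j e
    rw [← hν i j, Measure.map_apply (hW.measurable i j) (measurableSet_singleton e)]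
  have hind : iIndepFun (ξ ⟨0, hN⟩) P :=
    hW.indep.precomp (g := fun j : ℕ => ((⟨0, hN⟩ : Fin N), j)) (fun a b h => by
      simpa using h)
  have hgr : ∀ x, greenFn P (ξ ⟨0, hN⟩) x = gr (fun e => ν {e}) x := fun x =>
    greenFn_eq (ξ ⟨0, hN⟩) (hW.measurable _) hind _ (fun j e => hlaw _ j e) x
  refine ⟨fun e => ν {e}, tsum_law (ξ ⟨0, hN⟩ 0) (hW.measurable _ _) _ (fun e => hlaw _ _ e),
    hlaw, ?_⟩
  obtain ⟨A, B, hA, hAB, hbt⟩ := hW.bt
  refine green_bounds hd hαd _ (one_le_gr_zero _) ?_ ⟨A, B, hA, hAB, fun x hx => ?_⟩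
  · rw [← hgr]; exact (hW.transient _ _).ne
  · rw [← hgr]; exact hbt _ x hx

lemma not_mem_VV {m : ℕ} {y : Fin d → ℤ} (h : y ∉ VV d m) : m + 1 ≤ sz y := by
  by_contra hcon
  have h1 : sz y ≤ m := by omega
  rw [sz_le_iff] at h1
  apply h
  intro j
  have h2 := h1 j
  have h5 : ((2 ^ m : ℕ) : ℤ) = 2 ^ m := by push_cast; rfl
  constructor <;> omega

lemma VV_idx {m l : ℕ} (hl : l ≤ m) {x y : Fin d → ℤ} (h : idx l x = idx l y)
    (hx : x ∈ VV d m) : y ∈ VV d m := by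
  intro j
  have hj : x j / 2 ^ l = y j / 2 ^ l := congrFun h j
  obtain ⟨h1, h2⟩ := hx j
  have hp : (0 : ℤ) < 2 ^ l := by positivity
  have hm : (2 : ℤ) ^ m = 2 ^ (m - l) * 2 ^ l := by rw [← pow_add, Nat.sub_add_cancel hl]
  constructor
  · have h3 : -(2 ^ (m - l) : ℤ) ≤ x j / 2 ^ l := by
      rw [Int.le_ediv_iff_mul_le hp]
      rw [hm] at h1
      linarith
    rw [hj, Int.le_ediv_iff_mul_le hp] at h3
    rw [hm]
    linarith
  · have h3 : x j / 2 ^ l < (2 ^ (m - l) : ℤ) := by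
      rw [Int.ediv_lt_iff_lt_mul hp, ← hm]
      exact h2
    rw [hj, Int.ediv_lt_iff_lt_mul hp, ← hm] at h3
    exact h3

lemma SS_dyad {m l : ℕ} (hl : l ≤ m) {b x y : Fin d → ℤ} (hx : x ∈ dyad (l, b))
    (hy : y ∈ dyad (l, b)) (hxS : x ∈ SS d (m + 1)) : m + 1 ≤ sz y := by
  apply not_mem_VV
  intro hyV
  refine hxS.2 (VV_idx hl ?_ hyV)
  rw [(mem_dyad l b x).1 hx, (mem_dyad l b y).1 hy]

lemma rpow_div_DD (s : ℝ) (n : ℕ) :
    (ENNReal.ofReal (2 ^ s) / DD d) ^ n = ENNReal.ofReal (2 ^ (-((d : ℝ) - s) * n)) := by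
  unfold DD
  have h1 : (2 : ℝ≥0∞) ^ d = ENNReal.ofReal (2 ^ (d : ℝ)) := by
    rw [Real.rpow_natCast, ENNReal.ofReal_pow (by norm_num)]
    norm_num
  rw [h1, ← ENNReal.ofReal_div_of_pos (by positivity), ← ENNReal.ofReal_pow (by positivity)]
  congr 1
  rw [← Real.rpow_sub (by norm_num), ← Real.rpow_natCast, ← Real.rpow_mul (by norm_num)]
  congr 1
  ring

lemma ofReal_rpow_pow (n : ℕ) : ENNReal.ofReal (2 ^ α) ^ n = ENNReal.ofReal (2 ^ (α * n)) := by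
  rw [← ENNReal.ofReal_pow (by positivity), ← Real.rpow_natCast, ← Real.rpow_mul (by norm_num)]

lemma ofReal_lt_DD {s : ℝ} (hs : s < d) : ENNReal.ofReal (2 ^ s) < DD d := by
  unfold DD
  have h1 : (2 : ℝ≥0∞) ^ d = ENNReal.ofReal (2 ^ (d : ℝ)) := by
    rw [Real.rpow_natCast, ENNReal.ofReal_pow (by norm_num)]
    norm_num
  rw [h1]
  exact (ENNReal.ofReal_lt_ofReal_iff (by positivity)).2
    (Real.rpow_lt_rpow_of_exponent_lt (by norm_num) hs)

lemma one_lt_ofReal (hα : 0 < α) : 1 < ENNReal.ofReal (2 ^ α) := by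
  rw [← ENNReal.ofReal_one]
  exact (ENNReal.ofReal_lt_ofReal_iff (by positivity)).2 (Real.one_lt_rpow (by norm_num) hα)

/-- hitting probability of a dyadic cube -/
lemma cube_hit (hW : AddWalk P α ξ) (hα : 0 < α) (hN : 0 < N) (hdim : α * N < d) :
    ∃ K : ℝ≥0∞, K ≠ ∞ ∧ ∀ (k l : ℕ) (_ : l ≤ k) (b : Fin d → ℤ)
      (_ : ∀ y ∈ dyad (l, b), k ≤ sz y),
        P {ω | (rangeSet ξ ω ∩ dyad (l, b)).Nonempty}
          ≤ K * ENNReal.ofReal (2 ^ (-((d : ℝ) - α * N) * (k - l : ℕ))) := by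
  obtain ⟨n, rfl⟩ := Nat.exists_eq_succ_of_ne_zero hN.ne'
  have hαd : α < d := by
    refine lt_of_le_of_lt ?_ hdim
    push_cast
    nlinarith [(Nat.cast_nonneg n : (0 : ℝ) ≤ n)]
  have hd : d ≠ 0 := by
    rintro rfl
    simp at hαd
    linarith
  obtain ⟨μ, hμ, hlaw, c, C, hc, hC, hg⟩ := hW.data (Nat.succ_pos n) hd hαd
  have hpow : ENNReal.ofReal (2 ^ α) ^ (n + 1) = ENNReal.ofReal (2 ^ (α * (n + 1 : ℕ))) :=
    ofReal_rpow_pow (n + 1)
  obtain ⟨K, hK, h⟩ := cube_prob hμ (one_lt_ofReal hα) hc hC hg n (by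
    rw [hpow]; exact ofReal_lt_DD hdim)
  refine ⟨K, hK, fun k l hl b hb => ?_⟩
  obtain ⟨L0, hL0⟩ := h k l hl b hb
  rw [hit_prob_eq]
  refine iSup_le fun L => ?_
  refine (measure_mono (Ev_mono (ξ := ξ) (dyad (l, b)) (le_max_left L L0))).trans ?_
  rw [Ev_prob hW.measurable hW.indep μ hlaw (max L L0) (2 * max L L0) (by omega)]
  refine (hL0 _ (le_max_right _ _)).trans (le_of_eq ?_)
  rw [hpow, rpow_div_DD]

/-- hitting probability of `A ∩ S_k` in terms of covers -/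
lemma shell_hit (hW : AddWalk P α ξ) (hα : 0 < α) (hN : 0 < N) (hdim : α * N < d)
    {γ : ℝ} (hγ0 : 0 < γ) (hγ : γ < d - α * N) (A : Set (Fin d → ℤ)) :
    ∃ K : ℝ≥0∞, K ≠ ∞ ∧ ∀ k : ℕ,
      P {ω | (rangeSet ξ ω ∩ (A ∩ SS d (k + 1))).Nonempty} ≤ K * NN γ A (k + 1) := by
  classical
  obtain ⟨K0, hK0, h0⟩ := cube_hit hW hα hN hdim
  set K : ℝ≥0∞ := (K0 + 1) * ENNReal.ofReal (2 ^ γ) with hK
  have hKt : K ≠ ∞ := ENNReal.mul_ne_top (ENNReal.add_ne_top.2 ⟨hK0, by simp⟩)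
    ENNReal.ofReal_ne_top
  have hK00 : K ≠ 0 := by
    rw [hK]
    refine mul_ne_zero ?_ (ENNReal.ofReal_pos.2 (by positivity)).ne'
    exact (lt_of_lt_of_le zero_lt_one le_add_self).ne'
  refine ⟨K, hKt, fun k => ?_⟩
  -- single cube
  have hcube : ∀ c : ℕ × (Fin d → ℤ),
      P {ω | (rangeSet ξ ω ∩ (dyad c ∩ SS d (k + 1))).Nonempty}
        ≤ K * ENNReal.ofReal (2 ^ (γ * ((c.1 : ℝ) - (k + 1 : ℕ) - 1))) := by
    rintro ⟨l, b⟩
    have hsplit : K * ENNReal.ofReal (2 ^ (γ * ((l : ℝ) - (k + 1 : ℕ) - 1)))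
        = (K0 + 1) * ENNReal.ofReal (2 ^ (γ * ((l : ℝ) - (k + 1 : ℕ)))) := by
      rw [hK, mul_assoc, ← ENNReal.ofReal_mul (by positivity), ← Real.rpow_add (by norm_num)]
      congr 3
      ring
    rw [hsplit]
    by_cases hl : l ≤ k
    · by_cases hne : (dyad (l, b) ∩ SS d (k + 1)).Nonempty
      · obtain ⟨x, hx1, hx2⟩ := hne
        have hsz : ∀ y ∈ dyad (l, b), k + 1 ≤ sz y := fun y hy => SS_dyad hl hx1 hy hx2
        calc P {ω | (rangeSet ξ ω ∩ (dyad (l, b) ∩ SS d (k + 1))).Nonempty}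
            ≤ P {ω | (rangeSet ξ ω ∩ dyad (l, b)).Nonempty} := by
              refine measure_mono fun ω hω => ?_
              exact hω.mono (Set.inter_subset_inter_right _ Set.inter_subset_left)
          _ ≤ K0 * ENNReal.ofReal (2 ^ (-((d : ℝ) - α * N) * (k + 1 - l : ℕ))) :=
              h0 (k + 1) l (by omega) b hsz
          _ ≤ (K0 + 1) * ENNReal.ofReal (2 ^ (γ * ((l : ℝ) - (k + 1 : ℕ)))) := by
              refine mul_le_mul' le_self_add (ENNReal.ofReal_le_ofReal ?_)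
              refine Real.rpow_le_rpow_of_exponent_le (by norm_num) ?_
              rw [Nat.cast_sub (by omega)]
              have h1 : (0 : ℝ) ≤ ((k + 1 : ℕ) : ℝ) - l := by
                have : (l : ℝ) ≤ (k + 1 : ℕ) := by exact_mod_cast (by omega : l ≤ k + 1)
                linarith
              nlinarith
      · have hempty : {ω | (rangeSet ξ ω ∩ (dyad (l, b) ∩ SS d (k + 1))).Nonempty} = ∅ := by
          rw [Set.eq_empty_iff_forall_notMem]
          intro ω hω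
          exact hne (hω.mono Set.inter_subset_right)
        rw [hempty, measure_empty]
        exact bot_le
    · calc P {ω | (rangeSet ξ ω ∩ (dyad (l, b) ∩ SS d (k + 1))).Nonempty} ≤ 1 :=
          MeasureTheory.prob_le_one
        _ = 1 * 1 := (one_mul 1).symm
        _ ≤ (K0 + 1) * ENNReal.ofReal (2 ^ (γ * ((l : ℝ) - (k + 1 : ℕ)))) := by
            refine mul_le_mul' le_add_self ?_
            rw [← ENNReal.ofReal_one]
            apply ENNReal.ofReal_le_ofReal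
            apply Real.one_le_rpow (by norm_num)
            apply mul_nonneg hγ0.le
            have : ((k + 1 : ℕ) : ℝ) ≤ l := by exact_mod_cast (by omega : k + 1 ≤ l)
            linarith
  have hcov : ∀ Cv : Finset (ℕ × (Fin d → ℤ)), A ∩ SS d (k + 1) ⊆ ⋃ c ∈ Cv, dyad c →
      P {ω | (rangeSet ξ ω ∩ (A ∩ SS d (k + 1))).Nonempty}
        ≤ K * ∑ c ∈ Cv, ENNReal.ofReal (2 ^ (γ * ((c.1 : ℝ) - (k + 1 : ℕ) - 1))) := by
    intro Cv hCv
    calc P {ω | (rangeSet ξ ω ∩ (A ∩ SS d (k + 1))).Nonempty}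
        ≤ P (⋃ c ∈ Cv, {ω | (rangeSet ξ ω ∩ (dyad c ∩ SS d (k + 1))).Nonempty}) := by
          refine measure_mono fun ω hω => ?_
          obtain ⟨x, hx1, hx2⟩ := hω
          obtain ⟨c, hc, hxc⟩ := Set.mem_iUnion₂.1 (hCv hx2)
          exact Set.mem_iUnion₂.2 ⟨c, hc, x, hx1, hxc, hx2.2⟩
      _ ≤ ∑ c ∈ Cv, P {ω | (rangeSet ξ ω ∩ (dyad c ∩ SS d (k + 1))).Nonempty} :=
          measure_biUnion_finset_le _ _
      _ ≤ ∑ c ∈ Cv, K * ENNReal.ofReal (2 ^ (γ * ((c.1 : ℝ) - (k + 1 : ℕ) - 1))) :=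
          Finset.sum_le_sum fun c _ => hcube c
      _ = _ := by rw [Finset.mul_sum]
  rw [← ENNReal.div_le_iff' hK00 hKt]
  unfold NN
  refine le_iInf₂ fun Cv hCv => ?_
  rw [ENNReal.div_le_iff' hK00 hKt]
  exact hcov Cv hCv

lemma VV_finite (m : ℕ) : (VV d m).Finite := by
  refine (Set.finite_Icc (fun _ : Fin d => -(2 ^ m : ℤ)) (fun _ => (2 ^ m : ℤ))).subset ?_
  intro x hx
  rw [Set.mem_Icc]
  exact ⟨fun j => (hx j).1, fun j => (hx j).2.le⟩

lemma VV_mono {m n : ℕ} (h : m ≤ n) : VV d m ⊆ VV d n := by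
  intro x hx j
  have h1 : (2 : ℤ) ^ m ≤ 2 ^ n := pow_le_pow_right₀ (by norm_num) h
  have := hx j
  constructor <;> linarith [this.1, this.2]

lemma exists_VV (x : Fin d → ℤ) : x ∈ VV d (sz x) := by
  intro j
  have h := (sz_le_iff x (sz x)).1 le_rfl j
  have h5 : ((2 ^ sz x : ℕ) : ℤ) = 2 ^ sz x := by push_cast; rfl
  constructor <;> omega

/-- the index set in the definition of the dimension is nonempty -/
lemma Dim_set_nonempty (A : Set (Fin d → ℤ)) :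
    {γ : ℝ | 0 < γ ∧ ∑' k : ℕ, NN γ A (k + 1) < ∞}.Nonempty := by
  classical
  refine ⟨(d : ℝ) + 1, by positivity, ?_⟩
  have hk : ∀ k : ℕ, NN ((d : ℝ) + 1) A (k + 1) ≤ (2⁻¹ : ℝ≥0∞) ^ k := by
    intro k
    set V : Finset (Fin d → ℤ) :=
      Fintype.piFinset fun _ => Finset.Ico (-(2 ^ (k + 1) : ℤ)) (2 ^ (k + 1)) with hV
    have hcard : V.card = (2 ^ (k + 2)) ^ d := by
      rw [hV, Fintype.card_piFinset]
      have h1 : (Finset.Ico (-(2 ^ (k + 1) : ℤ)) (2 ^ (k + 1))).card = 2 ^ (k + 2) := by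
        rw [Int.card_Ico]
        have : (2 ^ (k + 1) : ℤ) - -(2 ^ (k + 1)) = ((2 ^ (k + 2) : ℕ) : ℤ) := by
          push_cast; ring
        rw [this]
        exact Int.toNat_natCast _
      rw [h1]
      simp
    set C : Finset (ℕ × (Fin d → ℤ)) := V.image (fun x => (0, x)) with hC
    have hcov : A ∩ SS d (k + 1) ⊆ ⋃ c ∈ C, dyad c := by
      rintro x ⟨-, hx⟩
      have hxV : x ∈ V := by
        rw [hV, Fintype.mem_piFinset]
        exact fun j => Finset.mem_Ico.2 (hx.1 j)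
      refine Set.mem_iUnion₂.2 ⟨(0, x), Finset.mem_image_of_mem _ hxV, ?_⟩
      intro j
      simp
    refine (iInf₂_le C hcov).trans ?_
    have hle : ∑ c ∈ C, ENNReal.ofReal (2 ^ (((d : ℝ) + 1) * ((c.1 : ℝ) - (k + 1 : ℕ) - 1)))
        = ∑ c ∈ C, ENNReal.ofReal (2 ^ (((d : ℝ) + 1) * (-(k + 2 : ℝ)))) := by
      refine Finset.sum_congr rfl fun c hc => ?_
      obtain ⟨x, -, rfl⟩ := Finset.mem_image.1 hc
      congr 3
      push_cast
      ring
    rw [hle, Finset.sum_const, nsmul_eq_mul]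
    have hcC : ((C.card : ℕ) : ℝ≥0∞) ≤ ENNReal.ofReal (2 ^ ((d : ℝ) * (k + 2))) := by
      have h1 : C.card ≤ (2 ^ (k + 2)) ^ d := hcard ▸ Finset.card_image_le
      calc ((C.card : ℕ) : ℝ≥0∞) ≤ (((2 ^ (k + 2)) ^ d : ℕ) : ℝ≥0∞) := by exact_mod_cast h1
        _ = ENNReal.ofReal (2 ^ ((d : ℝ) * (k + 2))) := by
            rw [← ENNReal.ofReal_natCast]
            congr 1
            push_cast
            rw [← pow_mul, ← Real.rpow_natCast]
            congr 1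
            push_cast
            ring
    calc ((C.card : ℕ) : ℝ≥0∞) * ENNReal.ofReal (2 ^ (((d : ℝ) + 1) * (-(k + 2 : ℝ))))
        ≤ ENNReal.ofReal (2 ^ ((d : ℝ) * (k + 2)))
            * ENNReal.ofReal (2 ^ (((d : ℝ) + 1) * (-(k + 2 : ℝ)))) := by gcongr
      _ = ENNReal.ofReal (2 ^ (-(k + 2 : ℝ))) := by
          rw [← ENNReal.ofReal_mul (by positivity), ← Real.rpow_add (by norm_num)]
          congr 2
          ring
      _ ≤ ENNReal.ofReal ((2⁻¹ : ℝ) ^ k) := by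
          apply ENNReal.ofReal_le_ofReal
          rw [inv_pow, ← Real.rpow_natCast, ← Real.rpow_neg (by norm_num)]
          apply Real.rpow_le_rpow_of_exponent_le (by norm_num)
          linarith
      _ = (2⁻¹ : ℝ≥0∞) ^ k := by
          rw [ENNReal.ofReal_pow (by positivity), ENNReal.ofReal_inv_of_pos (by norm_num)]
          norm_num
  refine lt_of_le_of_lt (ENNReal.tsum_le_tsum hk) ?_
  rw [ENNReal.tsum_geometric]
  rw [ENNReal.inv_lt_top]
  simp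

/-- **Q2**: a set of dimension less than `d - α N` is hit in a bounded set, almost surely -/
theorem miss (hW : AddWalk P α ξ) (hα : 0 < α) (hN : 0 < N) (hdim : α * N < d)
    (A : Set (Fin d → ℤ)) (hA : Dim A < d - α * N) :
    ∀ᵐ ω ∂P, Bornology.IsBounded (rangeSet ξ ω ∩ A) := by
  classical
  -- the index set of the infimum is nonempty
  have hex : ∃ γ, (0 < γ ∧ ∑' k : ℕ, NN γ A (k + 1) < ∞) ∧ γ < d - α * N := by
    obtain ⟨γ, hγ, h2⟩ := exists_lt_of_csInf_lt (Dim_set_nonempty A) hA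
    exact ⟨γ, hγ, h2⟩
  obtain ⟨γ, ⟨hγ0, hsum⟩, hγ⟩ := hex
  obtain ⟨K, hK, h⟩ := shell_hit hW hα hN hdim hγ0 hγ A
  have hfin : ∑' k : ℕ, P {ω | (rangeSet ξ ω ∩ (A ∩ SS d (k + 1))).Nonempty} ≠ ∞ := by
    refine ne_top_of_le_ne_top ?_ (ENNReal.tsum_le_tsum h)
    rw [ENNReal.tsum_mul_left]
    exact ENNReal.mul_ne_top hK hsum.ne
  filter_upwards [ae_eventually_notMem hfin] with ω hω
  obtain ⟨k0, hk0⟩ := Filter.eventually_atTop.1 hω
  refine ((VV_finite (d := d) k0).subset ?_).isBounded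
  rintro x ⟨hx1, hx2⟩
  by_contra hx3
  -- the first `m` with `x ∈ V_{m+1}`, `m ≥ k0`
  have hP : ∃ m, x ∈ VV d (m + 1) := ⟨sz x, VV_mono (Nat.le_succ _) (exists_VV x)⟩
  have hm1 := Nat.find_spec hP
  set m := Nat.find hP with hm
  have hm2 : x ∉ VV d m := by
    intro hxm
    rcases Nat.eq_zero_or_pos m with h0 | hpos
    · rw [h0] at hxm
      exact hx3 (VV_mono (Nat.zero_le _) hxm)
    · obtain ⟨m', hm'⟩ := Nat.exists_eq_succ_of_ne_zero hpos.ne'
      rw [hm'] at hxm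
      have := Nat.find_min' hP hxm
      omega
  have hk : k0 ≤ m := by
    by_contra hlt
    exact hx3 (VV_mono (by omega) hm1)
  exact hk0 m hk ⟨x, hx1, hx2, hm1, hm2⟩

end Pool.Agent.H380R3.ARW
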