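import Pool.Agent.H380R3.ARW.Conv

/-!
# The second moment of the occupation functional
-/

set_option autoImplicit false
set_option linter.unusedSectionVars false

open scoped ENNReal
open Finset

namespace Pool.Agent.H380R3.ARW

variable {d : ℕ}

lemma iter_upper {g : (Fin d → ℤ) → ℝ≥0∞} {a C1 : ℝ≥0∞} (ha : 1 < a) (hC1 : C1 ≠ ∞)
    (hg : ∀ x, g x ≤ C1 * kap a x) (n : ℕ) (hn : a ^ (n + 1) < DD d) :
    ∃ C : ℝ≥0∞, C ≠ ∞ ∧ ∀ f x, (op g)^[n + 1] f x ≤ C * op (kap (a ^ (n + 1))) f x := by
  induction n with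
  | zero =>
    refine ⟨C1, hC1, fun f x => ?_⟩
    rw [Function.iterate_one, zero_add, pow_one, ← op_mul_left']
    exact op_mono_left f hg x
  | succ n ih =>
    have hn' : a ^ (n + 1) < DD d :=
      lt_of_le_of_lt (pow_le_pow_right' ha.le (Nat.le_succ _)) hn
    obtain ⟨C, hC, h⟩ := ih hn'
    have h1 : 1 < a ^ (n + 1) := one_lt_pow' ha (Nat.succ_ne_zero n)
    have h2 : a * a ^ (n + 1) < DD d := by rw [← pow_succ']; exact hn
    obtain ⟨C2, hC2, h3⟩ := conv_upper (d := d) ha h1 h2
    refine ⟨C * (C1 * C2), ENNReal.mul_ne_top hC (ENNReal.mul_ne_top hC1 hC2), fun f x => ?_⟩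
    rw [Function.iterate_succ_apply']
    calc op g ((op g)^[n + 1] f) x ≤ op g (fun y => C * op (kap (a ^ (n + 1))) f y) x :=
          op_mono g (h f) x
      _ = C * op g (op (kap (a ^ (n + 1))) f) x := op_mul_left _ _ _ _
      _ ≤ C * op (fun y => C1 * kap a y) (op (kap (a ^ (n + 1))) f) x := by
          gcongr
          exact op_mono_left _ hg x
      _ = C * (C1 * op (conv (kap a) (kap (a ^ (n + 1)))) f x) := by
          rw [op_mul_left', op_op]
      _ ≤ C * (C1 * op (fun y => C2 * kap (a * a ^ (n + 1)) y) f x) := by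
          gcongr
          exact op_mono_left _ h3 x
      _ = _ := by
          rw [op_mul_left', ← pow_succ']
          ring

lemma iter_lower {g : (Fin d → ℤ) → ℝ≥0∞} {a c1 : ℝ≥0∞} (ha : 1 < a) (hc1 : c1 ≠ 0)
    (hg : ∀ x, c1 * kap a x ≤ g x) (n : ℕ) (hn : a ^ (n + 1) < DD d) :
    ∃ c : ℝ≥0∞, c ≠ 0 ∧ ∀ f x, c * op (kap (a ^ (n + 1))) f x ≤ (op g)^[n + 1] f x := by
  have ha0 : a ≠ 0 := (lt_trans zero_lt_one ha).ne'
  induction n with
  | zero =>
    refine ⟨c1, hc1, fun f x => ?_⟩
    rw [Function.iterate_one, zero_add, pow_one, ← op_mul_left']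
    exact op_mono_left f hg x
  | succ n ih =>
    have hn' : a ^ (n + 1) < DD d :=
      lt_of_le_of_lt (pow_le_pow_right' ha.le (Nat.le_succ _)) hn
    obtain ⟨c, hc, h⟩ := ih hn'
    have haD : a < DD d := lt_of_le_of_lt (by
      calc a = a ^ 1 := (pow_one a).symm
        _ ≤ a ^ (n + 1 + 1) := pow_le_pow_right' ha.le (by omega)) hn
    have h3 := conv_lower (d := d) haD hn'
    set c2 := a ^ (n + 1) / DD d with hc2
    have hc20 : c2 ≠ 0 := (ENNReal.div_pos (pow_ne_zero _ ha0) DD_ne_top).ne'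
    refine ⟨c * (c1 * c2), mul_ne_zero hc (mul_ne_zero hc1 hc20), fun f x => ?_⟩
    rw [Function.iterate_succ_apply']
    calc c * (c1 * c2) * op (kap (a ^ (n + 1 + 1))) f x
        = c * (c1 * op (fun y => c2 * kap (a * a ^ (n + 1)) y) f x) := by
          rw [op_mul_left', ← pow_succ']
          ring
      _ ≤ c * (c1 * op (conv (kap a) (kap (a ^ (n + 1)))) f x) := by
          gcongr
          exact op_mono_left _ h3 x
      _ = c * op (fun y => c1 * kap a y) (op (kap (a ^ (n + 1))) f) x := by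
          rw [op_mul_left', op_op]
      _ ≤ c * op g (op (kap (a ^ (n + 1))) f) x := by
          gcongr
          exact op_mono_left _ hg x
      _ = op g (fun y => c * op (kap (a ^ (n + 1))) f y) x := (op_mul_left _ _ _ _).symm
      _ ≤ _ := op_mono g (h f) x

lemma op_eq_sub (k f : (Fin d → ℤ) → ℝ≥0∞) (x v : Fin d → ℤ) :
    op k f (x + v) = ∑' z, k (z - v) * f (x + z) := by
  unfold op
  rw [← (Equiv.addLeft v).tsum_eq (fun z => k (z - v) * f (x + z))]
  refine tsum_congr fun z => ?_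
  simp only [Equiv.coe_addLeft, add_sub_cancel_left]
  rw [add_assoc]

/-- the quantity controlling the second moment -/
noncomputable def Th (k f : (Fin d → ℤ) → ℝ≥0∞) (x : Fin d → ℤ) : ℝ≥0∞ :=
  op k (fun v => f v * op k f v) x + (op k f x) ^ 2

lemma mixed_bound {a b : ℝ≥0∞} (ha : 1 < a) (hb : 1 < b) (hab : a * b < DD d) :
    ∃ C : ℝ≥0∞, C ≠ ∞ ∧ ∀ (f : (Fin d → ℤ) → ℝ≥0∞) (x : Fin d → ℤ),
      op (kap (a * b)) (fun v => op (kap a) f v * op (kap b) f v) x
        ≤ C * Th (kap (a * b)) f x := by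
  obtain ⟨C, hC, h⟩ := triple (d := d) ha hb hab
  refine ⟨2 * C, ENNReal.mul_ne_top (by simp) hC, fun f x => ?_⟩
  set K : (Fin d → ℤ) → ℝ≥0∞ := kap (a * b) with hK
  have e1 : op K (fun v => op (kap a) f v * op (kap b) f v) x
      = ∑' z, ∑' z', f (x + z) * f (x + z') * ∑' v, K v * (kap a (z - v) * kap b (z' - v)) := by
    have h0 : op K (fun v => op (kap a) f v * op (kap b) f v) x
        = ∑' v, ∑' z, ∑' z', f (x + z) * f (x + z') * (K v * (kap a (z - v) * kap b (z' - v))) := by
      show ∑' v, K v * (op (kap a) f (x + v) * op (kap b) f (x + v)) = _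
      refine tsum_congr fun v => ?_
      rw [op_eq_sub (kap a) f x v, op_eq_sub (kap b) f x v, ← ENNReal.tsum_mul_right,
        ← ENNReal.tsum_mul_left]
      refine tsum_congr fun z => ?_
      rw [← ENNReal.tsum_mul_left, ← ENNReal.tsum_mul_left]
      refine tsum_congr fun z' => ?_
      ring
    rw [h0, ENNReal.tsum_comm]
    refine tsum_congr fun z => ?_
    rw [ENNReal.tsum_comm]
    refine tsum_congr fun z' => ?_
    rw [ENNReal.tsum_mul_left]
  have e2 : op K (fun v => f v * op K f v) x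
      = ∑' z, ∑' z', f (x + z) * f (x + z') * (K z * K (z' - z)) := by
    show ∑' z, K z * (f (x + z) * op K f (x + z)) = _
    refine tsum_congr fun z => ?_
    rw [op_eq_sub, ← ENNReal.tsum_mul_left, ← ENNReal.tsum_mul_left]
    exact tsum_congr fun z' => by ring
  have e3 : (op K f x) ^ 2 = ∑' z, ∑' z', f (x + z) * f (x + z') * (K z * K z') := by
    rw [sq]
    show (∑' z, K z * f (x + z)) * (∑' z, K z * f (x + z)) = _
    rw [← ENNReal.tsum_mul_right]
    refine tsum_congr fun z => ?_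
    rw [← ENNReal.tsum_mul_left]
    exact tsum_congr fun z' => by ring
  have e4 : ∑' z, ∑' z', f (x + z) * f (x + z') * (K z' * K (z' - z))
      = ∑' z, ∑' z', f (x + z) * f (x + z') * (K z * K (z' - z)) := by
    rw [ENNReal.tsum_comm]
    refine tsum_congr fun z => tsum_congr fun z' => ?_
    have : K (z - z') = K (z' - z) := by rw [hK, ← kap_neg _ (z - z'), neg_sub]
    rw [this]
    ring
  rw [e1]
  calc ∑' z, ∑' z', f (x + z) * f (x + z') * ∑' v, K v * (kap a (z - v) * kap b (z' - v))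
      ≤ ∑' z, ∑' z', (C * (f (x + z) * f (x + z') * (K z * K (z' - z)))
          + C * (f (x + z) * f (x + z') * (K z' * K (z' - z)))
          + C * (f (x + z) * f (x + z') * (K z * K z'))) := by
        refine ENNReal.tsum_le_tsum fun z => ENNReal.tsum_le_tsum fun z' => ?_
        refine (mul_le_mul' le_rfl (h z z')).trans (le_of_eq ?_)
        ring
    _ = C * op K (fun v => f v * op K f v) x + C * op K (fun v => f v * op K f v) x
          + C * (op K f x) ^ 2 := by
        simp only [ENNReal.tsum_add, ENNReal.tsum_mul_left]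
        rw [e4, ← e2, ← e3]
    _ ≤ 2 * C * Th K f x := by
        unfold Th
        calc _ = 2 * C * op K (fun v => f v * op K f v) x + C * (op K f x) ^ 2 := by ring
          _ ≤ 2 * C * op K (fun v => f v * op K f v) x + 2 * C * (op K f x) ^ 2 := by
            gcongr
            calc C = 1 * C := (one_mul C).symm
              _ ≤ 2 * C := by gcongr; norm_num
          _ = _ := by ring

/-- **second moment of the occupation functional** -/
lemma second_moment_final {μ : (Fin d → ℤ) → ℝ≥0∞} (hμ : ∑' e, μ e = 1) {a C1 : ℝ≥0∞}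
    (ha : 1 < a) (hC1 : C1 ≠ ∞) (hg : ∀ x, gr μ x ≤ C1 * kap a x) (N : ℕ)
    (hN : a ^ (N + 1) < DD d) :
    ∃ C : ℝ≥0∞, C ≠ ∞ ∧ ∀ (f : (Fin d → ℤ) → ℝ≥0∞) (x : Fin d → ℤ) (T : ℕ),
      ExL μ T (N + 1) (fun w => (occL f x w) ^ 2) ≤ C * Th (kap (a ^ (N + 1))) f x := by
  classical
  obtain ⟨C0, hC0, h0⟩ := iter_upper ha hC1 hg N hN
  have hlt : ∀ k, k ≤ N + 1 → a ^ k < DD d := fun k hk =>
    lt_of_le_of_lt (pow_le_pow_right' ha.le hk) hN
  set K : (Fin d → ℤ) → ℝ≥0∞ := kap (a ^ (N + 1)) with hK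
  -- each term
  have term : ∀ ij ∈ antidiagonal (N + 1), ∃ C : ℝ≥0∞, C ≠ ∞ ∧
      ∀ (f : (Fin d → ℤ) → ℝ≥0∞) (x : Fin d → ℤ),
        (op (gr μ))^[N + 1] (fun v => (op (gr μ))^[ij.1] f v * (op (gr μ))^[ij.2] f v) x
          ≤ C * Th K f x := by
    rintro ⟨i, j⟩ hij
    have hij' : i + j = N + 1 := HasAntidiagonal.mem_antidiagonal.1 hij
    have zero_case : ∀ (f : (Fin d → ℤ) → ℝ≥0∞) (x : Fin d → ℤ),
        (op (gr μ))^[N + 1] (fun v => f v * (op (gr μ))^[N + 1] f v) x
          ≤ (C0 * C0) * Th K f x := by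
      intro f x
      calc (op (gr μ))^[N + 1] (fun v => f v * (op (gr μ))^[N + 1] f v) x
          ≤ (op (gr μ))^[N + 1] (fun v => C0 * (f v * op K f v)) x := by
            refine iter_mono _ _ (fun v => ?_) x
            refine (mul_le_mul' le_rfl (h0 f v)).trans (le_of_eq ?_)
            ring
        _ = C0 * (op (gr μ))^[N + 1] (fun v => f v * op K f v) x := iter_mul_left _ _ _ _ _
        _ ≤ C0 * (C0 * op K (fun v => f v * op K f v) x) := by
            gcongr
            exact h0 _ x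
        _ ≤ (C0 * C0) * Th K f x := by
            rw [← mul_assoc]
            gcongr
            exact le_self_add
    match i, j, hij' with
    | 0, j, hij' =>
      obtain rfl : j = N + 1 := by omega
      exact ⟨C0 * C0, ENNReal.mul_ne_top hC0 hC0, zero_case⟩
    | i + 1, 0, hij' =>
      obtain rfl : i = N := by omega
      refine ⟨C0 * C0, ENNReal.mul_ne_top hC0 hC0, fun f x => ?_⟩
      refine le_trans (le_of_eq ?_) (zero_case f x)
      refine congrArg (fun g => (op (gr μ))^[i + 1] g x) (funext fun v => ?_)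
      exact mul_comm _ _
    | i + 1, j + 1, hij' =>
      obtain ⟨Ci, hCi, hi⟩ := iter_upper ha hC1 hg i (hlt _ (by omega))
      obtain ⟨Cj, hCj, hj⟩ := iter_upper ha hC1 hg j (hlt _ (by omega))
      have hmul : a ^ (i + 1) * a ^ (j + 1) = a ^ (N + 1) := by
        rw [← pow_add, hij']
      obtain ⟨Cm, hCm, hm⟩ := mixed_bound (d := d) (a := a ^ (i + 1)) (b := a ^ (j + 1))
        (one_lt_pow' ha (Nat.succ_ne_zero i)) (one_lt_pow' ha (Nat.succ_ne_zero j))
        (by rw [hmul]; exact hN)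
      rw [hmul] at hm
      refine ⟨C0 * (Ci * Cj) * Cm, ENNReal.mul_ne_top (ENNReal.mul_ne_top hC0
        (ENNReal.mul_ne_top hCi hCj)) hCm, fun f x => ?_⟩
      calc (op (gr μ))^[N + 1]
            (fun v => (op (gr μ))^[i + 1] f v * (op (gr μ))^[j + 1] f v) x
          ≤ (op (gr μ))^[N + 1] (fun v => (Ci * Cj)
              * (op (kap (a ^ (i + 1))) f v * op (kap (a ^ (j + 1))) f v)) x := by
            refine iter_mono _ _ (fun v => ?_) x
            refine (mul_le_mul' (hi f v) (hj f v)).trans (le_of_eq ?_)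
            ring
        _ = (Ci * Cj) * (op (gr μ))^[N + 1]
              (fun v => op (kap (a ^ (i + 1))) f v * op (kap (a ^ (j + 1))) f v) x :=
            iter_mul_left _ _ _ _ _
        _ ≤ (Ci * Cj) * (C0 * op K
              (fun v => op (kap (a ^ (i + 1))) f v * op (kap (a ^ (j + 1))) f v) x) := by
            gcongr
            exact h0 _ x
        _ ≤ (Ci * Cj) * (C0 * (Cm * Th K f x)) := by
            gcongr
            exact hm f x
        _ = _ := by ring
  choose! Ct hCt ht using term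
  refine ⟨∑ ij ∈ antidiagonal (N + 1), ((N + 1).choose ij.1 : ℝ≥0∞) * Ct ij, ?_, fun f x T => ?_⟩
  · refine (ENNReal.sum_lt_top.2 fun ij hij => ?_).ne
    exact lt_top_iff_ne_top.2 (ENNReal.mul_ne_top (ENNReal.natCast_ne_top _) (hCt ij hij))
  · have h1 := second_moment hμ isGreen_gr T (N + 1) f f x
    simp only [sq]
    refine h1.trans ?_
    rw [Finset.sum_mul]
    refine Finset.sum_le_sum fun ij hij => ?_
    rw [mul_assoc]
    gcongr
    exact ht ij hij f x

end Pool.Agent.H380R3.ARW
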