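import Pool.Agent.H380R3.ARW.Op

/-!
# Several independent walks: second moment bound and Cairoli's maximal inequality
-/

set_option autoImplicit false
set_option linter.unusedSectionVars false

open scoped ENNReal
open Finset

namespace Pool.Agent.H380R3.ARW

variable {E : Type*} [AddCommGroup E]

/-- expectation over `N` lists of length `T` -/
noncomputable def ExL (μ : E → ℝ≥0∞) (T : ℕ) : ℕ → (List (List E) → ℝ≥0∞) → ℝ≥0∞
  | 0, H => H []
  | N + 1, H => Ex μ T (fun l => ExL μ T N (fun w => H (l :: w)))

/-- all lists in `w` have length `T` -/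
def AllLen (T : ℕ) (w : List (List E)) : Prop := ∀ l ∈ w, l.length = T

variable (μ : E → ℝ≥0∞)

lemma ExL_mono (T N : ℕ) {H H' : List (List E) → ℝ≥0∞}
    (h : ∀ w, w.length = N → AllLen T w → H w ≤ H' w) : ExL μ T N H ≤ ExL μ T N H' := by
  induction N generalizing H H' with
  | zero => exact h [] rfl (by intro l hl; simp at hl)
  | succ N ih =>
    refine Ex_mono μ T fun l hl => ih fun w hw hw' => h (l :: w) (by simp [hw]) ?_
    intro l' hl'
    rcases List.mem_cons.1 hl' with rfl | h2
    · exact hl
    · exact hw' _ h2

lemma ExL_congr (T N : ℕ) {H H' : List (List E) → ℝ≥0∞}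
    (h : ∀ w, w.length = N → AllLen T w → H w = H' w) : ExL μ T N H = ExL μ T N H' :=
  le_antisymm (ExL_mono μ T N fun w h1 h2 => (h w h1 h2).le)
    (ExL_mono μ T N fun w h1 h2 => (h w h1 h2).ge)

lemma ExL_add (T N : ℕ) (H H' : List (List E) → ℝ≥0∞) :
    ExL μ T N (fun w => H w + H' w) = ExL μ T N H + ExL μ T N H' := by
  induction N generalizing H H' with
  | zero => rfl
  | succ N ih =>
    simp only [ExL]
    rw [← Ex_add]
    exact Ex_congr μ T fun l _ => ih _ _

lemma ExL_mul_left (T N : ℕ) (c : ℝ≥0∞) (H : List (List E) → ℝ≥0∞) :
    ExL μ T N (fun w => c * H w) = c * ExL μ T N H := by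
  induction N generalizing H with
  | zero => rfl
  | succ N ih =>
    simp only [ExL]
    rw [← Ex_mul_left]
    exact Ex_congr μ T fun l _ => ih _

lemma ExL_tsum {ι : Type*} (T N : ℕ) (H : ι → List (List E) → ℝ≥0∞) :
    ExL μ T N (fun w => ∑' i, H i w) = ∑' i, ExL μ T N (H i) := by
  induction N generalizing H with
  | zero => rfl
  | succ N ih =>
    simp only [ExL]
    rw [← Ex_tsum]
    exact Ex_congr μ T fun l _ => ih _

/-- Tonelli -/
lemma Ex_ExL_comm (S T N : ℕ) (F : List E → List (List E) → ℝ≥0∞) :
    Ex μ S (fun l => ExL μ T N (F l)) = ExL μ T N (fun w => Ex μ S (fun l => F l w)) := by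
  induction S generalizing F with
  | zero => rfl
  | succ S ih =>
    simp only [Ex]
    rw [ExL_tsum]
    refine tsum_congr fun e => ?_
    rw [ExL_mul_left, ih]

/-- sum of `f` over all positions of the additive walk -/
noncomputable def occL : (E → ℝ≥0∞) → E → List (List E) → ℝ≥0∞
  | f, x, [] => f x
  | f, x, l :: w => occL (fun y => occ f y l) x w

variable {μ} (hμ : ∑' e, μ e = 1)
include hμ

lemma ExL_const (T N : ℕ) (c : ℝ≥0∞) : ExL μ T N (fun _ => c) = c := by
  induction N with
  | zero => rfl
  | succ N ih =>
    simp only [ExL]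
    rw [ih, Ex_const hμ]

lemma ExL_occL (T N : ℕ) (f : E → ℝ≥0∞) (x : E) :
    ExL μ T N (occL f x) = (UT μ T)^[N] f x := by
  induction N generalizing f with
  | zero => rfl
  | succ N ih =>
    simp only [ExL, occL]
    have h1 : Ex μ T (fun l => ExL μ T N (occL (fun y => occ f y l) x))
        = Ex μ T (fun l => (UT μ T)^[N] (fun y => occ f y l) x) :=
      Ex_congr μ T fun l _ => ih _
    have h2 : ∀ n (F : List E → E → ℝ≥0∞) (x : E),
        Ex μ T (fun l => (UT μ T)^[n] (F l) x) = (UT μ T)^[n] (fun y => Ex μ T (fun l => F l y)) x := by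
      have h3 : ∀ S (F : List E → E → ℝ≥0∞) (x : E),
          Ex μ T (fun l => UT μ S (F l) x) = UT μ S (fun y => Ex μ T (fun l => F l y)) x := by
        intro S
        induction S with
        | zero => intro F x; rfl
        | succ S ihS =>
          intro F x
          simp only [UT, op]
          rw [Ex_add, Ex_tsum]
          congr 1
          refine tsum_congr fun y => ?_
          rw [Ex_mul_left, ihS]
      intro n
      induction n with
      | zero => intro F x; rfl
      | succ n ihn =>
        intro F x
        simp only [Function.iterate_succ_apply']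
        rw [h3]
        exact congrArg (fun g => UT μ T g x) (funext fun y => ihn F y)
    rw [h1, h2, Function.iterate_succ_apply]
    exact congrArg (fun g => (UT μ T)^[N] g x) (funext fun y => Ex_occ hμ T f y)

/-- the second moment bound for `N` walks -/
lemma second_moment {g : E → ℝ≥0∞} (hg : IsGreen μ g) (T N : ℕ) (a b : E → ℝ≥0∞) (x : E) :
    ExL μ T N (fun w => occL a x w * occL b x w)
      ≤ ∑ ij ∈ antidiagonal N, (N.choose ij.1 : ℝ≥0∞)
          * (op g)^[N] (fun v => (op g)^[ij.1] a v * (op g)^[ij.2] b v) x := by
  induction N generalizing a b with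
  | zero => simp [ExL, occL]
  | succ N ih =>
    rw [Finset.sum_antidiagonal_choose_succ_mul
      (fun i j => (op g)^[N + 1] (fun v => (op g)^[i] a v * (op g)^[j] b v) x) N]
    simp only [ExL, occL]
    calc Ex μ T (fun l => ExL μ T N
            (fun w => occL (fun y => occ a y l) x w * occL (fun y => occ b y l) x w))
        ≤ Ex μ T (fun l => ∑ ij ∈ antidiagonal N, (N.choose ij.1 : ℝ≥0∞)
            * (op g)^[N] (fun v => occ ((op g)^[ij.1] a) v l * occ ((op g)^[ij.2] b) v l) x) := by
          refine Ex_mono μ T fun l _ => (ih _ _).trans (le_of_eq ?_)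
          refine Finset.sum_congr rfl fun ij _ => ?_
          congr 1
          refine congrArg (fun h => (op g)^[N] h x) (funext fun v => ?_)
          rw [iter_occ, iter_occ]
      _ = ∑ ij ∈ antidiagonal N, (N.choose ij.1 : ℝ≥0∞)
            * (op g)^[N] (fun v => Ex μ T
                (fun l => occ ((op g)^[ij.1] a) v l * occ ((op g)^[ij.2] b) v l)) x := by
          rw [Ex_sum]
          refine Finset.sum_congr rfl fun ij _ => ?_
          rw [Ex_mul_left]
          congr 1
          have h2 : ∀ n (F : List E → E → ℝ≥0∞) (x : E),
              Ex μ T (fun l => (op g)^[n] (F l) x)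
                = (op g)^[n] (fun y => Ex μ T (fun l => F l y)) x := by
            intro n
            induction n with
            | zero => intro F x; rfl
            | succ n ihn =>
              intro F x
              simp only [Function.iterate_succ_apply']
              unfold op
              rw [Ex_tsum]
              refine tsum_congr fun y => ?_
              rw [Ex_mul_left]
              congr 1
              exact ihn F (x + y)
          exact h2 N (fun l v => occ ((op g)^[ij.1] a) v l * occ ((op g)^[ij.2] b) v l) x
      _ ≤ ∑ ij ∈ antidiagonal N, (N.choose ij.1 : ℝ≥0∞)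
            * (op g)^[N] (op g (fun v => (op g)^[ij.1] a v * (op g)^[ij.2 + 1] b v
                + (op g)^[ij.1 + 1] a v * (op g)^[ij.2] b v)) x := by
          refine Finset.sum_le_sum fun ij _ => ?_
          gcongr
          refine iter_mono g N (fun v => ?_) x
          refine (second_moment_one hμ hg T _ _ v).trans (le_of_eq ?_)
          simp only [Function.iterate_succ_apply']
      _ = _ := by
          rw [← Finset.sum_add_distrib]
          refine Finset.sum_congr rfl fun ij hij => ?_
          have hc : N.choose ij.2 = N.choose ij.1 := by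
            have := HasAntidiagonal.mem_antidiagonal.1 hij
            exact (Nat.choose_symm_of_eq_add this.symm).symm
          rw [hc, ← mul_add, ← iter_add]
          rfl

end Pool.Agent.H380R3.ARW
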