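import Mathlib

/-!
# Convolution operators and expectations over finite lists of increments
-/

set_option autoImplicit false
set_option linter.unusedSectionVars false

open scoped ENNReal
open Finset

namespace Pool.Agent.H380R3.ARW

variable {E : Type*} [AddCommGroup E]

/-- `op k f x = ∑ k y * f (x + y)`. -/
noncomputable def op (k f : E → ℝ≥0∞) (x : E) : ℝ≥0∞ := ∑' y, k y * f (x + y)

lemma op_mono (k : E → ℝ≥0∞) {f f' : E → ℝ≥0∞} (h : ∀ x, f x ≤ f' x) (x : E) :
    op k f x ≤ op k f' x :=
  ENNReal.tsum_le_tsum fun y => by gcongr; exact h _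

lemma op_mono_left {k k' : E → ℝ≥0∞} (f : E → ℝ≥0∞) (h : ∀ x, k x ≤ k' x) (x : E) :
    op k f x ≤ op k' f x :=
  ENNReal.tsum_le_tsum fun y => by gcongr; exact h _

lemma op_add (k f f' : E → ℝ≥0∞) (x : E) :
    op k (fun x => f x + f' x) x = op k f x + op k f' x := by
  unfold op
  rw [← ENNReal.tsum_add]
  exact tsum_congr fun y => by ring

lemma op_mul_left (k f : E → ℝ≥0∞) (c : ℝ≥0∞) (x : E) :
    op k (fun x => c * f x) x = c * op k f x := by
  unfold op
  rw [← ENNReal.tsum_mul_left]
  exact tsum_congr fun y => by ring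

lemma op_mul_left' (k f : E → ℝ≥0∞) (c : ℝ≥0∞) (x : E) :
    op (fun y => c * k y) f x = c * op k f x := by
  unfold op
  rw [← ENNReal.tsum_mul_left]
  exact tsum_congr fun y => by ring

lemma op_tsum {ι : Type*} (k : E → ℝ≥0∞) (f : ι → E → ℝ≥0∞) (x : E) :
    op k (fun x => ∑' i, f i x) x = ∑' i, op k (f i) x := by
  unfold op
  rw [ENNReal.tsum_comm]
  exact tsum_congr fun y => by rw [ENNReal.tsum_mul_left]

lemma op_sum {ι : Type*} (s : Finset ι) (k : E → ℝ≥0∞) (f : ι → E → ℝ≥0∞) (x : E) :
    op k (fun x => ∑ i ∈ s, f i x) x = ∑ i ∈ s, op k (f i) x := by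
  classical
  induction s using Finset.induction_on with
  | empty => simp [op]
  | insert a s ha ih =>
    simp only [Finset.sum_insert ha]
    rw [op_add, ih]

lemma op_shift (k f : E → ℝ≥0∞) (a x : E) :
    op k (fun x => f (x + a)) x = op k f (x + a) := by
  unfold op
  exact tsum_congr fun y => by rw [add_right_comm]

lemma op_comm (k l f : E → ℝ≥0∞) (x : E) : op k (op l f) x = op l (op k f) x := by
  unfold op
  simp only [← ENNReal.tsum_mul_left]
  rw [ENNReal.tsum_comm]
  refine tsum_congr fun y => tsum_congr fun z => ?_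
  rw [add_right_comm]
  ring

/-- iterated operators -/
lemma iter_mono (k : E → ℝ≥0∞) (n : ℕ) {f f' : E → ℝ≥0∞} (h : ∀ x, f x ≤ f' x) (x : E) :
    (op k)^[n] f x ≤ (op k)^[n] f' x := by
  induction n generalizing x with
  | zero => exact h x
  | succ n ih =>
    rw [Function.iterate_succ_apply', Function.iterate_succ_apply']
    exact op_mono k ih x

lemma iter_sum {ι : Type*} (s : Finset ι) (k : E → ℝ≥0∞) (n : ℕ) (f : ι → E → ℝ≥0∞) (x : E) :
    (op k)^[n] (fun x => ∑ i ∈ s, f i x) x = ∑ i ∈ s, (op k)^[n] (f i) x := by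
  induction n generalizing x with
  | zero => rfl
  | succ n ih =>
    simp only [Function.iterate_succ_apply']
    rw [← op_sum]
    exact congrArg (fun g => op k g x) (funext ih)

lemma iter_mul_left (k : E → ℝ≥0∞) (n : ℕ) (f : E → ℝ≥0∞) (c : ℝ≥0∞) (x : E) :
    (op k)^[n] (fun x => c * f x) x = c * (op k)^[n] f x := by
  induction n generalizing x with
  | zero => rfl
  | succ n ih =>
    simp only [Function.iterate_succ_apply']
    rw [← op_mul_left]
    exact congrArg (fun g => op k g x) (funext ih)

lemma iter_add (k : E → ℝ≥0∞) (n : ℕ) (f f' : E → ℝ≥0∞) (x : E) :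
    (op k)^[n] (fun x => f x + f' x) x = (op k)^[n] f x + (op k)^[n] f' x := by
  induction n generalizing x with
  | zero => rfl
  | succ n ih =>
    simp only [Function.iterate_succ_apply']
    rw [← op_add]
    exact congrArg (fun g => op k g x) (funext ih)

/-! ### expectation over lists of `T` increments with weights `μ` -/

/-- the sum over all lists of length `T`, each entry weighted by `μ` -/
noncomputable def Ex (μ : E → ℝ≥0∞) : ℕ → (List E → ℝ≥0∞) → ℝ≥0∞
  | 0, H => H []
  | T + 1, H => ∑' e, μ e * Ex μ T (fun l => H (e :: l))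

variable (μ : E → ℝ≥0∞)

lemma Ex_congr (T : ℕ) {H H' : List E → ℝ≥0∞} (h : ∀ l, l.length = T → H l = H' l) :
    Ex μ T H = Ex μ T H' := by
  induction T generalizing H H' with
  | zero => exact h [] rfl
  | succ T ih =>
    refine tsum_congr fun e => ?_
    rw [ih fun l hl => h (e :: l) (by simp [hl])]

lemma Ex_mono (T : ℕ) {H H' : List E → ℝ≥0∞} (h : ∀ l, l.length = T → H l ≤ H' l) :
    Ex μ T H ≤ Ex μ T H' := by
  induction T generalizing H H' with
  | zero => exact h [] rfl
  | succ T ih =>
    refine ENNReal.tsum_le_tsum fun e => ?_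
    gcongr
    exact ih fun l hl => h (e :: l) (by simp [hl])

lemma Ex_add (T : ℕ) (H H' : List E → ℝ≥0∞) :
    Ex μ T (fun l => H l + H' l) = Ex μ T H + Ex μ T H' := by
  induction T generalizing H H' with
  | zero => rfl
  | succ T ih =>
    simp only [Ex]
    rw [← ENNReal.tsum_add]
    exact tsum_congr fun e => by rw [ih, mul_add]

lemma Ex_mul_left (T : ℕ) (c : ℝ≥0∞) (H : List E → ℝ≥0∞) :
    Ex μ T (fun l => c * H l) = c * Ex μ T H := by
  induction T generalizing H with
  | zero => rfl
  | succ T ih =>
    simp only [Ex]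
    rw [← ENNReal.tsum_mul_left]
    exact tsum_congr fun e => by rw [ih]; ring

lemma Ex_tsum {ι : Type*} (T : ℕ) (H : ι → List E → ℝ≥0∞) :
    Ex μ T (fun l => ∑' i, H i l) = ∑' i, Ex μ T (H i) := by
  induction T generalizing H with
  | zero => rfl
  | succ T ih =>
    simp only [Ex]
    rw [ENNReal.tsum_comm]
    exact tsum_congr fun e => by rw [ih, ENNReal.tsum_mul_left]

lemma Ex_sum {ι : Type*} (s : Finset ι) (T : ℕ) (H : ι → List E → ℝ≥0∞) :
    Ex μ T (fun l => ∑ i ∈ s, H i l) = ∑ i ∈ s, Ex μ T (H i) := by
  classical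
  induction s using Finset.induction_on with
  | empty =>
    simp only [Finset.sum_empty]
    have := Ex_mul_left μ T 0 (fun _ => 0)
    simpa using this
  | insert a s ha ih =>
    simp only [Finset.sum_insert ha]
    rw [Ex_add, ih]

variable {μ} (hμ : ∑' e, μ e = 1)
include hμ

lemma Ex_const (T : ℕ) (c : ℝ≥0∞) : Ex μ T (fun _ => c) = c := by
  induction T with
  | zero => rfl
  | succ T ih =>
    simp only [Ex]
    rw [ih, ENNReal.tsum_mul_right, hμ, one_mul]

omit hμ in
lemma Ex_append (S T : ℕ) (H : List E → ℝ≥0∞) :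
    Ex μ (S + T) H = Ex μ S (fun l => Ex μ T (fun l' => H (l ++ l'))) := by
  induction S generalizing H with
  | zero => simp [Ex]
  | succ S ih =>
    rw [Nat.succ_add]
    simp only [Ex]
    refine tsum_congr fun e => ?_
    rw [ih]
    rfl

/-! ### occupation functionals -/

omit hμ in
/-- sum of `f` over the positions visited when starting from `x` -/
noncomputable def occ (f : E → ℝ≥0∞) : E → List E → ℝ≥0∞
  | x, [] => f x
  | x, e :: l => f x + occ f (x + e) l

/-- expected occupation up to time `T` -/
noncomputable def UT (μ : E → ℝ≥0∞) : ℕ → (E → ℝ≥0∞) → E → ℝ≥0∞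
  | 0, f => f
  | T + 1, f => fun x => f x + op μ (UT μ T f) x

lemma Ex_occ (T : ℕ) (f : E → ℝ≥0∞) (x : E) : Ex μ T (occ f x) = UT μ T f x := by
  induction T generalizing x with
  | zero => rfl
  | succ T ih =>
    simp only [Ex, UT, occ]
    have : ∀ e, μ e * Ex μ T (fun l => f x + occ f (x + e) l)
        = μ e * f x + μ e * UT μ T f (x + e) := by
      intro e
      rw [Ex_add, Ex_const hμ, ← ih, mul_add]
    simp only [this]
    rw [ENNReal.tsum_add, ENNReal.tsum_mul_right, hμ, one_mul]
    rfl

omit hμ in
lemma le_occ_append (f : E → ℝ≥0∞) (x : E) (a l : List E) :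
    occ f (x + a.sum) l ≤ occ f x (a ++ l) := by
  induction a generalizing x with
  | nil => simp
  | cons e a ih =>
    simp only [List.sum_cons, List.cons_append, occ]
    refine le_trans ?_ le_add_self
    have := ih (x + e)
    rwa [add_assoc] at this

omit hμ in
lemma op_occ (k f : E → ℝ≥0∞) (x : E) (l : List E) :
    op k (fun y => occ f y l) x = occ (op k f) x l := by
  induction l generalizing x with
  | nil => rfl
  | cons e l ih =>
    simp only [occ]
    rw [op_add, op_shift k (fun y => occ f y l) e x, ih]

omit hμ in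
lemma iter_occ (k f : E → ℝ≥0∞) (n : ℕ) (x : E) (l : List E) :
    (op k)^[n] (fun y => occ f y l) x = occ ((op k)^[n] f) x l := by
  induction n generalizing x with
  | zero => rfl
  | succ n ih =>
    rw [Function.iterate_succ_apply', Function.iterate_succ_apply', ← op_occ]
    exact congrArg (fun g => op k g x) (funext ih)

/-- a Green kernel for the weights `μ` -/
structure IsGreen (μ g : E → ℝ≥0∞) : Prop where
  eq : ∀ f x, op g f x = f x + op μ (op g f) x

omit hμ in
lemma IsGreen.UT_le {μ g : E → ℝ≥0∞} (hg : IsGreen μ g) (T : ℕ) (f : E → ℝ≥0∞) (x : E) :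
    UT μ T f x ≤ op g f x := by
  induction T generalizing x with
  | zero => rw [hg.eq]; exact le_self_add
  | succ T ih =>
    rw [hg.eq]
    simp only [UT]
    gcongr
    exact op_mono μ ih x

lemma second_moment_one {g : E → ℝ≥0∞} (hg : IsGreen μ g) (T : ℕ) (a b : E → ℝ≥0∞) (x : E) :
    Ex μ T (fun l => occ a x l * occ b x l)
      ≤ op g (fun v => a v * op g b v + op g a v * b v) x := by
  induction T generalizing x with
  | zero =>
    rw [hg.eq]
    refine le_trans ?_ (le_trans le_self_add le_self_add)
    simp only [Ex, occ]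
    gcongr
    rw [hg.eq]; exact le_self_add
  | succ T ih =>
    rw [hg.eq]
    simp only [Ex, occ]
    set h : E → ℝ≥0∞ := fun v => a v * op g b v + op g a v * b v with hh
    have key : ∀ e, μ e * Ex μ T (fun l => (a x + occ a (x + e) l) * (b x + occ b (x + e) l))
        ≤ μ e * (a x * b x) + a x * (μ e * op g b (x + e)) + b x * (μ e * op g a (x + e))
          + μ e * op g h (x + e) := by
      intro e
      have h1 : Ex μ T (fun l => (a x + occ a (x + e) l) * (b x + occ b (x + e) l))
          = a x * b x + a x * UT μ T b (x + e) + b x * UT μ T a (x + e)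
            + Ex μ T (fun l => occ a (x + e) l * occ b (x + e) l) := by
        have h2 : (fun l => (a x + occ a (x + e) l) * (b x + occ b (x + e) l))
            = fun l => ((a x * b x + a x * occ b (x + e) l) + b x * occ a (x + e) l)
              + occ a (x + e) l * occ b (x + e) l := by
          funext l; ring
        rw [h2, Ex_add, Ex_add, Ex_add, Ex_const hμ, Ex_mul_left, Ex_mul_left, Ex_occ hμ,
          Ex_occ hμ]
      rw [h1]
      calc μ e * (a x * b x + a x * UT μ T b (x + e) + b x * UT μ T a (x + e)
            + Ex μ T (fun l => occ a (x + e) l * occ b (x + e) l))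
          ≤ μ e * (a x * b x + a x * op g b (x + e) + b x * op g a (x + e) + op g h (x + e)) := by
            gcongr
            · exact hg.UT_le T b _
            · exact hg.UT_le T a _
            · exact ih _
        _ = _ := by ring
    calc ∑' e, μ e * Ex μ T (fun l => (a x + occ a (x + e) l) * (b x + occ b (x + e) l))
        ≤ ∑' e, (μ e * (a x * b x) + a x * (μ e * op g b (x + e))
            + b x * (μ e * op g a (x + e)) + μ e * op g h (x + e)) := ENNReal.tsum_le_tsum key
      _ = a x * b x + a x * op μ (op g b) x + b x * op μ (op g a) x + op μ (op g h) x := by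
          rw [ENNReal.tsum_add, ENNReal.tsum_add, ENNReal.tsum_add, ENNReal.tsum_mul_right, hμ,
            one_mul, ENNReal.tsum_mul_left, ENNReal.tsum_mul_left]
          rfl
      _ ≤ h x + op μ (op g h) x := by
          gcongr
          rw [hh]
          simp only
          rw [hg.eq b, hg.eq a]
          calc a x * b x + a x * op μ (op g b) x + b x * op μ (op g a) x
              = a x * (b x + op μ (op g b) x) + op μ (op g a) x * b x := by ring
            _ ≤ _ := by gcongr; exact le_add_self

end Pool.Agent.H380R3.ARW
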