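import Pool.Agent.H380R3.ARW.Miss

/-!
# Frostman measures on shells and their potentials
-/

set_option autoImplicit false
set_option linter.unusedSectionVars false

open scoped ENNReal
open Finset MeasureTheory

namespace Pool.Agent.H380R3.ARW

variable {d : ℕ}

lemma frost_shell (γ : ℝ) (A : Set (Fin d → ℤ)) (k : ℕ) :
    ∃ ν : (Fin d → ℤ) → ℝ≥0∞, (∀ y, ν y ≠ 0 → y ∈ A ∩ SS d k) ∧
      (∀ l ≤ k, ∀ a, ∑' y, (if idx l y = a then ν y else 0)
        ≤ ENNReal.ofReal (2 ^ (γ * ((l : ℝ) - k - 1)))) ∧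
      NN γ A k ≤ ∑' y, ν y := by
  classical
  have hSV : SS d k ⊆ VV d k := by
    cases k with
    | zero => exact le_rfl
    | succ k => exact Set.sdiff_subset
  have hfin : (A ∩ SS d k).Finite :=
    (VV_finite k).subset (Set.inter_subset_right.trans hSV)
  set F : Finset (Fin d → ℤ) := hfin.toFinset with hF
  obtain ⟨ν0, h0, h1, h2, C, h3, h4⟩ :=
    frostman k (fun l => (2 : ℝ) ^ (γ * ((l : ℝ) - k - 1))) (fun l => by positivity) F
  refine ⟨fun y => ENNReal.ofReal (ν0 y), fun y hy => ?_, fun l hl a => ?_, ?_⟩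
  · by_contra hcon
    apply hy
    simp only
    rw [h1 y (fun h => hcon (hfin.mem_toFinset.1 h)), ENNReal.ofReal_zero]
  · rw [tsum_eq_sum (s := F)]
    · rw [← Finset.sum_filter, ← ENNReal.ofReal_sum_of_nonneg fun y _ => h0 y]
      exact ENNReal.ofReal_le_ofReal (h2 l hl a)
    · intro y hy
      simp only
      rw [h1 y hy, ENNReal.ofReal_zero, ite_self]
  · have hcov : A ∩ SS d k ⊆ ⋃ c ∈ C, dyad c := by
      intro y hy
      obtain ⟨c, hc, hyc⟩ := h3 y (hfin.mem_toFinset.2 hy)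
      exact Set.mem_iUnion₂.2 ⟨c, hc, hyc⟩
    calc NN γ A k ≤ ∑ c ∈ C, ENNReal.ofReal (2 ^ (γ * ((c.1 : ℝ) - k - 1))) := iInf₂_le C hcov
      _ = ENNReal.ofReal (∑ c ∈ C, 2 ^ (γ * ((c.1 : ℝ) - k - 1))) :=
          (ENNReal.ofReal_sum_of_nonneg fun _ _ => by positivity).symm
      _ ≤ ENNReal.ofReal (∑ y ∈ F, ν0 y) := ENNReal.ofReal_le_ofReal h4
      _ = ∑ y ∈ F, ENNReal.ofReal (ν0 y) := ENNReal.ofReal_sum_of_nonneg fun y _ => h0 y
      _ ≤ ∑' y, ENNReal.ofReal (ν0 y) := ENNReal.sum_le_tsum _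

/-- the neighbours -/
noncomputable def nbr (d : ℕ) : Finset (Fin d → ℤ) :=
  Fintype.piFinset fun _ => Finset.Icc (-1 : ℤ) 1

lemma card_nbr : (((nbr d).card : ℕ) : ℝ≥0∞) = 3 ^ d := by
  unfold nbr
  rw [Fintype.card_piFinset]
  simp

lemma idx_near {i : ℕ} {y z : Fin d → ℤ} (h : sz (y - z) ≤ i) : idx i y - idx i z ∈ nbr d := by
  unfold nbr
  rw [Fintype.mem_piFinset]
  intro j
  have h1 := (sz_le_iff _ _).1 h j
  simp only [Pi.sub_apply] at h1
  have h5 : ((2 ^ i : ℕ) : ℤ) = 2 ^ i := by push_cast; rfl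
  have hp : (0 : ℤ) < 2 ^ i := by positivity
  have h6 : y j < z j + 2 ^ i := by omega
  have h7 : z j < y j + 2 ^ i := by omega
  rw [Finset.mem_Icc]
  simp only [Pi.sub_apply, idx]
  have ha := Int.ediv_le_ediv hp h6.le
  have hb := Int.ediv_le_ediv hp h7.le
  rw [Int.add_ediv_of_dvd_right (dvd_refl _), Int.ediv_self hp.ne'] at ha hb
  constructor <;> omega

lemma idx_VV {k : ℕ} {y : Fin d → ℤ} (h : y ∈ VV d k) : idx k y - idx k 0 ∈ nbr d := by
  unfold nbr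
  rw [Fintype.mem_piFinset]
  intro j
  obtain ⟨h1, h2⟩ := h j
  have hp : (0 : ℤ) < 2 ^ k := by positivity
  rw [Finset.mem_Icc]
  simp only [Pi.sub_apply, idx, Pi.zero_apply, Int.zero_ediv, sub_zero]
  constructor
  · rw [Int.le_ediv_iff_mul_le hp]; linarith
  · have := Int.ediv_lt_of_lt_mul hp (by linarith : y j < 1 * 2 ^ k)
    omega

open Classical in
lemma nbr_mass (ν : (Fin d → ℤ) → ℝ≥0∞) (i : ℕ) (c : ℝ≥0∞)
    (h : ∀ a, ∑' y, (if idx i y = a then ν y else 0) ≤ c) (z : Fin d → ℤ) (S : Set (Fin d → ℤ))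
    (hS : ∀ y ∈ S, idx i y - idx i z ∈ nbr d) :
    ∑' y, (if y ∈ S then ν y else 0) ≤ 3 ^ d * c := by
  calc ∑' y, (if y ∈ S then ν y else 0)
      ≤ ∑' y, ∑ e ∈ nbr d, (if idx i y = idx i z + e then ν y else 0) := by
        refine ENNReal.tsum_le_tsum fun y => ?_
        split_ifs with hy
        · refine le_trans ?_ (Finset.single_le_sum (f := fun e =>
            (if idx i y = idx i z + e then ν y else 0)) (fun _ _ => bot_le) (hS y hy))
          simp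
        · exact bot_le
    _ = ∑ e ∈ nbr d, ∑' y, (if idx i y = idx i z + e then ν y else 0) := by
        rw [Summable.tsum_finsetSum fun _ _ => ENNReal.summable]
    _ ≤ ∑ e ∈ nbr d, c := Finset.sum_le_sum fun e _ => h _
    _ = _ := by rw [Finset.sum_const, nsmul_eq_mul, card_nbr]

/-- the cap in terms of `p = 2 ^ γ` -/
lemma cap_eq (γ : ℝ) (l k : ℕ) :
    ENNReal.ofReal (2 ^ (γ * ((l : ℝ) - k - 1)))
      = ENNReal.ofReal (2 ^ γ) ^ l * (ENNReal.ofReal (2 ^ γ) ^ (k + 1))⁻¹ := by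
  rw [← ENNReal.ofReal_pow (by positivity), ← ENNReal.ofReal_pow (by positivity),
    ← ENNReal.ofReal_inv_of_pos (by positivity), ← ENNReal.ofReal_mul (by positivity)]
  congr 1
  rw [← Real.rpow_natCast, ← Real.rpow_natCast, ← Real.rpow_mul (by norm_num),
    ← Real.rpow_mul (by norm_num), ← Real.rpow_neg (by norm_num), ← Real.rpow_add (by norm_num)]
  congr 1
  push_cast
  ring

lemma op_eq' (k f : (Fin d → ℤ) → ℝ≥0∞) (z : Fin d → ℤ) :
    op k f z = ∑' y, k (y - z) * f y := by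
  have h := op_eq_sub k f 0 z
  rw [zero_add] at h
  rw [h]
  simp

/-- potential bound for measures with Frostman caps -/
lemma pot_upper {σ p : ℝ≥0∞} (hσ0 : σ ≠ 0) (hσ : σ < DD d) (hp1 : 1 ≤ p) (hpt : p ≠ ∞)
    (hr : 1 < σ / DD d * p) (k : ℕ) (ν : (Fin d → ℤ) → ℝ≥0∞)
    (hsupp : ∀ y, ν y ≠ 0 → y ∈ VV d k)
    (hcap : ∀ l ≤ k, ∀ a, ∑' y, (if idx l y = a then ν y else 0) ≤ p ^ l * (p ^ (k + 1))⁻¹)
    (z : Fin d → ℤ) :
    op (kap σ) ν z ≤ (3 ^ d * ((1 - (σ / DD d * p)⁻¹)⁻¹ + 1)) * (σ / DD d) ^ k := by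
  classical
  set q : ℝ≥0∞ := σ / DD d with hq
  have hq0 : q ≠ 0 := (ENNReal.div_pos hσ0 DD_ne_top).ne'
  have hq1 : q < 1 := div_DD_lt_one hσ
  have hp0 : p ≠ 0 := (lt_of_lt_of_le zero_lt_one hp1).ne'
  have hrt : q * p ≠ ∞ := ENNReal.mul_ne_top (hq1.trans_le le_top).ne hpt
  have hpk : p ^ k * (p ^ (k + 1))⁻¹ ≤ 1 := by
    rw [← div_eq_mul_inv]
    refine ENNReal.div_le_of_le_mul ?_
    rw [one_mul]
    exact pow_le_pow_right₀ hp1 (Nat.le_succ k)
  have htot : ∑' y, ν y ≤ 3 ^ d := by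
    have h := nbr_mass ν k _ (hcap k le_rfl) 0 (VV d k) (fun y hy => idx_VV hy)
    calc ∑' y, ν y = ∑' y, (if y ∈ VV d k then ν y else 0) := by
          refine tsum_congr fun y => ?_
          split_ifs with hy
          · rfl
          · by_contra hne
            exact hy (hsupp y hne)
      _ ≤ 3 ^ d * (p ^ k * (p ^ (k + 1))⁻¹) := h
      _ ≤ 3 ^ d * 1 := by gcongr
      _ = 3 ^ d := mul_one _
  have hball : ∀ i ≤ k, ∑' y, (if sz (y - z) ≤ i then ν y else 0)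
      ≤ 3 ^ d * (p ^ i * (p ^ (k + 1))⁻¹) := fun i hi => by
    have h := nbr_mass ν i _ (hcap i hi) z {y | sz (y - z) ≤ i} (fun y hy => idx_near hy)
    refine le_trans (le_of_eq (tsum_congr fun y => ?_)) h
    by_cases hb : sz (y - z) ≤ i
    · rw [if_pos hb]
      exact (if_pos (show y ∈ {y | sz (y - z) ≤ i} from hb)).symm
    · rw [if_neg hb]
      exact (if_neg (show ¬ y ∈ {y | sz (y - z) ≤ i} from hb)).symm
  rw [op_eq']
  calc ∑' y, kap σ (y - z) * ν y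
      ≤ ∑' y, (∑ i ∈ range (k + 1), q ^ i * (if sz (y - z) ≤ i then ν y else 0)
          + q ^ k * ν y) := by
        refine ENNReal.tsum_le_tsum fun y => ?_
        by_cases h : sz (y - z) ≤ k
        · refine le_trans ?_ le_self_add
          refine le_trans ?_ (Finset.single_le_sum (f := fun i =>
            q ^ i * (if sz (y - z) ≤ i then ν y else 0)) (fun _ _ => bot_le)
            (Finset.mem_range.2 (Nat.lt_succ_iff.2 h)))
          simp [kap, hq]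
        · refine le_trans ?_ le_add_self
          gcongr
          exact pow_le_pow_right_of_le_one' hq1.le (by omega)
    _ = ∑ i ∈ range (k + 1), q ^ i * (∑' y, (if sz (y - z) ≤ i then ν y else 0))
          + q ^ k * ∑' y, ν y := by
        rw [ENNReal.tsum_add, ENNReal.tsum_mul_left,
          Summable.tsum_finsetSum fun _ _ => ENNReal.summable]
        simp only [ENNReal.tsum_mul_left]
    _ ≤ ∑ i ∈ range (k + 1), q ^ i * (3 ^ d * (p ^ i * (p ^ (k + 1))⁻¹)) + q ^ k * 3 ^ d := by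
        gcongr with i hi
        exact hball i (Nat.lt_succ_iff.1 (Finset.mem_range.1 hi))
    _ = 3 ^ d * (p ^ (k + 1))⁻¹ * ∑ i ∈ range (k + 1), (q * p) ^ i + q ^ k * 3 ^ d := by
        rw [Finset.mul_sum]
        congr 1
        refine Finset.sum_congr rfl fun i _ => ?_
        rw [mul_pow]
        ring
    _ ≤ 3 ^ d * (p ^ (k + 1))⁻¹ * ((1 - (q * p)⁻¹)⁻¹ * (q * p) ^ k) + q ^ k * 3 ^ d := by
        gcongr
        exact geom_down hr hrt k
    _ = 3 ^ d * (1 - (q * p)⁻¹)⁻¹ * q ^ k * (p ^ k * (p ^ (k + 1))⁻¹) + q ^ k * 3 ^ d := by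
        rw [mul_pow]; ring
    _ ≤ 3 ^ d * (1 - (q * p)⁻¹)⁻¹ * q ^ k * 1 + q ^ k * 3 ^ d := by gcongr
    _ = _ := by ring

/-- total mass bound -/
lemma mass_le {p : ℝ≥0∞} (hp1 : 1 ≤ p) (k : ℕ) (ν : (Fin d → ℤ) → ℝ≥0∞)
    (hsupp : ∀ y, ν y ≠ 0 → y ∈ VV d k)
    (hcap : ∀ l ≤ k, ∀ a, ∑' y, (if idx l y = a then ν y else 0) ≤ p ^ l * (p ^ (k + 1))⁻¹) :
    ∑' y, ν y ≤ 3 ^ d := by
  classical
  have hpk : p ^ k * (p ^ (k + 1))⁻¹ ≤ 1 := by
    rw [← div_eq_mul_inv]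
    refine ENNReal.div_le_of_le_mul ?_
    rw [one_mul]
    exact pow_le_pow_right₀ hp1 (Nat.le_succ k)
  have h := nbr_mass ν k _ (hcap k le_rfl) 0 (VV d k) (fun y hy => idx_VV hy)
  calc ∑' y, ν y = ∑' y, (if y ∈ VV d k then ν y else 0) := by
        refine tsum_congr fun y => ?_
        split_ifs with hy
        · rfl
        · by_contra hne
          exact hy (hsupp y hne)
    _ ≤ 3 ^ d * (p ^ k * (p ^ (k + 1))⁻¹) := h
    _ ≤ 3 ^ d * 1 := by gcongr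
    _ = 3 ^ d := mul_one _

lemma SS_sz {k : ℕ} {y : Fin d → ℤ} (h : y ∈ SS d (k + 1)) : k + 1 ≤ sz y ∧ sz y ≤ k + 2 := by
  refine ⟨not_mem_VV h.2, ?_⟩
  rw [sz_le_iff]
  intro j
  obtain ⟨h1, h2⟩ := h.1 j
  have h5 : ((2 ^ (k + 2) : ℕ) : ℤ) = 2 * 2 ^ (k + 1) := by push_cast; ring
  have hp : (0 : ℤ) < 2 ^ (k + 1) := by positivity
  omega

/-- potential bound far away -/
lemma pot_far {σ : ℝ≥0∞} (hσ : σ < DD d) (n : ℕ)
    (ν : (Fin d → ℤ) → ℝ≥0∞) (z : Fin d → ℤ) (h : ∀ y, ν y ≠ 0 → n ≤ sz (y - z)) :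
    op (kap σ) ν z ≤ (σ / DD d) ^ n * ∑' y, ν y := by
  rw [op_eq', ← ENNReal.tsum_mul_left]
  refine ENNReal.tsum_le_tsum fun y => ?_
  by_cases hy : ν y = 0
  · rw [hy, mul_zero, mul_zero]
  · gcongr
    exact pow_le_pow_right_of_le_one' (div_DD_lt_one hσ).le (h y hy)

lemma pot_far_lower {σ : ℝ≥0∞} (hσ : σ < DD d) (n : ℕ)
    (ν : (Fin d → ℤ) → ℝ≥0∞) (z : Fin d → ℤ) (h : ∀ y, ν y ≠ 0 → sz (y - z) ≤ n) :
    (σ / DD d) ^ n * ∑' y, ν y ≤ op (kap σ) ν z := by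
  rw [op_eq', ← ENNReal.tsum_mul_left]
  refine ENNReal.tsum_le_tsum fun y => ?_
  by_cases hy : ν y = 0
  · rw [hy, mul_zero, mul_zero]
  · gcongr
    exact pow_le_pow_right_of_le_one' (div_DD_lt_one hσ).le (h y hy)

end Pool.Agent.H380R3.ARW
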