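import Pool.Agent.H380R3.ARW.Defs
import Pool.Agent.H380R3.ARW.Link

/-!
# Hitting probabilities and the Green function of the walk
-/

set_option autoImplicit false
set_option linter.unusedSectionVars false

open scoped ENNReal
open Finset MeasureTheory ProbabilityTheory

namespace Pool.Agent.H380R3.ARW

variable {d N : ℕ} {Ω : Type*} [MeasurableSpace Ω] {P : Measure Ω} [IsProbabilityMeasure P]
  {ξ : Fin N → ℕ → Ω → Fin d → ℤ}

/-- the event of hitting `Q` with all times at most `L` -/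
def Ev (ξ : Fin N → ℕ → Ω → Fin d → ℤ) (L : ℕ) (Q : Set (Fin d → ℤ)) : Set Ω :=
  {ω | ∃ n : Fin N → ℕ, (∀ i, n i ≤ L) ∧ ∑ i, walk (ξ i) (n i) ω ∈ Q}

lemma Ev_iff (L T : ℕ) (hLT : L ≤ T) (Q : Set (Fin d → ℤ)) (ω : Ω) :
    ω ∈ Ev ξ L Q ↔ hitL L Q 0 (List.ofFn fun i : Fin N => List.ofFn fun j : Fin T => ξ i j ω) := by
  rw [hitL_ofFn]
  unfold Ev
  refine exists_congr fun n => and_congr_right fun hn => ?_
  rw [zero_add]
  have : ∀ i, ((List.ofFn fun j : Fin T => ξ i j ω).take (n i)).sum = walk (ξ i) (n i) ω :=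
    fun i => sum_take_range (fun j => ξ i j ω) T (n i) ((hn i).trans hLT)
  simp only [this]

lemma Ev_measurable (hm : ∀ i j, Measurable (ξ i j)) (L : ℕ) (Q : Set (Fin d → ℤ)) :
    MeasurableSet (Ev ξ L Q) := by
  have hX : Measurable (fun ω => (fun (i : Fin N) (j : Fin L) => ξ i j ω)) :=
    measurable_pi_iff.2 fun i => measurable_pi_iff.2 fun j => hm i j
  have : Ev ξ L Q = (fun ω => (fun (i : Fin N) (j : Fin L) => ξ i j ω)) ⁻¹'
      {A | hitL L Q 0 (List.ofFn fun i : Fin N => List.ofFn fun j : Fin L => A i j)} := by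
    ext ω
    exact Ev_iff L L le_rfl Q ω
  rw [this]
  exact hX (Set.to_countable _).measurableSet

lemma Ev_prob (hm : ∀ i j, Measurable (ξ i j))
    (hind : iIndepFun (fun p : Fin N × ℕ => ξ p.1 p.2) P)
    (μ : (Fin d → ℤ) → ℝ≥0∞) (hlaw : ∀ i j e, P (ξ i j ⁻¹' {e}) = μ e)
    (L T : ℕ) (hLT : L ≤ T) (Q : Set (Fin d → ℤ)) : P (Ev ξ L Q) = prob μ T L N Q 0 := by
  classical
  unfold prob
  rw [← link_many ξ hm hind μ hlaw T, ← lintegral_indicator_one (Ev_measurable hm L Q)]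
  refine lintegral_congr fun ω => ?_
  by_cases h : ω ∈ Ev ξ L Q
  · rw [Set.indicator_of_mem h, if_pos ((Ev_iff L T hLT Q ω).1 h)]
    rfl
  · rw [Set.indicator_of_notMem h, if_neg fun h' => h ((Ev_iff L T hLT Q ω).2 h')]

lemma Ev_mono (Q : Set (Fin d → ℤ)) : Monotone fun L => Ev ξ L Q := by
  intro L L' h ω hω
  obtain ⟨n, hn, h2⟩ := hω
  exact ⟨n, fun i => (hn i).trans h, h2⟩

lemma iUnion_Ev (Q : Set (Fin d → ℤ)) :
    ⋃ L, Ev ξ L Q = {ω | (rangeSet ξ ω ∩ Q).Nonempty} := by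
  ext ω
  rw [Set.mem_iUnion]
  constructor
  · rintro ⟨L, n, hn, h⟩
    exact ⟨_, ⟨n, rfl⟩, h⟩
  · rintro ⟨x, ⟨n, rfl⟩, h⟩
    exact ⟨Finset.univ.sup n, n, fun i => Finset.le_sup (Finset.mem_univ i), h⟩

lemma hit_prob_eq (Q : Set (Fin d → ℤ)) :
    P {ω | (rangeSet ξ ω ∩ Q).Nonempty} = ⨆ L, P (Ev ξ L Q) := by
  rw [← iUnion_Ev, (Ev_mono Q).measure_iUnion]

/-- the Green function of the walk is `gr μ` -/
lemma greenFn_eq (η : ℕ → Ω → Fin d → ℤ) (hm : ∀ j, Measurable (η j)) (hind : iIndepFun η P)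
    (μ : (Fin d → ℤ) → ℝ≥0∞) (hlaw : ∀ j e, P (η j ⁻¹' {e}) = μ e) (x : Fin d → ℤ) :
    greenFn P η x = gr μ x := by
  classical
  unfold greenFn gr
  refine tsum_congr fun n => ?_
  unfold pn
  rw [← link_one η hm hind μ hlaw n]
  have hmeas : MeasurableSet {ω | walk η n ω = x} := by
    have : Measurable (fun ω => walk η n ω) := by
      unfold walk
      exact Finset.measurable_sum _ fun j _ => hm j
    exact this (measurableSet_singleton x)
  rw [← lintegral_indicator_one hmeas]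
  refine lintegral_congr fun ω => ?_
  have h1 : (List.ofFn fun j : Fin n => η j ω).sum = walk η n ω := by
    have := sum_take_range (fun j => η j ω) n n le_rfl
    rw [List.take_of_length_le (by simp)] at this
    exact this
  rw [h1]
  by_cases h : walk η n ω = x
  · rw [if_pos h, Set.indicator_of_mem (by exact h)]; rfl
  · rw [if_neg h, Set.indicator_of_notMem (by exact h)]

/-! ### comparison of the Green function with the kernels -/

lemma sz_eq_zero {x : Fin d → ℤ} (h : sz x = 0) : x = 0 := by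
  have := (sz_le_iff x 0).1 h.le
  funext j
  have := this j
  simp at this
  simpa using this

lemma eucl_le {x : Fin d → ℤ} : eucl x ≤ Real.sqrt d * 2 ^ sz x := by
  unfold eucl
  have h1 : ∑ i, (x i : ℝ) ^ 2 ≤ d * (2 ^ sz x) ^ 2 := by
    have : ∀ i ∈ (Finset.univ : Finset (Fin d)), (x i : ℝ) ^ 2 ≤ (2 ^ sz x) ^ 2 := by
      intro i _
      have h := (sz_le_iff x (sz x)).1 le_rfl i
      have h2 : |(x i : ℝ)| ≤ 2 ^ sz x := by
        have h3 : ((x i).natAbs : ℝ) ≤ 2 ^ sz x := by exact_mod_cast h.le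
        rwa [Nat.cast_natAbs, Int.cast_abs] at h3
      rw [← sq_abs]
      gcongr
    refine (Finset.sum_le_sum this).trans ?_
    simp
  calc Real.sqrt (∑ i, (x i : ℝ) ^ 2) ≤ Real.sqrt (d * (2 ^ sz x) ^ 2) := Real.sqrt_le_sqrt h1
    _ = _ := by rw [Real.sqrt_mul (by positivity), Real.sqrt_sq (by positivity)]

lemma le_eucl {x : Fin d → ℤ} (hx : x ≠ 0) : 2 ^ sz x / 2 ≤ eucl x := by
  have h0 : sz x ≠ 0 := fun h => hx (sz_eq_zero h)
  obtain ⟨m, hm⟩ := Nat.exists_eq_succ_of_ne_zero h0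
  have h1 : ¬ sz x ≤ m := by omega
  rw [sz_le_iff] at h1
  push Not at h1
  obtain ⟨j, hj⟩ := h1
  have h2 : (2 : ℝ) ^ m ≤ |(x j : ℝ)| := by
    have h3 : (2 : ℝ) ^ m ≤ ((x j).natAbs : ℝ) := by exact_mod_cast hj
    rwa [Nat.cast_natAbs, Int.cast_abs] at h3
  have h4 : |(x j : ℝ)| ≤ eucl x := by
    unfold eucl
    rw [← Real.sqrt_sq_eq_abs]
    apply Real.sqrt_le_sqrt
    exact Finset.single_le_sum (f := fun i => (x i : ℝ) ^ 2) (fun i _ => sq_nonneg _)
      (Finset.mem_univ j)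
  rw [hm, pow_succ]
  linarith

lemma kap_ofReal {α : ℝ} (x : Fin d → ℤ) :
    kap (ENNReal.ofReal (2 ^ α)) x = ENNReal.ofReal ((2 ^ sz x : ℝ) ^ (-(d : ℝ) + α)) := by
  unfold kap DD
  have h1 : (2 : ℝ≥0∞) ^ d = ENNReal.ofReal (2 ^ (d : ℝ)) := by
    rw [Real.rpow_natCast, ENNReal.ofReal_pow (by norm_num)]
    norm_num
  rw [h1, ← ENNReal.ofReal_div_of_pos (by positivity), ← ENNReal.ofReal_pow (by positivity)]
  congr 1
  rw [← Real.rpow_sub (by norm_num), ← Real.rpow_natCast, ← Real.rpow_mul (by norm_num),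
    ← Real.rpow_natCast 2 (sz x), ← Real.rpow_mul (by norm_num)]
  congr 1
  ring

/-- the Barlow-Taylor condition in terms of the kernels -/
lemma green_bounds (hd : d ≠ 0) {α : ℝ} (hα : α < d) (g : (Fin d → ℤ) → ℝ≥0∞) (hg0 : 1 ≤ g 0)
    (hg0' : g 0 ≠ ∞)
    (hbt : ∃ A B : ℝ, 0 < A ∧ A ≤ B ∧ ∀ x, x ≠ 0 →
      ENNReal.ofReal (A * eucl x ^ (-(d : ℝ) + α)) ≤ g x ∧
      g x ≤ ENNReal.ofReal (B * eucl x ^ (-(d : ℝ) + α))) :
    ∃ c C : ℝ≥0∞, c ≠ 0 ∧ C ≠ ∞ ∧ ∀ x, c * kap (ENNReal.ofReal (2 ^ α)) x ≤ g x ∧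
      g x ≤ C * kap (ENNReal.ofReal (2 ^ α)) x := by
  obtain ⟨A, B, hA, hAB, h⟩ := hbt
  have hB : 0 < B := hA.trans_le hAB
  have hd' : (0 : ℝ) < d := by exact_mod_cast Nat.pos_of_ne_zero hd
  have hsd : 0 < Real.sqrt d := Real.sqrt_pos.2 hd'
  set s : ℝ := -(d : ℝ) + α with hs
  have hs0 : s ≤ 0 := by rw [hs]; linarith
  set c1 : ℝ := A * Real.sqrt d ^ s with hc1
  have hc1p : 0 < c1 := by positivity
  set C1 : ℝ := B * (1 / 2 : ℝ) ^ s with hC1
  have hC1p : 0 < C1 := by positivity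
  refine ⟨min (ENNReal.ofReal c1) 1, ENNReal.ofReal C1 + g 0, ?_, ?_, fun x => ?_⟩
  · have : 0 < min (ENNReal.ofReal c1) 1 := lt_min (ENNReal.ofReal_pos.2 hc1p) zero_lt_one
    exact this.ne'
  · exact ENNReal.add_ne_top.2 ⟨ENNReal.ofReal_ne_top, hg0'⟩
  · rw [kap_ofReal, ← hs]
    by_cases hx : x = 0
    · subst hx
      rw [sz_zero, pow_zero, Real.one_rpow, ENNReal.ofReal_one, mul_one, mul_one]
      exact ⟨(min_le_right _ _).trans hg0, le_add_self⟩
    · obtain ⟨h1, h2⟩ := h x hx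
      have he : 0 < eucl x := lt_of_lt_of_le (by positivity) (le_eucl hx)
      constructor
      · refine le_trans (mul_le_mul' (min_le_left _ _) le_rfl) (le_trans ?_ h1)
        rw [← ENNReal.ofReal_mul hc1p.le]
        apply ENNReal.ofReal_le_ofReal
        rw [hc1, mul_assoc, ← Real.mul_rpow hsd.le (by positivity)]
        refine mul_le_mul_of_nonneg_left ?_ hA.le
        exact Real.rpow_le_rpow_of_nonpos he eucl_le hs0
      · refine h2.trans (le_trans ?_ (mul_le_mul' le_self_add le_rfl))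
        rw [← ENNReal.ofReal_mul hC1p.le]
        apply ENNReal.ofReal_le_ofReal
        rw [hC1, mul_assoc, ← Real.mul_rpow (by norm_num) (by positivity)]
        refine mul_le_mul_of_nonneg_left ?_ hB.le
        refine Real.rpow_le_rpow_of_nonpos (by positivity) ?_ hs0
        have := le_eucl hx
        linarith

lemma one_le_gr_zero (μ : (Fin d → ℤ) → ℝ≥0∞) : 1 ≤ gr μ 0 := by
  classical
  unfold gr
  refine le_trans ?_ (ENNReal.le_tsum 0)
  simp [pn, Ex]

end Pool.Agent.H380R3.ARW
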